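import Pool.Agent.Work.MP_f94239_co.Gal1

/-!
# `T` counts monochromatic 3-subsets
-/

set_option autoImplicit false

namespace Pool.Agent.Work.MP_f94239_co

open Finset

variable {V : Type*} [DecidableEq V]

/-- all pairs in `t` have the same colour -/
def MonoSet (c : V → V → ℕ) (t : Finset V) : Prop :=
  ∃ i, ∀ x ∈ t, ∀ y ∈ t, x ≠ y → c x y = i

/-- ordered monochromatic triangles -/
def ordT (c : V → V → ℕ) (S : Finset V) : Finset (V × V × V) :=
  (S ×ˢ S ×ˢ S).filter (fun p => (p.1 ≠ p.2.1 ∧ p.2.1 ≠ p.2.2 ∧ p.1 ≠ p.2.2) ∧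
    c p.1 p.2.1 = c p.2.1 p.2.2 ∧ c p.1 p.2.2 = c p.2.1 p.2.2)

lemma t3_eq_card (c : V → V → ℕ) (S : Finset V) : t3 c S S S = (ordT c S).card := by
  unfold t3 ordT mm
  rw [Finset.card_filter]
  push_cast
  rw [Finset.sum_product]
  refine Finset.sum_congr rfl fun x _ => ?_
  rw [Finset.sum_product]

open Classical in
lemma T_eq_card {c : V → V → ℕ} (hc : Sym c) (S : Finset V) :
    T c S = (((S.powersetCard 3).filter (MonoSet c)).card : ℝ) := by
  have hmaps : ∀ p ∈ ordT c S, ({p.1, p.2.1, p.2.2} : Finset V) ∈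
      (S.powersetCard 3).filter (MonoSet c) := by
    rintro ⟨x, y, z⟩ hp
    simp only [ordT, Finset.mem_filter, Finset.mem_product] at hp
    obtain ⟨⟨hx, hy, hz⟩, ⟨hxy, hyz, hxz⟩, h1, h2⟩ := hp
    rw [Finset.mem_filter, Finset.mem_powersetCard]
    refine ⟨⟨?_, ?_⟩, c y z, ?_⟩
    · intro w hw
      simp only [Finset.mem_insert, Finset.mem_singleton] at hw
      rcases hw with rfl | rfl | rfl <;> assumption
    · rw [Finset.card_eq_three]
      exact ⟨x, y, z, hxy, hxz, hyz, rfl⟩
    · intro u hu w hw huw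
      simp only [Finset.mem_insert, Finset.mem_singleton] at hu hw
      have e1 := hc x y
      have e2 := hc x z
      have e3 := hc y z
      rcases hu with rfl | rfl | rfl <;> rcases hw with rfl | rfl | rfl <;>
        first
        | exact absurd rfl huw
        | (first | rfl | assumption | (rw [← e1]; assumption) | (rw [← e2]; assumption) |
            (rw [← e3]))
  have hfib : ∀ t ∈ (S.powersetCard 3).filter (MonoSet c),
      ((ordT c S).filter (fun p => ({p.1, p.2.1, p.2.2} : Finset V) = t)).card = 6 := by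
    intro t ht
    rw [Finset.mem_filter, Finset.mem_powersetCard] at ht
    obtain ⟨⟨htS, ht3⟩, i, hi⟩ := ht
    obtain ⟨a, b, d, hab, had, hbd, rfl⟩ := Finset.card_eq_three.mp ht3
    have ha : a ∈ S := htS (by simp)
    have hb : b ∈ S := htS (by simp)
    have hd : d ∈ S := htS (by simp)
    have i1 : c a b = i := hi a (by simp) b (by simp) hab
    have i2 : c a d = i := hi a (by simp) d (by simp) had
    have i3 : c b d = i := hi b (by simp) d (by simp) hbd
    have i4 : c b a = i := by rw [hc b a]; exact i1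
    have i5 : c d a = i := by rw [hc d a]; exact i2
    have i6 : c d b = i := by rw [hc d b]; exact i3
    have heq : (ordT c S).filter (fun p => ({p.1, p.2.1, p.2.2} : Finset V) = {a, b, d}) =
        {(a, b, d), (a, d, b), (b, a, d), (b, d, a), (d, a, b), (d, b, a)} := by
      ext ⟨x, y, z⟩
      simp only [ordT, Finset.mem_filter, Finset.mem_product, Finset.mem_insert,
        Finset.mem_singleton, Prod.mk.injEq]
      constructor
      · rintro ⟨⟨_, ⟨hxy, hyz, hxz⟩, _⟩, he⟩
        have hx : x ∈ ({a, b, d} : Finset V) := by rw [← he]; simp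
        have hy : y ∈ ({a, b, d} : Finset V) := by rw [← he]; simp
        have hz : z ∈ ({a, b, d} : Finset V) := by rw [← he]; simp
        simp only [Finset.mem_insert, Finset.mem_singleton] at hx hy hz
        rcases hx with rfl | rfl | rfl <;> rcases hy with rfl | rfl | rfl <;>
          rcases hz with rfl | rfl | rfl <;> simp_all
      · have perm : ∀ x y z : V, ({x, y, z} : Finset V) = {x, z, y} := by
          intro x y z; ext w; simp; tauto
        have perm2 : ∀ x y z : V, ({x, y, z} : Finset V) = {y, x, z} := by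
          intro x y z; ext w; simp; tauto
        rintro (⟨rfl, rfl, rfl⟩ | ⟨rfl, rfl, rfl⟩ | ⟨rfl, rfl, rfl⟩ | ⟨rfl, rfl, rfl⟩ |
          ⟨rfl, rfl, rfl⟩ | ⟨rfl, rfl, rfl⟩)
        · exact ⟨⟨⟨ha, hb, hd⟩, ⟨hab, hbd, had⟩, by rw [i1, i3], by rw [i2, i3]⟩, rfl⟩
        · exact ⟨⟨⟨ha, hd, hb⟩, ⟨had, hbd.symm, hab⟩, by rw [i2, i6], by rw [i1, i6]⟩,
            by ext w; simp; tauto⟩
        · exact ⟨⟨⟨hb, ha, hd⟩, ⟨hab.symm, had, hbd⟩, by rw [i4, i2], by rw [i3, i2]⟩,
            by ext w; simp; tauto⟩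
        · exact ⟨⟨⟨hb, hd, ha⟩, ⟨hbd, had.symm, hab.symm⟩, by rw [i3, i5], by rw [i4, i5]⟩,
            by ext w; simp; tauto⟩
        · exact ⟨⟨⟨hd, ha, hb⟩, ⟨had.symm, hab, hbd.symm⟩, by rw [i5, i1], by rw [i6, i1]⟩,
            by ext w; simp; tauto⟩
        · exact ⟨⟨⟨hd, hb, ha⟩, ⟨hbd.symm, hab.symm, had.symm⟩, by rw [i6, i4], by rw [i5, i4]⟩,
            by ext w; simp; tauto⟩
    rw [heq]
    rw [Finset.card_insert_of_notMem, Finset.card_insert_of_notMem, Finset.card_insert_of_notMem,
      Finset.card_insert_of_notMem, Finset.card_insert_of_notMem, Finset.card_singleton]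
    all_goals
      simp only [Finset.mem_insert, Finset.mem_singleton, Prod.mk.injEq, not_or, not_and]
      try simp [hab, had, hbd, hab.symm, had.symm, hbd.symm]
  have h1 := Finset.card_eq_sum_card_fiberwise (f := fun p : V × V × V =>
    ({p.1, p.2.1, p.2.2} : Finset V)) (s := ordT c S) (t := (S.powersetCard 3).filter (MonoSet c)) hmaps
  rw [Finset.sum_congr rfl hfib, Finset.sum_const, smul_eq_mul] at h1
  unfold T
  rw [t3_eq_card, h1]
  push_cast
  ring

end Pool.Agent.Work.MP_f94239_co
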