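import Pool.Agent.Work.MP_f94239_co.Step
import Pool.Agent.Work.MP_f94239_co.Card

/-!
# The base cases: one and two colours
-/

set_option autoImplicit false

namespace Pool.Agent.Work.MP_f94239_co

open Finset

variable {V : Type*} [DecidableEq V]

lemma sum_ne (S : Finset V) {x : V} (hx : x ∈ S) :
    ∑ y ∈ S, (if x ≠ y then (1:ℝ) else 0) = S.card - 1 := by
  rw [← Finset.sum_filter, Finset.sum_const, nsmul_eq_mul, mul_one]
  have h1 : S.filter (fun y => x ≠ y) = S.erase x := by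
    ext z
    simp only [Finset.mem_filter, Finset.mem_erase]
    constructor
    · rintro ⟨h1, h2⟩; exact ⟨h2.symm, h1⟩
    · rintro ⟨h1, h2⟩; exact ⟨h2, h1.symm⟩
  rw [h1]
  have h4 := Finset.card_erase_add_one hx
  have h6 : (((S.erase x).card : ℝ)) + 1 = S.card := by exact_mod_cast h4
  linarith

/-- one colour -/
lemma T_one {c : V → V → ℕ} {S : Finset V} {C : Finset ℕ} (hu : Uses c S C) (hC : C.card ≤ 1) :
    T c S = (S.card : ℝ) * (S.card - 1) * (S.card - 2) / 6 := by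
  have h0 : ∀ x ∈ S, ∀ y ∈ S, x ≠ y → ∀ u ∈ S, ∀ v ∈ S, u ≠ v → c x y = c u v := by
    intro x hx y hy hxy u hu' v hv huv
    exact Finset.card_le_one.mp hC _ (hu x hx y hy hxy) _ (hu u hu' v hv huv)
  have h1 : ∀ x ∈ S, ∀ y ∈ S, ∑ z ∈ S, mm c x y z =
      (S.card - 2) * (if x ≠ y then (1:ℝ) else 0) := by
    intro x hx y hy
    by_cases hxy : x = y
    · subst hxy
      simp [mm_self_left]
    · rw [if_pos hxy, mul_one, ← sum_distinct S hx hy hxy]
      refine Finset.sum_congr rfl fun z hz => ?_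
      unfold mm
      by_cases h2 : y ≠ z ∧ x ≠ z
      · rw [if_pos h2, if_pos]
        exact ⟨⟨hxy, h2.1, h2.2⟩, h0 x hx y hy hxy y hy z hz h2.1, h0 x hx z hz h2.2 y hy z hz h2.1⟩
      · rw [if_neg h2, if_neg]
        rintro ⟨⟨_, h3, h4⟩, _⟩
        exact h2 ⟨h3, h4⟩
  unfold T t3
  rw [Finset.sum_congr rfl fun x hx => Finset.sum_congr rfl fun y hy => h1 x hx y hy]
  have h2 : ∀ x ∈ S, ∑ y ∈ S, ((S.card:ℝ) - 2) * (if x ≠ y then (1:ℝ) else 0) =
      (S.card - 2) * (S.card - 1) := by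
    intro x hx
    rw [← Finset.mul_sum, sum_ne S hx]
  rw [Finset.sum_congr rfl h2, Finset.sum_const, nsmul_eq_mul]
  ring

lemma base_odd : LB V (2 * 0 + 1) ((5 ^ 0 : ℕ) : ℝ) FL := by
  intro c S C hc hg hu hC
  rw [T_one hu (by simpa using hC)]
  simp only [pow_zero, Nat.cast_one, div_one]
  exact FL_nat S.card

lemma t3d_id (c : V → V → ℕ) (S : Finset V) : t3d c (id : V → V) S = t3 c S S S := by
  unfold t3d t3
  refine Finset.sum_congr rfl fun x _ => Finset.sum_congr rfl fun y _ => Finset.sum_congr rfl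
    fun z _ => ?_
  by_cases h : id x ≠ id y ∧ id y ≠ id z ∧ id x ≠ id z
  · rw [if_pos h]
  · rw [if_neg h]
    unfold mm
    rw [if_neg]
    intro h1
    exact h h1.1

/-- red degree -/
def deg (c : V → V → ℕ) (a : ℕ) (S : Finset V) (x : V) : ℕ :=
  (S.filter (fun y => x ≠ y ∧ c x y = a)).card

/-- Goodman's identity -/
lemma goodman2 {c : V → V → ℕ} (hc : Sym c) {S : Finset V} {a b : ℕ} (hab : a ≠ b)
    (h : ∀ x ∈ S, ∀ y ∈ S, x ≠ y → c x y = a ∨ c x y = b) :
    24 * T c S = S.card * ((S.card - 1) * (S.card - 5)) +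
      3 * ∑ x ∈ S, (2 * (deg c a S x : ℝ) - (S.card - 1)) ^ 2 := by
  have h1 := goodman_exact hc (id : V → V) (S := S) hab h (by
    intro x _ x' _ y _ hxx _
    simp only [id] at hxx
    rw [hxx])
  rw [t3d_id] at h1
  have h2 : 24 * T c S = 4 * t3 c S S S := by unfold T; ring
  rw [h2, h1]
  have h3 : ∀ x ∈ S, ((S.card - wt (id : V → V) S x) * (S.card - 5 * wt (id : V → V) S x) +
      3 * (∑ y ∈ S, qq (id : V → V) x y * sg c a x y) ^ 2) =
      ((S.card:ℝ) - 1) * (S.card - 5) + 3 * (2 * (deg c a S x : ℝ) - (S.card - 1)) ^ 2 := by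
    intro x hx
    have e1 : wt (id : V → V) S x = 1 := by
      unfold wt blk
      have : S.filter (fun y => id y = id x) = {x} := by
        ext y
        simp only [Finset.mem_filter, id, Finset.mem_singleton]
        constructor
        · exact fun h => h.2
        · rintro rfl; exact ⟨hx, rfl⟩
      rw [this]
      simp
    have e2 : ∑ y ∈ S, qq (id : V → V) x y * sg c a x y = 2 * (deg c a S x : ℝ) - (S.card - 1) := by
      have e3 : ∀ y ∈ S, qq (id : V → V) x y * sg c a x y =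
          2 * (if x ≠ y ∧ c x y = a then (1:ℝ) else 0) - (if x ≠ y then (1:ℝ) else 0) := by
        intro y _
        unfold qq sg
        simp only [id]
        by_cases p : x = y
        · simp [p]
        · by_cases q : c x y = a
          · simp [p, q]; norm_num
          · simp [p, q]
      rw [Finset.sum_congr rfl e3, Finset.sum_sub_distrib, ← Finset.mul_sum, sum_ne S hx]
      congr 2
      unfold deg
      rw [Finset.card_filter]
      push_cast
      rfl
    rw [e1, e2]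
    ring
  rw [Finset.sum_congr rfl h3, Finset.sum_add_distrib, Finset.sum_const, nsmul_eq_mul,
    ← Finset.mul_sum]

/-- two colours: lower bound -/
lemma T_two {c : V → V → ℕ} (hc : Sym c) {S : Finset V} {C : Finset ℕ} (hu : Uses c S C)
    (hC : C.card ≤ 2) : (gd S.card : ℝ) ≤ T c S := by
  classical
  obtain ⟨C', hCC', hC'⟩ := Infinite.exists_superset_card_eq C 2 hC
  obtain ⟨a, b, hab, rfl⟩ := Finset.card_eq_two.mp hC'
  have h : ∀ x ∈ S, ∀ y ∈ S, x ≠ y → c x y = a ∨ c x y = b := by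
    intro x hx y hy hxy
    simpa using hCC' (hu x hx y hy hxy)
  have hgm := goodman2 hc hab h
  obtain ⟨n, hn⟩ : ∃ n, n = S.card := ⟨_, rfl⟩
  rw [← hn] at hgm ⊢
  have hnn : 0 ≤ ∑ x ∈ S, (2 * (deg c a S x : ℝ) - ((n:ℝ) - 1)) ^ 2 :=
    Finset.sum_nonneg fun _ _ => sq_nonneg _
  have hmod : n % 4 = 0 ∨ n % 4 = 1 ∨ n % 4 = 2 ∨ n % 4 = 3 := by omega
  have heven : ∀ m : ℕ, n = 2 * m → (gd n : ℝ) ≤ T c S := by
    intro m hm
    rw [hm, gd_even]
    have h1 : ∑ x ∈ S, (1:ℝ) ≤ ∑ x ∈ S, (2 * (deg c a S x : ℝ) - ((n:ℝ) - 1)) ^ 2 := by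
      refine Finset.sum_le_sum fun x _ => ?_
      have h2 : (2 * (deg c a S x : ℤ) - ((n:ℤ) - 1)) ≠ 0 := by omega
      have h3 : 1 ≤ (2 * (deg c a S x : ℤ) - ((n:ℤ) - 1)) ^ 2 := by
        rcases lt_or_gt_of_ne h2 with h4 | h4 <;> nlinarith
      have h5 : (1:ℝ) ≤ (((2 * (deg c a S x : ℤ) - ((n:ℤ) - 1)) ^ 2 : ℤ) : ℝ) := by exact_mod_cast h3
      push_cast at h5
      exact h5
    rw [Finset.sum_const, nsmul_eq_mul, mul_one, ← hn] at h1
    have h2 : (n:ℝ) = 2 * m := by rw [hm]; push_cast; ring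
    rw [h2] at hgm h1
    nlinarith
  rcases hmod with h0 | h0 | h0 | h0
  · exact heven (n / 2) (by omega)
  · obtain ⟨r, hr⟩ : ∃ r, n = 4 * r + 1 := ⟨n / 4, by omega⟩
    rw [hr, gd_one_mod]
    have h2 : (n:ℝ) = 4 * r + 1 := by rw [hr]; push_cast; ring
    rw [h2] at hgm hnn
    nlinarith
  · exact heven (n / 2) (by omega)
  · obtain ⟨r, hr⟩ : ∃ r, n = 4 * r + 3 := ⟨n / 4, by omega⟩
    have h2 : (n:ℝ) = 4 * r + 3 := by rw [hr]; push_cast; ring
    have hT := T_eq_card hc S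
    rw [hT] at hgm ⊢
    have h3 := gd_three_mod r
    rw [← hr] at h3
    rw [h2] at hgm hnn
    obtain ⟨N, hN⟩ : ∃ N, N = ((S.powersetCard 3).filter (MonoSet c)).card := ⟨_, rfl⟩
    rw [← hN] at hgm ⊢
    have h4 : (gd n : ℝ) < N + 1 := by
      nlinarith
    have h5 : gd n < N + 1 := by exact_mod_cast h4
    exact_mod_cast (show gd n ≤ N by omega)

lemma base_even : LB V (2 * 0 + 2) ((5 ^ 0 : ℕ) : ℝ) HL := by
  intro c S C hc hg hu hC q
  simp only [pow_zero, Nat.cast_one, div_one]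
  exact (HL_nat S.card q).trans (T_two hc hu (by simpa using hC))

/-- the lower bounds for all numbers of colours -/
theorem lower (V : Type*) [DecidableEq V] (j : ℕ) : LB V (2 * j + 1) ((5 ^ j : ℕ) : ℝ) FL ∧
    LB V (2 * j + 2) ((5 ^ j : ℕ) : ℝ) HL := by
  induction j with
  | zero => exact ⟨base_odd, base_even⟩
  | succ j ih =>
    have h1 := step_odd ih.1 ih.2
    exact ⟨h1, step_even h1 ih.2⟩

end Pool.Agent.Work.MP_f94239_co
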