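import Pool.Agent.Work.MP_f94239_co.Upper

/-!
# Putting everything together
-/

set_option autoImplicit false

namespace Pool.Agent.Work.MP_f94239_co

open Finset

/-- the value of the minimum -/
def G (k n : ℕ) : ℕ :=
  if Odd k then (n % 5 ^ ((k - 1) / 2)) * (n / 5 ^ ((k - 1) / 2) + 1).choose 3 +
      (5 ^ ((k - 1) / 2) - n % 5 ^ ((k - 1) / 2)) * (n / 5 ^ ((k - 1) / 2)).choose 3
  else (n % 5 ^ ((k - 1) / 2)) * gd (n / 5 ^ ((k - 1) / 2) + 1) +
      (5 ^ ((k - 1) / 2) - n % 5 ^ ((k - 1) / 2)) * gd (n / 5 ^ ((k - 1) / 2))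

lemma gd_touch3 (q : ℕ) : (gd (2 * q + 3) : ℝ) = nu q * (2 * q + 3) - om q := by
  rw [show 2 * q + 3 = (2 * q + 2) + 1 by ring, gd_succ', gd_touch']
  have e1 : (2 * q + 2 - 1) / 2 = q := by omega
  rw [e1]; ring

lemma gd_line (m : ℕ) : (gd m : ℝ) = nu ((m - 1) / 2) * m - om ((m - 1) / 2) ∧
    (gd (m + 1) : ℝ) = nu ((m - 1) / 2) * (m + 1) - om ((m - 1) / 2) := by
  rcases Nat.eq_zero_or_pos m with rfl | hm
  · have h0 : gd 0 = 0 := rfl
    have h1 : gd (0 + 1) = 0 := rfl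
    rw [h0, h1]
    simp [nu, om]
  · obtain ⟨q, hq | hq⟩ : ∃ q, m = 2 * q + 1 ∨ m = 2 * q + 2 := by
      rcases Nat.even_or_odd' m with ⟨r, hr | hr⟩
      · exact ⟨r - 1, Or.inr (by omega)⟩
      · exact ⟨r, Or.inl hr⟩
    · have e : (m - 1) / 2 = q := by omega
      rw [e, hq]
      have h1 := gd_touch q
      have h2 := gd_touch' q
      constructor
      · rw [h1]; push_cast; ring
      · rw [show 2 * q + 1 + 1 = 2 * q + 2 by ring, h2]; push_cast; ring
    · have e : (m - 1) / 2 = q := by omega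
      rw [e, hq]
      have h1 := gd_touch' q
      have h2 := gd_touch3 q
      constructor
      · rw [h1]; push_cast; ring
      · rw [show 2 * q + 2 + 1 = 2 * q + 3 by ring, h2]; push_cast; ring

theorem lower_nat {V : Type*} [DecidableEq V] {k : ℕ} (hk : 1 ≤ k) {c : V → V → ℕ} (hc : Sym c)
    {S : Finset V} {C : Finset ℕ} (hg : Gal c S) (hu : Uses c S C) (hC : C.card ≤ k) :
    (G k S.card : ℝ) ≤ T c S := by
  obtain ⟨n, hn⟩ : ∃ n, n = S.card := ⟨_, rfl⟩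
  rw [← hn]
  unfold G
  obtain ⟨N, hN⟩ : ∃ N, N = 5 ^ ((k - 1) / 2) := ⟨_, rfl⟩
  have hN0 : 0 < N := by rw [hN]; exact Nat.pow_pos (by norm_num)
  have hNR : (0:ℝ) < N := by exact_mod_cast hN0
  rw [← hN]
  have hr : n % N < N := Nat.mod_lt _ hN0
  obtain ⟨r, hr'⟩ : ∃ r, r = n % N := ⟨_, rfl⟩
  obtain ⟨m, hm⟩ : ∃ m, m = n / N := ⟨_, rfl⟩
  have hnm : n = N * m + r := by rw [hr', hm]; exact (Nat.div_add_mod n N).symm
  rw [← hr', ← hm]
  rw [← hr'] at hr
  have hnR : (n:ℝ) = N * m + r := by rw [hnm]; push_cast; ring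
  have hcast : ((N - r : ℕ) : ℝ) = (N:ℝ) - r := by rw [Nat.cast_sub hr.le]
  split_ifs with hodd
  · obtain ⟨j, hj⟩ := hodd
    have h1 := (lower V j).1 c S C hc hg hu (by omega) m
    have e : (k - 1) / 2 = j := by omega
    rw [← hn] at h1
    rw [e] at hN
    rw [← hN, mu, lam] at h1
    have h2 : ((m:ℝ) * (m - 1) / 2) * n - N * (((m:ℝ) ^ 3 - m) / 3) ≤ T c S := by
      have h3 := mul_le_mul_of_nonneg_left h1 hNR.le
      have e1 : (N:ℝ) * (T c S / N) = T c S := by field_simp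
      have e2 : (N:ℝ) * ((m:ℝ) * (m - 1) / 2 * (n / N) - ((m:ℝ) ^ 3 - m) / 3) =
          ((m:ℝ) * (m - 1) / 2) * n - N * (((m:ℝ) ^ 3 - m) / 3) := by field_simp
      rw [e1, e2] at h3
      exact h3
    refine le_trans (le_of_eq ?_) h2
    push_cast
    rw [hcast, choose_three, choose_three, hnR]
    push_cast
    ring
  · have hev : ∃ j, k = 2 * j + 2 := by
      rw [Nat.not_odd_iff_even] at hodd
      obtain ⟨i, hi⟩ := hodd
      exact ⟨i - 1, by omega⟩
    obtain ⟨j, hj⟩ := hev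
    have h1 := (lower V j).2 c S C hc hg hu (by omega) ((m - 1) / 2)
    have e : (k - 1) / 2 = j := by omega
    rw [← hn] at h1
    rw [e] at hN
    rw [← hN] at h1
    obtain ⟨g1, g2⟩ := gd_line m
    have h2 : nu ((m - 1) / 2) * n - N * om ((m - 1) / 2) ≤ T c S := by
      have h3 := mul_le_mul_of_nonneg_left h1 hNR.le
      have e1 : (N:ℝ) * (T c S / N) = T c S := by field_simp
      have e2 : (N:ℝ) * (nu ((m - 1) / 2) * (n / N) - om ((m - 1) / 2)) =
          nu ((m - 1) / 2) * n - N * om ((m - 1) / 2) := by field_simp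
      rw [e1, e2] at h3
      exact h3
    refine le_trans (le_of_eq ?_) h2
    push_cast
    rw [hcast, g1, g2, hnR]
    ring

theorem upper_nat {k : ℕ} (hk : 1 ≤ k) (n : ℕ) :
    ∃ c : ℕ → ℕ → ℕ, Sym c ∧ Gal c (range n) ∧ Uses c (range n) (range k) ∧
      T c (range n) = G k n := by
  unfold G
  obtain ⟨N, hN⟩ : ∃ N, N = 5 ^ ((k - 1) / 2) := ⟨_, rfl⟩
  have hN0 : 0 < N := by rw [hN]; exact Nat.pow_pos (by norm_num)
  rw [← hN]
  split_ifs with hodd
  · obtain ⟨j, hj⟩ := hodd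
    have e : (k - 1) / 2 = j := by omega
    rw [e] at hN
    obtain ⟨c, h1, h2, h3, h4⟩ := att_iter att_one j n
    refine ⟨c, h1, h2, by rw [hj]; exact h3, ?_⟩
    rw [h4, ← sum_balanced (fun n => n.choose 3) hN0, hN]
  · have hev : ∃ j, k = 2 * j + 2 := by
      rw [Nat.not_odd_iff_even] at hodd
      obtain ⟨i, hi⟩ := hodd
      exact ⟨i - 1, by omega⟩
    obtain ⟨j, hj⟩ := hev
    have e : (k - 1) / 2 = j := by omega
    rw [e] at hN
    obtain ⟨c, h1, h2, h3, h4⟩ := att_iter att_two j n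
    refine ⟨c, h1, h2, by rw [hj]; exact h3, ?_⟩
    rw [h4, ← sum_balanced gd hN0, hN]

end Pool.Agent.Work.MP_f94239_co
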