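import Mathlib

/-!
# Gallai colourings: basic definitions, ordered counts of monochromatic triangles
-/

set_option autoImplicit false

namespace Pool.Agent.Work.MP_f94239_co

open Finset

variable {V : Type*} [DecidableEq V]

/-- the colouring is symmetric -/
def Sym (c : V → V → ℕ) : Prop := ∀ x y, c x y = c y x

/-- no rainbow triangle in `S` -/
def Gal (c : V → V → ℕ) (S : Finset V) : Prop :=
  ∀ x ∈ S, ∀ y ∈ S, ∀ z ∈ S, x ≠ y → y ≠ z → x ≠ z →
    c x y = c y z ∨ c y z = c x z ∨ c x y = c x z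

/-- all edges of `S` have colours in `C` -/
def Uses (c : V → V → ℕ) (S : Finset V) (C : Finset ℕ) : Prop :=
  ∀ x ∈ S, ∀ y ∈ S, x ≠ y → c x y ∈ C

/-- indicator of a monochromatic (ordered) triangle -/
noncomputable def mm (c : V → V → ℕ) (x y z : V) : ℝ :=
  if (x ≠ y ∧ y ≠ z ∧ x ≠ z) ∧ c x y = c y z ∧ c x z = c y z then 1 else 0

/-- number of ordered monochromatic triangles in `A × B × D` -/
noncomputable def t3 (c : V → V → ℕ) (A B D : Finset V) : ℝ :=
  ∑ x ∈ A, ∑ y ∈ B, ∑ z ∈ D, mm c x y z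

/-- number of monochromatic triangles in `S` -/
noncomputable def T (c : V → V → ℕ) (S : Finset V) : ℝ := t3 c S S S / 6

/-- number of edges of colour `a` in `S` -/
noncomputable def ee (c : V → V → ℕ) (a : ℕ) (S : Finset V) : ℝ :=
  (∑ x ∈ S, ∑ y ∈ S, if x ≠ y ∧ c x y = a then (1:ℝ) else 0) / 2

lemma Gal.mono {c : V → V → ℕ} {S S' : Finset V} (h : Gal c S) (hs : S' ⊆ S) : Gal c S' :=
  fun x hx y hy z hz => h x (hs hx) y (hs hy) z (hs hz)

lemma Uses.mono {c : V → V → ℕ} {S S' : Finset V} {C : Finset ℕ} (h : Uses c S C) (hs : S' ⊆ S) :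
    Uses c S' C :=
  fun x hx y hy => h x (hs hx) y (hs hy)

lemma mm_nonneg (c : V → V → ℕ) (x y z : V) : 0 ≤ mm c x y z := by
  unfold mm; split_ifs <;> norm_num

lemma mm_swap12 {c : V → V → ℕ} (hc : Sym c) (x y z : V) : mm c y x z = mm c x y z := by
  unfold mm
  have h1 := hc x y
  have : ((y ≠ x ∧ x ≠ z ∧ y ≠ z) ∧ c y x = c x z ∧ c y z = c x z) ↔
      ((x ≠ y ∧ y ≠ z ∧ x ≠ z) ∧ c x y = c y z ∧ c x z = c y z) := by
    rw [← h1]
    constructor
    · rintro ⟨⟨h2, h3, h4⟩, h5, h6⟩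
      exact ⟨⟨h2.symm, h4, h3⟩, by rw [h5, h6], h6.symm⟩
    · rintro ⟨⟨h2, h3, h4⟩, h5, h6⟩
      exact ⟨⟨h2.symm, h4, h3⟩, by rw [h5, h6], h6.symm⟩
  simp only [this]

lemma mm_swap23 {c : V → V → ℕ} (hc : Sym c) (x y z : V) : mm c x z y = mm c x y z := by
  unfold mm
  have h1 := hc y z
  have : ((x ≠ z ∧ z ≠ y ∧ x ≠ y) ∧ c x z = c z y ∧ c x y = c z y) ↔
      ((x ≠ y ∧ y ≠ z ∧ x ≠ z) ∧ c x y = c y z ∧ c x z = c y z) := by
    rw [← h1]
    constructor
    · rintro ⟨⟨h2, h3, h4⟩, h5, h6⟩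
      exact ⟨⟨h4, h3.symm, h2⟩, h6, h5⟩
    · rintro ⟨⟨h2, h3, h4⟩, h5, h6⟩
      exact ⟨⟨h4, h3.symm, h2⟩, h6, h5⟩
  simp only [this]

lemma mm_self_left (c : V → V → ℕ) (x z : V) : mm c x x z = 0 := by
  unfold mm; simp

lemma mm_self_right (c : V → V → ℕ) (x z : V) : mm c x z z = 0 := by
  unfold mm; simp

lemma t3_nonneg (c : V → V → ℕ) (A B D : Finset V) : 0 ≤ t3 c A B D :=
  Finset.sum_nonneg fun _ _ => Finset.sum_nonneg fun _ _ => Finset.sum_nonneg fun _ _ =>
    mm_nonneg _ _ _ _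

lemma t3_mono (c : V → V → ℕ) {A B D A' B' D' : Finset V} (hA : A' ⊆ A) (hB : B' ⊆ B)
    (hD : D' ⊆ D) : t3 c A' B' D' ≤ t3 c A B D := by
  unfold t3
  refine (Finset.sum_le_sum fun x _ => ?_).trans
    (Finset.sum_le_sum_of_subset_of_nonneg hA fun _ _ _ => Finset.sum_nonneg fun _ _ =>
      Finset.sum_nonneg fun _ _ => mm_nonneg _ _ _ _)
  refine (Finset.sum_le_sum fun y _ => ?_).trans
    (Finset.sum_le_sum_of_subset_of_nonneg hB fun _ _ _ =>
      Finset.sum_nonneg fun _ _ => mm_nonneg _ _ _ _)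
  exact Finset.sum_le_sum_of_subset_of_nonneg hD fun _ _ _ => mm_nonneg _ _ _ _

lemma t3_swap12 {c : V → V → ℕ} (hc : Sym c) (A B D : Finset V) : t3 c B A D = t3 c A B D := by
  unfold t3
  rw [Finset.sum_comm]
  refine Finset.sum_congr rfl fun x _ => Finset.sum_congr rfl fun y _ => Finset.sum_congr rfl
    fun z _ => ?_
  exact mm_swap12 hc x y z

lemma t3_swap23 {c : V → V → ℕ} (hc : Sym c) (A B D : Finset V) : t3 c A D B = t3 c A B D := by
  unfold t3
  refine Finset.sum_congr rfl fun x _ => ?_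
  rw [Finset.sum_comm]
  refine Finset.sum_congr rfl fun y _ => Finset.sum_congr rfl fun z _ => ?_
  exact mm_swap23 hc x y z

lemma t3_union_left (c : V → V → ℕ) {A A' : Finset V} (h : Disjoint A A') (B D : Finset V) :
    t3 c (A ∪ A') B D = t3 c A B D + t3 c A' B D := by
  unfold t3; rw [Finset.sum_union h]

lemma t3_union_mid (c : V → V → ℕ) (A : Finset V) {B B' : Finset V} (h : Disjoint B B')
    (D : Finset V) : t3 c A (B ∪ B') D = t3 c A B D + t3 c A B' D := by
  unfold t3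
  simp only [Finset.sum_union h, Finset.sum_add_distrib]

lemma t3_union_right (c : V → V → ℕ) (A B : Finset V) {D D' : Finset V} (h : Disjoint D D') :
    t3 c A B (D ∪ D') = t3 c A B D + t3 c A B D' := by
  unfold t3
  simp only [Finset.sum_union h, Finset.sum_add_distrib]

lemma T_nonneg (c : V → V → ℕ) (S : Finset V) : 0 ≤ T c S := by
  unfold T; have := t3_nonneg c S S S; positivity

lemma ee_nonneg (c : V → V → ℕ) (a : ℕ) (S : Finset V) : 0 ≤ ee c a S := by
  unfold ee
  apply div_nonneg _ (by norm_num)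
  exact Finset.sum_nonneg fun _ _ => Finset.sum_nonneg fun _ _ => by split_ifs <;> norm_num

lemma T_union {c : V → V → ℕ} (hc : Sym c) {A B : Finset V} (h : Disjoint A B) :
    T c (A ∪ B) = T c A + T c B + t3 c A A B / 2 + t3 c B B A / 2 := by
  unfold T
  rw [t3_union_left c h, t3_union_mid c _ h, t3_union_mid c _ h, t3_union_right c _ _ h,
    t3_union_right c _ _ h, t3_union_right c _ _ h, t3_union_right c _ _ h]
  have h1 : t3 c A B A = t3 c A A B := t3_swap23 hc A A B
  have h2 : t3 c B A A = t3 c A A B := by rw [t3_swap12 hc A B A, h1]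
  have h3 : t3 c B A B = t3 c B B A := t3_swap23 hc B B A
  have h4 : t3 c A B B = t3 c B B A := by rw [t3_swap12 hc B A B, h3]
  rw [h1, h2, h3, h4]
  ring

/-- if all of `V` is joined to all of `W` in colour `a` -/
lemma t3_join {c : V → V → ℕ} {A W : Finset V} {a : ℕ} (hdis : Disjoint A W)
    (h : ∀ x ∈ A, ∀ z ∈ W, c x z = a) : t3 c A A W = W.card * (2 * ee c a A) := by
  unfold t3 ee
  have h1 : ∀ x ∈ A, ∀ y ∈ A, ∑ z ∈ W, mm c x y z =
      W.card * (if x ≠ y ∧ c x y = a then (1:ℝ) else 0) := by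
    intro x hx y hy
    rw [Finset.card_eq_sum_ones]
    push_cast
    rw [Finset.sum_mul]
    refine Finset.sum_congr rfl fun z hz => ?_
    have hxz : x ≠ z := fun e => (Finset.disjoint_left.mp hdis hx) (e ▸ hz)
    have hyz : y ≠ z := fun e => (Finset.disjoint_left.mp hdis hy) (e ▸ hz)
    unfold mm
    rw [h x hx z hz, h y hy z hz]
    simp [hxz, hyz]
  rw [Finset.sum_congr rfl fun x hx => Finset.sum_congr rfl fun y hy => h1 x hx y hy]
  rw [Finset.sum_congr rfl fun x _ => (Finset.mul_sum _ _ _).symm]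
  rw [← Finset.mul_sum]
  ring

/-- number of monochromatic triangles at `z` -/
noncomputable def Tz (c : V → V → ℕ) (S : Finset V) (z : V) : ℝ :=
  t3 c (S.erase z) (S.erase z) {z} / 2

lemma T_erase {c : V → V → ℕ} (hc : Sym c) {S : Finset V} {z : V} (hz : z ∈ S) :
    T c S = T c (S.erase z) + Tz c S z := by
  have h1 : S = (S.erase z) ∪ {z} := by
    ext x
    simp only [Finset.mem_union, Finset.mem_erase, Finset.mem_singleton]
    constructor
    · intro hx
      by_cases h : x = z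
      · right; exact h
      · left; exact ⟨h, hx⟩
    · rintro (h | rfl)
      · exact h.2
      · exact hz
  have hd : Disjoint (S.erase z) {z} := by simp
  conv_lhs => rw [h1]
  rw [T_union hc hd]
  have h2 : T c {z} = 0 := by
    unfold T t3
    simp [mm_self_left]
  have h3 : t3 c {z} {z} (S.erase z) = 0 := by
    unfold t3
    simp [mm_self_left]
  rw [h2, h3]
  unfold Tz
  ring

/-- `F1` -/
lemma ee_le_Tz {c : V → V → ℕ} {S A : Finset V} {z : V} {a : ℕ} (hA : A ⊆ S.erase z)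
    (h : ∀ x ∈ A, c x z = a) : ee c a A ≤ Tz c S z := by
  have hd : Disjoint A {z} := by
    rw [Finset.disjoint_singleton_right]
    intro hz
    have := hA hz
    simp at this
  have h1 := t3_join (c := c) (A := A) (W := {z}) (a := a) hd (by
    intro x hx w hw
    rw [Finset.mem_singleton] at hw
    rw [hw]; exact h x hx)
  unfold Tz
  have h2 := t3_mono c hA hA (Finset.Subset.refl {z})
  rw [h1] at h2
  simp at h2
  linarith

/-- `F5` for two parts -/
lemma T_join {c : V → V → ℕ} (hc : Sym c) {A B : Finset V} {a : ℕ} (hdis : Disjoint A B)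
    (h : ∀ x ∈ A, ∀ z ∈ B, c x z = a) :
    T c (A ∪ B) = (T c A + B.card * ee c a A) + (T c B + A.card * ee c a B) := by
  rw [T_union hc hdis, t3_join hdis h, t3_join hdis.symm (fun x hx z hz => by
    rw [hc x z]; exact h z hz x hx)]
  ring

/-- `F5` for three parts -/
lemma T_join3 {c : V → V → ℕ} (hc : Sym c) {A B D : Finset V} {a b : ℕ} (hAB : Disjoint A B)
    (hAD : Disjoint A D) (hBD : Disjoint B D)
    (h : ∀ x ∈ A, ∀ z ∈ B, c x z = a) (h' : ∀ x ∈ A, ∀ z ∈ D, c x z = b) :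
    (T c A + B.card * ee c a A + D.card * ee c b A) + (T c B + A.card * ee c a B)
      + (T c D + A.card * ee c b D) ≤ T c (A ∪ (B ∪ D)) := by
  have hd : Disjoint A (B ∪ D) := by
    rw [Finset.disjoint_union_right]; exact ⟨hAB, hAD⟩
  rw [T_union hc hd, T_union hc hBD]
  have h1 : t3 c A A (B ∪ D) = t3 c A A B + t3 c A A D := t3_union_right c A A hBD
  have h2 : t3 c B B A + t3 c D D A ≤ t3 c (B ∪ D) (B ∪ D) A := by
    rw [t3_union_left c hBD]
    exact add_le_add (t3_mono c (Finset.Subset.refl _) Finset.subset_union_left (Finset.Subset.refl _))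
      (t3_mono c (Finset.Subset.refl _) Finset.subset_union_right (Finset.Subset.refl _))
  rw [h1, t3_join hAB h, t3_join hAD h']
  rw [t3_join hAB.symm (fun x hx z hz => by rw [hc x z]; exact h z hz x hx),
    t3_join hAD.symm (fun x hx z hz => by rw [hc x z]; exact h' z hz x hx)] at h2
  have h3 := t3_nonneg c B B D
  have h4 := t3_nonneg c D D B
  linarith

lemma T_mono (c : V → V → ℕ) {S S' : Finset V} (h : S' ⊆ S) : T c S' ≤ T c S := by
  unfold T
  have := t3_mono c h h h
  linarith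

end Pool.Agent.Work.MP_f94239_co
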