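import Pool.Agent.Work.MP_f94239_co.Gal1

/-!
# Merging colours
-/

set_option autoImplicit false

namespace Pool.Agent.Work.MP_f94239_co

open Finset

variable {V : Type*}

/-- recolour the edges of colour `a` with colour `b` -/
def mrg (c : V → V → ℕ) (a b : ℕ) (x y : V) : ℕ := if c x y = a then b else c x y

lemma mrg_sym {c : V → V → ℕ} (hc : Sym c) (a b : ℕ) : Sym (mrg c a b) := by
  intro x y; unfold mrg; rw [hc x y]

lemma mrg_gal {c : V → V → ℕ} {S : Finset V} (h : Gal c S) (a b : ℕ) : Gal (mrg c a b) S := by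
  intro x hx y hy z hz h1 h2 h3
  unfold mrg
  rcases h x hx y hy z hz h1 h2 h3 with h | h | h
  · left; rw [h]
  · right; left; rw [h]
  · right; right; rw [h]

lemma mrg_uses {c : V → V → ℕ} {S : Finset V} {C D : Finset ℕ} {a b : ℕ} (h : Uses c S C)
    (hD : C.erase a ⊆ D) (hb : b ∈ D) : Uses (mrg c a b) S D := by
  intro x hx y hy hxy
  unfold mrg
  split_ifs with h1
  · exact hb
  · exact hD (Finset.mem_erase.mpr ⟨h1, h x hx y hy hxy⟩)

variable [DecidableEq V]

lemma sum_distinct (A : Finset V) {x y : V} (hx : x ∈ A) (hy : y ∈ A) (hxy : x ≠ y) :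
    ∑ z ∈ A, (if y ≠ z ∧ x ≠ z then (1:ℝ) else 0) = A.card - 2 := by
  rw [← Finset.sum_filter, Finset.sum_const, nsmul_eq_mul, mul_one]
  have h1 : A.filter (fun z => y ≠ z ∧ x ≠ z) = (A.erase x).erase y := by
    ext z
    simp only [Finset.mem_filter, Finset.mem_erase]
    constructor
    · rintro ⟨h1, h2, h3⟩; exact ⟨h2.symm, h3.symm, h1⟩
    · rintro ⟨h1, h2, h3⟩; exact ⟨h3, h1.symm, h2.symm⟩
  rw [h1]
  have h2 : y ∈ A.erase x := Finset.mem_erase.mpr ⟨hxy.symm, hy⟩
  have h3 := Finset.card_erase_add_one h2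
  have h4 := Finset.card_erase_add_one hx
  have h5 : ((A.erase x).erase y).card + 2 = A.card := by omega
  have h6 : ((((A.erase x).erase y).card : ℝ)) + 2 = A.card := by exact_mod_cast h5
  linarith

/-- `[x,y,z distinct and c x y = a]` -/
noncomputable def ia (c : V → V → ℕ) (a : ℕ) (x y z : V) : ℝ :=
  if (x ≠ y ∧ y ≠ z ∧ x ≠ z) ∧ c x y = a then 1 else 0

lemma sum_ia (c : V → V → ℕ) (a : ℕ) (A : Finset V) :
    ∑ x ∈ A, ∑ y ∈ A, ∑ z ∈ A, ia c a x y z = (A.card - 2) * (2 * ee c a A) := by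
  unfold ee
  have h1 : ∀ x ∈ A, ∀ y ∈ A, ∑ z ∈ A, ia c a x y z =
      (A.card - 2) * (if x ≠ y ∧ c x y = a then (1:ℝ) else 0) := by
    intro x hx y hy
    by_cases hxy : x ≠ y ∧ c x y = a
    · rw [if_pos hxy, mul_one, ← sum_distinct A hx hy hxy.1]
      refine Finset.sum_congr rfl fun z _ => ?_
      unfold ia
      simp [hxy.1, hxy.2]
    · rw [if_neg hxy, mul_zero]
      refine Finset.sum_eq_zero fun z _ => ?_
      unfold ia
      rw [if_neg]
      rintro ⟨⟨h1, _, _⟩, h2⟩
      exact hxy ⟨h1, h2⟩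
  rw [Finset.sum_congr rfl fun x hx => Finset.sum_congr rfl fun y hy => h1 x hx y hy]
  rw [Finset.sum_congr rfl fun x _ => (Finset.mul_sum _ _ _).symm]
  rw [← Finset.mul_sum]
  ring

lemma sum_ite_le_one (D : Finset ℕ) (e : ℕ) : ∑ b ∈ D, (if e = b then (1:ℝ) else 0) ≤ 1 := by
  rw [Finset.sum_ite_eq]
  split_ifs <;> norm_num

lemma merge_pointwise {c : V → V → ℕ} (hc : Sym c) (D : Finset ℕ) (a : ℕ) (x y z : V) :
    ∑ b ∈ D, (mm (mrg c a b) x y z - mm c x y z) ≤ ia c a x y z + ia c a y z x + ia c a x z y := by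
  by_cases hd : x ≠ y ∧ y ≠ z ∧ x ≠ z
  · have hd2 : y ≠ z ∧ z ≠ x ∧ y ≠ x := ⟨hd.2.1, hd.2.2.symm, hd.1.symm⟩
    have hd3 : x ≠ z ∧ z ≠ y ∧ x ≠ y := ⟨hd.2.2, hd.2.1.symm, hd.1⟩
    unfold ia mm mrg
    simp only [hd, hd2, hd3, true_and, ne_eq, not_false_eq_true]
    by_cases hp : c x y = a <;> by_cases hq : c y z = a <;> by_cases hr : c x z = a
    · simp only [hp, hq, hr, if_true]
      simp
      norm_num
    · simp only [hp, hq, hr, if_true, if_false, and_false, sub_zero, true_and]
      exact (sum_ite_le_one D (c x z)).trans (by norm_num)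
    · have h1 : a ≠ c y z := fun h => hq h.symm
      simp only [hp, hq, hr, if_true, if_false, and_self, h1, sub_zero]
      refine (Finset.sum_le_sum (g := fun b => if c y z = b then (1:ℝ) else 0) fun b _ => ?_).trans
        ((sum_ite_le_one D (c y z)).trans (by norm_num))
      by_cases h : b = c y z
      · simp [h]
      · have h' : ¬ c y z = b := fun e => h e.symm
        simp [h, h']
    · have h1 : a ≠ c y z := fun h => hq h.symm
      simp only [hp, hq, hr, if_true, if_false, h1, false_and, sub_zero]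
      refine (Finset.sum_le_sum (g := fun b => if c y z = b then (1:ℝ) else 0) fun b _ => ?_).trans
        ((sum_ite_le_one D (c y z)).trans (by norm_num))
      by_cases h : b = c y z
      · simp only [h, true_and, if_true]
        split_ifs <;> norm_num
      · have h' : ¬ c y z = b := fun e => h e.symm
        simp [h, h']
    · simp only [hp, hq, hr, if_true, if_false, sub_zero, and_true]
      exact (sum_ite_le_one D (c x y)).trans (by norm_num)
    · simp only [hp, hq, hr, if_true, if_false, false_and, sub_zero]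
      refine (Finset.sum_le_sum (g := fun b => if c x y = b then (1:ℝ) else 0) fun b _ => ?_).trans
        ((sum_ite_le_one D (c x y)).trans (by norm_num))
      by_cases h : c x y = b
      · simp only [h, true_and, if_true]
        split_ifs <;> norm_num
      · simp [h]
    · have h1 : a ≠ c y z := fun h => hq h.symm
      simp only [hp, hq, hr, if_true, if_false, h1, and_false, sub_zero]
      refine (Finset.sum_le_sum (g := fun b => if c x y = b then (1:ℝ) else 0) fun b _ => ?_).trans
        ((sum_ite_le_one D (c x y)).trans (by norm_num))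
      by_cases h : c x y = b
      · simp only [h, if_true]
        split_ifs <;> norm_num
      · have : ¬ (c x y = c y z ∧ b = c y z) := by
          rintro ⟨e1, e2⟩
          exact h (e1.trans e2.symm)
        simp [h, this]
    · simp only [hp, hq, hr, if_false, sub_self, Finset.sum_const_zero]
      norm_num
  · have h1 : ∀ c' : V → V → ℕ, mm c' x y z = 0 := by
      intro c'; unfold mm; rw [if_neg]; exact fun h => hd h.1
    simp only [h1, sub_zero, Finset.sum_const_zero]
    have : ∀ x y z, 0 ≤ ia c a x y z := by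
      intro x y z; unfold ia; split_ifs <;> norm_num
    have h2 := this x y z
    have h3 := this y z x
    have h4 := this x z y
    linarith

/-- merging `a` into the best colour of `D` -/
lemma merge_one {c : V → V → ℕ} (hc : Sym c) (A : Finset V) {D : Finset ℕ} (hD : D.Nonempty)
    (a : ℕ) : ∃ b ∈ D, T (mrg c a b) A ≤ T c A + ee c a A * ((A.card - 2) / D.card) := by
  have hDc : (0:ℝ) < D.card := by exact_mod_cast hD.card_pos
  have h1 : ∑ b ∈ D, (t3 (mrg c a b) A A A - t3 c A A A) ≤ 3 * ((A.card - 2) * (2 * ee c a A)) := by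
    have e1 : ∑ b ∈ D, (t3 (mrg c a b) A A A - t3 c A A A) =
        ∑ x ∈ A, ∑ y ∈ A, ∑ z ∈ A, ∑ b ∈ D, (mm (mrg c a b) x y z - mm c x y z) := by
      unfold t3
      simp only [← Finset.sum_sub_distrib]
      rw [Finset.sum_comm]
      refine Finset.sum_congr rfl fun x _ => ?_
      rw [Finset.sum_comm]
      refine Finset.sum_congr rfl fun y _ => ?_
      rw [Finset.sum_comm]
    rw [e1]
    refine (Finset.sum_le_sum fun x _ => Finset.sum_le_sum fun y _ => Finset.sum_le_sum fun z _ =>
      merge_pointwise hc D a x y z).trans ?_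
    simp only [Finset.sum_add_distrib]
    have s1 := sum_ia c a A
    have s2 : ∑ x ∈ A, ∑ y ∈ A, ∑ z ∈ A, ia c a y z x = ∑ x ∈ A, ∑ y ∈ A, ∑ z ∈ A, ia c a x y z := by
      rw [Finset.sum_comm]
      refine Finset.sum_congr rfl fun y _ => ?_
      rw [Finset.sum_comm]
    have s3 : ∑ x ∈ A, ∑ y ∈ A, ∑ z ∈ A, ia c a x z y = ∑ x ∈ A, ∑ y ∈ A, ∑ z ∈ A, ia c a x y z := by
      refine Finset.sum_congr rfl fun x _ => ?_
      rw [Finset.sum_comm]
    rw [s2, s3, s1]
    linarith
  have h2 : ∑ b ∈ D, (T (mrg c a b) A - T c A) ≤ ∑ b ∈ D, ee c a A * ((A.card - 2) / D.card) := by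
    rw [Finset.sum_const, nsmul_eq_mul]
    have e1 : (D.card : ℝ) * (ee c a A * ((A.card - 2) / D.card)) = ee c a A * (A.card - 2) := by
      field_simp
    rw [e1]
    have e2 : ∑ b ∈ D, (T (mrg c a b) A - T c A) = (∑ b ∈ D, (t3 (mrg c a b) A A A - t3 c A A A)) / 6 := by
      rw [Finset.sum_div]
      refine Finset.sum_congr rfl fun b _ => ?_
      unfold T; ring
    rw [e2]
    linarith
  obtain ⟨b, hb, hb2⟩ := Finset.exists_le_of_sum_le hD h2
  exact ⟨b, hb, by linarith⟩

lemma ee_mrg {c : V → V → ℕ} {A : Finset V} {a b e : ℕ} (h1 : e ≠ a) (h2 : e ≠ b) :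
    ee (mrg c a b) e A = ee c e A := by
  unfold ee mrg
  congr 1
  refine Finset.sum_congr rfl fun x _ => Finset.sum_congr rfl fun y _ => ?_
  by_cases h : c x y = a
  · simp [h, h1.symm, h2.symm]
  · simp [h]

/-- merging both `a` and `b` into colours of `D` -/
lemma merge_two {c : V → V → ℕ} (hc : Sym c) {A : Finset V} {C : Finset ℕ} (hg : Gal c A)
    (hu : Uses c A C) {a b : ℕ} (hab : a ≠ b)
    (hD : ((C.erase a).erase b).Nonempty) :
    ∃ c', Sym c' ∧ Gal c' A ∧ Uses c' A ((C.erase a).erase b) ∧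
      T c' A ≤ T c A + (ee c a A + ee c b A) * ((A.card - 2) / ((C.erase a).erase b).card) := by
  set D := (C.erase a).erase b with hDdef
  obtain ⟨d, hd, h1⟩ := merge_one hc A hD a
  obtain ⟨d', hd', h2⟩ := merge_one (mrg_sym hc a d) A hD b
  have hdb : b ≠ d := by
    intro h
    rw [← h] at hd
    simp [hDdef] at hd
  rw [ee_mrg hab.symm hdb] at h2
  refine ⟨mrg (mrg c a d) b d', mrg_sym (mrg_sym hc a d) b d', mrg_gal (mrg_gal hg a d) b d', ?_, ?_⟩
  · have h3 : Uses (mrg c a d) A (C.erase a) :=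
      mrg_uses hu (Finset.Subset.refl _) (Finset.mem_of_mem_erase hd)
    exact mrg_uses h3 (Finset.Subset.refl _) hd'
  · linarith

end Pool.Agent.Work.MP_f94239_co
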