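import Pool.Agent.Work.MP_f94239_co.Gal2

/-!
# Gallai's partition theorem
-/

set_option autoImplicit false

namespace Pool.Agent.Work.MP_f94239_co

open Finset Relation

variable {V : Type*} [DecidableEq V]

/-- adjacency in colour `p` inside `S` -/
def Adj (c : V → V → ℕ) (p : ℕ) (S : Finset V) (x y : V) : Prop :=
  x ∈ S ∧ y ∈ S ∧ x ≠ y ∧ c x y = p

/-- reachability in colour `p` inside `S` -/
def Rch (c : V → V → ℕ) (p : ℕ) (S : Finset V) : V → V → Prop := ReflTransGen (Adj c p S)

omit [DecidableEq V] in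
lemma Rch.symm {c : V → V → ℕ} (hc : Sym c) {p : ℕ} {S : Finset V} {x y : V}
    (h : Rch c p S x y) : Rch c p S y x := by
  have hs : ∀ x y, Adj c p S x y → Adj c p S y x := fun x y h =>
    ⟨h.2.1, h.1, h.2.2.1.symm, by rw [hc y x]; exact h.2.2.2⟩
  unfold Rch at h ⊢
  induction h with
  | refl => exact ReflTransGen.refl
  | tail _ h2 ih => exact ReflTransGen.head (hs _ _ h2) ih

omit [DecidableEq V] in
lemma Rch.trans {c : V → V → ℕ} {p : ℕ} {S : Finset V} {x y z : V}
    (h : Rch c p S x y) (h' : Rch c p S y z) : Rch c p S x z := ReflTransGen.trans h h'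

omit [DecidableEq V] in
lemma Rch.mem {c : V → V → ℕ} {p : ℕ} {S : Finset V} {x y : V} (hx : x ∈ S)
    (h : Rch c p S x y) : y ∈ S := by
  unfold Rch at h
  induction h with
  | refl => exact hx
  | tail _ h2 _ => exact h2.2.1

omit [DecidableEq V] in
/-- if `y` is not in the class of `x`, then the edge `xy` does not have colour `p` -/
lemma ne_of_not_rch {c : V → V → ℕ} {p : ℕ} {S : Finset V} {x y : V} (hx : x ∈ S) (hy : y ∈ S)
    (h : ¬ Rch c p S x y) : x ≠ y ∧ c x y ≠ p := by
  constructor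
  · rintro rfl; exact h ReflTransGen.refl
  · intro e
    by_cases hxy : x = y
    · rw [hxy] at h; exact h ReflTransGen.refl
    · exact h (ReflTransGen.single ⟨hx, hy, hxy, e⟩)

omit [DecidableEq V] in
/-- homogeneity of the classes -/
lemma rch_homog {c : V → V → ℕ} (hc : Sym c) {p : ℕ} {S : Finset V} (hg : Gal c S) {x x' y : V}
    (hx : x ∈ S) (hy : y ∈ S) (h : ¬ Rch c p S x y) (hxx : Rch c p S x x') : c x' y = c x y := by
  unfold Rch at hxx
  induction hxx with
  | refl => rfl
  | @tail u w h1 h2 ih =>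
    rw [← ih]
    -- triangle `u w y`
    obtain ⟨hu, hw, huw, hcol⟩ := h2
    have hxu : Rch c p S x u := h1
    have hxw : Rch c p S x w := h1.tail ⟨hu, hw, huw, hcol⟩
    have hnu : ¬ Rch c p S u y := fun e => h (hxu.trans e)
    have hnw : ¬ Rch c p S w y := fun e => h (hxw.trans e)
    obtain ⟨n1, n2⟩ := ne_of_not_rch hu hy hnu
    obtain ⟨n3, n4⟩ := ne_of_not_rch hw hy hnw
    rcases hg u hu w hw y hy huw n3 n1 with h5 | h5 | h5
    · rw [hcol] at h5; exact absurd h5.symm n4
    · exact h5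
    · rw [hcol] at h5; exact absurd h5.symm n2

/-- if colour `p` connects `S`, every vertex of `S - v` reaches a `p`-neighbour of `v` in `S - v` -/
lemma exists_nbr {c : V → V → ℕ} {p : ℕ} {S : Finset V} {v z : V} (hz : z ∈ S.erase v)
    (h : Rch c p S z v) : ∃ z', Rch c p (S.erase v) z z' ∧ z' ∈ S.erase v ∧ c z' v = p := by
  unfold Rch at h
  induction h using ReflTransGen.head_induction_on with
  | refl => simp at hz
  | @head u w h1 h2 ih =>
    obtain ⟨hu, hw, huw, hcol⟩ := h1
    by_cases hwv : w = v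
    · subst hwv
      exact ⟨u, ReflTransGen.refl, hz, hcol⟩
    · have hw' : w ∈ S.erase v := Finset.mem_erase.mpr ⟨hwv, hw⟩
      obtain ⟨z', h3, h4, h5⟩ := ih hw'
      exact ⟨z', ReflTransGen.head ⟨hz, hw', huw, hcol⟩ h3, h4, h5⟩

/-- colour `p` is connected on `S` -/
def Conn (c : V → V → ℕ) (p : ℕ) (S : Finset V) : Prop := ∀ x ∈ S, ∀ y ∈ S, Rch c p S x y

omit [DecidableEq V] in
lemma exists_edge {c : V → V → ℕ} {p : ℕ} {S : Finset V} {v x : V} (hv : v ∈ S) (hx : x ∈ S)
    (hxv : x ≠ v) (h : Conn c p S) : ∃ w ∈ S, w ≠ v ∧ c v w = p := by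
  have h1 := h v hv x hx
  unfold Rch at h1
  rcases ReflTransGen.cases_head h1 with h2 | ⟨w, h2, _⟩
  · exact absurd h2.symm hxv
  · exact ⟨w, h2.2.1, h2.2.2.1.symm, h2.2.2.2⟩

lemma conn_erase {c : V → V → ℕ} (hc : Sym c) {p q r : ℕ} (hpq : p ≠ q) (hpr : p ≠ r)
    (hqr : q ≠ r) {S : Finset V} (hg : Gal c S) {v x0 : V} (hv : v ∈ S) (hx0 : x0 ∈ S)
    (hxv : x0 ≠ v) (hp : Conn c p S) (hq : Conn c q S) (hr : Conn c r S) :
    Conn c p (S.erase v) := by
  intro x hx y hy
  by_contra hxy
  set S' := S.erase v with hS'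
  have hsub : S' ⊆ S := Finset.erase_subset _ _
  have hg' : Gal c S' := hg.mono hsub
  -- general fact
  have key : ∀ q', q' ≠ p → ∀ w ∈ S', c v w = q' → ∀ z ∈ S', ¬ Rch c p S' w z → c w z = q' := by
    intro q' hq' w hw hvw z hz hnz
    obtain ⟨z', h1, h2, h3⟩ := exists_nbr (c := c) (p := p) (S := S) hz (hp z (hsub hz) v hv)
    have h4 : ¬ Rch c p S' w z' := fun e => hnz (e.trans (Rch.symm hc h1))
    obtain ⟨n1, n2⟩ := ne_of_not_rch hw h2 h4
    have hz'v : z' ≠ v := (Finset.mem_erase.mp h2).1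
    have hwv : w ≠ v := (Finset.mem_erase.mp hw).1
    have h5 : c w z' = q' := by
      rcases hg v hv w (hsub hw) z' (hsub h2) hwv.symm n1 hz'v.symm with h | h | h
      · rw [← h]; exact hvw
      · rw [hc v z', h3] at h; exact absurd h n2
      · rw [hc v z', h3, hvw] at h; exact absurd h hq'
    have h6 : ¬ Rch c p S' z' w := fun e => h4 (Rch.symm hc e)
    have h7 := rch_homog hc hg' h2 hw h6 (Rch.symm hc h1)
    rw [hc w z, h7, hc z' w]
    exact h5
  obtain ⟨w, hw, hwv, hcw⟩ := exists_edge hv hx0 hxv hq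
  obtain ⟨w', hw', hwv', hcw'⟩ := exists_edge hv hx0 hxv hr
  have hwS : w ∈ S' := Finset.mem_erase.mpr ⟨hwv, hw⟩
  have hwS' : w' ∈ S' := Finset.mem_erase.mpr ⟨hwv', hw'⟩
  have k1 := key q hpq.symm w hwS hcw
  have k2 := key r hpr.symm w' hwS' hcw'
  by_cases hww : Rch c p S' w w'
  · obtain ⟨z, hz, hnz⟩ : ∃ z ∈ S', ¬ Rch c p S' w z := by
      by_contra hcon
      push Not at hcon
      exact hxy ((Rch.symm hc (hcon x hx)).trans (hcon y hy))
    have h1 := k1 z hz hnz
    have h2 := k2 z hz (fun e => hnz (hww.trans e))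
    have h3 := rch_homog hc hg' hwS hz hnz hww
    rw [h1, h2] at h3
    exact hqr h3.symm
  · have h1 := k1 w' hwS' hww
    have h2 := k2 w hwS (fun e => hww (Rch.symm hc e))
    rw [hc w' w, h1] at h2
    exact hqr h2

/-- no three colours are connected at the same time -/
lemma not_three_conn {c : V → V → ℕ} (hc : Sym c) {p q r : ℕ} (hpq : p ≠ q) (hpr : p ≠ r)
    (hqr : q ≠ r) : ∀ n : ℕ, ∀ S : Finset V, S.card = n → 2 ≤ n → Gal c S →
    Conn c p S → Conn c q S → Conn c r S → False := by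
  intro n
  induction n with
  | zero => intro S _ h; omega
  | succ n ih =>
    intro S hS hn hg hp hq hr
    have h1 : 1 < S.card := by omega
    obtain ⟨v, hv, x0, hx0, hvx⟩ := Finset.one_lt_card.mp h1
    have hp' := conn_erase hc hpq hpr hqr hg hv hx0 hvx.symm hp hq hr
    have hq' := conn_erase hc hpq.symm hqr hpr hg hv hx0 hvx.symm hq hp hr
    have hr' := conn_erase hc hpr.symm hqr.symm hpq hg hv hx0 hvx.symm hr hp hq
    have hcard : (S.erase v).card = n := by rw [Finset.card_erase_of_mem hv]; omega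
    -- three different neighbours
    obtain ⟨w1, h1, h1', h1''⟩ := exists_edge hv hx0 hvx.symm hp
    obtain ⟨w2, h2, h2', h2''⟩ := exists_edge hv hx0 hvx.symm hq
    have h12 : w1 ≠ w2 := by rintro rfl; exact hpq (h1''.symm.trans h2'')
    have hn2 : 2 ≤ n := by
      rw [← hcard]
      have : ({w1, w2} : Finset V) ⊆ S.erase v := by
        intro x hx
        simp only [Finset.mem_insert, Finset.mem_singleton] at hx
        rcases hx with rfl | rfl
        · exact Finset.mem_erase.mpr ⟨h1', h1⟩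
        · exact Finset.mem_erase.mpr ⟨h2', h2⟩
      have h3 := Finset.card_le_card this
      rwa [Finset.card_pair h12] at h3
    exact ih _ hcard hn2 (hg.mono (Finset.erase_subset _ _)) hp' hq' hr'

/-- Gallai's theorem -/
theorem gallai_partition {c : V → V → ℕ} (hc : Sym c) {C : Finset ℕ} (hC : 2 ≤ C.card) :
    ∀ n : ℕ, ∀ S : Finset V, S.card = n → 2 ≤ n → Gal c S → Uses c S C →
    ∃ a ∈ C, ∃ b ∈ C, a ≠ b ∧ ∃ π : V → V, (∃ x ∈ S, ∃ y ∈ S, π x ≠ π y) ∧
      (∀ x ∈ S, ∀ y ∈ S, π x ≠ π y → c x y = a ∨ c x y = b) ∧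
      (∀ x ∈ S, ∀ x' ∈ S, ∀ y ∈ S, π x = π x' → π x ≠ π y → c x y = c x' y) := by
  classical
  intro n
  induction n using Nat.strong_induction_on with
  | _ n ih =>
  intro S hS hn hg hu
  by_cases hcase : ∃ x0 ∈ S, ∃ y0 ∈ S, x0 ≠ y0 ∧ ¬ Conn c (c x0 y0) S
  · obtain ⟨x0, hx0, y0, hy0, hxy0, hnc⟩ := hcase
    set p := c x0 y0 with hp
    -- the representative map
    let ρ : V → V := fun x => if Rch c p S x0 x then x0 else x
    have hρS : ∀ x ∈ S, ρ x ∈ S := by
      intro x hx
      simp only [ρ]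
      split_ifs
      · exact hx0
      · exact hx
    have hρ : ∀ x ∈ S, ∀ y ∈ S, ρ x ≠ ρ y → c x y = c (ρ x) (ρ y) := by
      intro x hx y hy hxy
      simp only [ρ] at hxy ⊢
      by_cases h1 : Rch c p S x0 x <;> by_cases h2 : Rch c p S x0 y
      · simp [h1, h2] at hxy
      · simp only [h1, h2, if_true, if_false]
        exact rch_homog hc hg hx0 hy h2 h1
      · simp only [h1, h2, if_true, if_false]
        rw [hc x y, hc x x0]
        exact rch_homog hc hg hx0 hx h1 h2
      · simp only [h1, h2, if_false]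
    have hne : ∀ x ∈ S, ∀ y ∈ S, ρ x ≠ ρ y → x ≠ y := by
      intro x _ y _ h e; exact h (by rw [e])
    set S' := S.image ρ with hS'
    have hsub : S' ⊆ S := by
      intro x hx
      obtain ⟨y, hy, rfl⟩ := Finset.mem_image.mp hx
      exact hρS y hy
    have hρρ : ∀ x ∈ S', ρ x = x := by
      intro x hx
      obtain ⟨y, hy, rfl⟩ := Finset.mem_image.mp hx
      simp only [ρ]
      by_cases h1 : Rch c p S x0 y
      · simp only [h1, if_true, ite_self]
      · simp only [h1, if_false]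
    have hxρ : ρ x0 = x0 := by
      simp only [ρ, ite_self]
    have hyρ : ρ y0 = x0 := by
      have : Rch c p S x0 y0 := ReflTransGen.single ⟨hx0, hy0, hxy0, rfl⟩
      simp only [ρ, this, if_true]
    have hy0' : y0 ∉ S' := by
      intro h
      have := hρρ y0 h
      rw [hyρ] at this
      exact hxy0 this
    have hlt : S'.card < S.card := by
      apply Finset.card_lt_card
      rw [Finset.ssubset_iff_of_subset hsub]
      exact ⟨y0, hy0, hy0'⟩
    obtain ⟨z, hz, hnz⟩ : ∃ z ∈ S, ¬ Rch c p S x0 z := by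
      by_contra hcon
      push Not at hcon
      apply hnc
      intro x hx y hy
      exact (Rch.symm hc (hcon x hx)).trans (hcon y hy)
    have hρz : ρ z = z := by simp only [ρ, hnz, if_false]
    have hx0z : x0 ≠ z := by rintro rfl; exact hnz ReflTransGen.refl
    have h2 : 2 ≤ S'.card := by
      have : ({x0, z} : Finset V) ⊆ S' := by
        intro x hx
        simp only [Finset.mem_insert, Finset.mem_singleton] at hx
        rcases hx with rfl | rfl
        · exact Finset.mem_image.mpr ⟨x, hx0, hxρ⟩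
        · exact Finset.mem_image.mpr ⟨x, hz, hρz⟩
      have h3 := Finset.card_le_card this
      rwa [Finset.card_pair hx0z] at h3
    obtain ⟨a, ha, b, hb, hab, π, ⟨u, hu1, w, hw1, huw⟩, h3, h4⟩ :=
      ih S'.card (by omega) S' rfl h2 (hg.mono hsub) (hu.mono hsub)
    have hmem : ∀ x ∈ S, ρ x ∈ S' := fun x hx => Finset.mem_image_of_mem _ hx
    refine ⟨a, ha, b, hb, hab, fun x => π (ρ x), ⟨u, hsub hu1, w, hsub hw1, ?_⟩, ?_, ?_⟩
    · simp only [hρρ u hu1, hρρ w hw1]; exact huw
    · intro x hx y hy hxy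
      rw [hρ x hx y hy (fun e => hxy (by simp only [e]))]
      exact h3 _ (hmem x hx) _ (hmem y hy) hxy
    · intro x hx x' hx' y hy hxx hxy
      simp only at hxx hxy
      rw [hρ x hx y hy (fun e => hxy (by simp only [e])),
        hρ x' hx' y hy (fun e => hxy (by rw [hxx, e]))]
      exact h4 _ (hmem x hx) _ (hmem x' hx') _ (hmem y hy) hxx hxy
  · push Not at hcase
    -- all used colours are connected: at most two of them
    set U : Finset ℕ := ((S ×ˢ S).filter (fun p => p.1 ≠ p.2)).image (fun p => c p.1 p.2) with hU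
    have hUmem : ∀ x ∈ S, ∀ y ∈ S, x ≠ y → c x y ∈ U := by
      intro x hx y hy hxy
      exact Finset.mem_image.mpr ⟨(x, y), by simp [hx, hy, hxy], rfl⟩
    have hUC : U ⊆ C := by
      intro e he
      obtain ⟨⟨x, y⟩, hxy, rfl⟩ := Finset.mem_image.mp he
      simp only [Finset.mem_filter, Finset.mem_product] at hxy
      exact hu x hxy.1.1 y hxy.1.2 hxy.2
    have hUconn : ∀ e ∈ U, Conn c e S := by
      intro e he
      obtain ⟨⟨x, y⟩, hxy, rfl⟩ := Finset.mem_image.mp he
      simp only [Finset.mem_filter, Finset.mem_product] at hxy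
      exact hcase x hxy.1.1 y hxy.1.2 hxy.2
    have hU2 : U.card ≤ 2 := by
      by_contra hcon
      push Not at hcon
      obtain ⟨p, hp, q, hq, r, hr, h1, h2, h3⟩ := Finset.two_lt_card.mp hcon
      exact not_three_conn hc h1 h2 h3 n S hS hn hg (hUconn p hp) (hUconn q hq) (hUconn r hr)
    obtain ⟨W, hW1, hW2, hW3⟩ := Finset.exists_subsuperset_card_eq hUC hU2 hC
    obtain ⟨a, b, hab, hW⟩ := Finset.card_eq_two.mp hW3
    have ha : a ∈ C := hW2 (by rw [hW]; simp)
    have hb : b ∈ C := hW2 (by rw [hW]; simp)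
    have h1 : 1 < S.card := by omega
    obtain ⟨v, hv, x0, hx0, hvx⟩ := Finset.one_lt_card.mp h1
    refine ⟨a, ha, b, hb, hab, id, ⟨v, hv, x0, hx0, hvx⟩, ?_, ?_⟩
    · intro x hx y hy hxy
      have := hW1 (hUmem x hx y hy hxy)
      rw [hW] at this
      simpa using this
    · intro x hx x' hx' y hy hxx _
      simp only [id] at hxx
      rw [hxx]

end Pool.Agent.Work.MP_f94239_co
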