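import Pool.Agent.Work.MP_f94239_co.Gal2

/-!
# Decomposition along a partition and the Goodman identity
-/

set_option autoImplicit false

namespace Pool.Agent.Work.MP_f94239_co

open Finset

variable {V : Type*} [DecidableEq V] {I : Type*} [DecidableEq I]

/-- monochromatic ordered triangles with vertices in three different blocks -/
noncomputable def t3d (c : V → V → ℕ) (π : V → I) (S : Finset V) : ℝ :=
  ∑ x ∈ S, ∑ y ∈ S, ∑ z ∈ S, if π x ≠ π y ∧ π y ≠ π z ∧ π x ≠ π z then mm c x y z else 0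

lemma t3d_nonneg (c : V → V → ℕ) (π : V → I) (S : Finset V) : 0 ≤ t3d c π S :=
  Finset.sum_nonneg fun _ _ => Finset.sum_nonneg fun _ _ => Finset.sum_nonneg fun _ _ => by
    split_ifs
    · exact mm_nonneg _ _ _ _
    · exact le_rfl

lemma t3d_mono (c : V → V → ℕ) (π : V → I) {S S' : Finset V} (h : S' ⊆ S) :
    t3d c π S' ≤ t3d c π S := by
  have h0 : ∀ x y z : V, 0 ≤ (if π x ≠ π y ∧ π y ≠ π z ∧ π x ≠ π z then mm c x y z else 0) := by
    intro x y z
    split_ifs
    · exact mm_nonneg _ _ _ _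
    · exact le_rfl
  unfold t3d
  refine (Finset.sum_le_sum fun x _ => ?_).trans
    (Finset.sum_le_sum_of_subset_of_nonneg h fun _ _ _ => Finset.sum_nonneg fun _ _ =>
      Finset.sum_nonneg fun _ _ => h0 _ _ _)
  refine (Finset.sum_le_sum fun y _ => ?_).trans
    (Finset.sum_le_sum_of_subset_of_nonneg h fun _ _ _ =>
      Finset.sum_nonneg fun _ _ => h0 _ _ _)
  exact Finset.sum_le_sum_of_subset_of_nonneg h fun _ _ _ => h0 _ _ _

/-- a block -/
def blk (π : V → I) (S : Finset V) (i : I) : Finset V := S.filter (fun x => π x = i)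

/-- the complement of a block -/
def cblk (π : V → I) (S : Finset V) (i : I) : Finset V := S.filter (fun x => π x ≠ i)

omit [DecidableEq V] in
lemma sum_blocks (π : V → I) (S : Finset V) (f : V → ℝ) :
    ∑ x ∈ S, f x = ∑ i ∈ S.image π, ∑ x ∈ blk π S i, f x :=
  (Finset.sum_fiberwise_of_maps_to (fun x hx => Finset.mem_image_of_mem π hx) f).symm

/-- decomposition along a partition -/
lemma T_decomp {c : V → V → ℕ} (hc : Sym c) (π : V → I) (S : Finset V) :
    T c S = ∑ i ∈ S.image π, T c (blk π S i) +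
      (∑ i ∈ S.image π, t3 c (blk π S i) (blk π S i) (cblk π S i)) / 2 + t3d c π S / 6 := by
  let G : V → V → V → ℝ := fun x y z => if π x = π y ∧ π y ≠ π z then mm c x y z else 0
  let E : V → V → V → ℝ := fun x y z => if π x = π y ∧ π y = π z then mm c x y z else 0
  have h1 : t3 c S S S = ∑ x ∈ S, ∑ y ∈ S, ∑ z ∈ S, (E x y z + G x y z + G x z y + G y z x +
      (if π x ≠ π y ∧ π y ≠ π z ∧ π x ≠ π z then mm c x y z else 0)) := by
    unfold t3
    refine Finset.sum_congr rfl fun x _ => Finset.sum_congr rfl fun y _ => Finset.sum_congr rfl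
      fun z _ => ?_
    simp only [E, G]
    have e1 : mm c x z y = mm c x y z := mm_swap23 hc x y z
    have e2 : mm c y z x = mm c x y z := by
      rw [mm_swap23 hc y x z, mm_swap12 hc x y z]
    rw [e1, e2]
    by_cases p1 : π x = π y <;> by_cases p2 : π y = π z
    · have p3 : π x = π z := p1.trans p2
      simp [p1, p2]
    · have p3 : π x ≠ π z := fun e => p2 (p1.symm.trans e)
      have p4 : π z ≠ π y := fun e => p2 e.symm
      simp [p1, p2]
    · have p3 : π x ≠ π z := fun e => p1 (e.trans p2.symm)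
      have p4 : π z ≠ π x := fun e => p3 e.symm
      have p5 : π y ≠ π x := fun e => p1 e.symm
      have p6 : π x ≠ π y := p1
      rw [if_neg (by tauto), if_neg (by tauto), if_neg (by tauto), if_pos (by tauto),
        if_neg (by tauto)]
      ring
    · by_cases p3 : π x = π z
      · have p4 : π z ≠ π y := fun e => p2 e.symm
        rw [if_neg (by tauto), if_neg (by tauto), if_pos (by tauto), if_neg (by tauto),
          if_neg (by tauto)]
        ring
      · rw [if_neg (by tauto), if_neg (by tauto), if_neg (by tauto), if_neg (by tauto),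
          if_pos (by tauto)]
        ring
  simp only [Finset.sum_add_distrib] at h1
  have h2 : ∑ x ∈ S, ∑ y ∈ S, ∑ z ∈ S, G x z y = ∑ x ∈ S, ∑ y ∈ S, ∑ z ∈ S, G x y z := by
    refine Finset.sum_congr rfl fun x _ => ?_
    rw [Finset.sum_comm]
  have h3 : ∑ x ∈ S, ∑ y ∈ S, ∑ z ∈ S, G y z x = ∑ x ∈ S, ∑ y ∈ S, ∑ z ∈ S, G x y z := by
    rw [Finset.sum_comm]
    refine Finset.sum_congr rfl fun y _ => ?_
    rw [Finset.sum_comm]
  have h4 : ∑ x ∈ S, ∑ y ∈ S, ∑ z ∈ S, G x y z =
      ∑ i ∈ S.image π, t3 c (blk π S i) (blk π S i) (cblk π S i) := by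
    rw [sum_blocks π S]
    refine Finset.sum_congr rfl fun i _ => ?_
    unfold t3
    refine Finset.sum_congr rfl fun x hx => ?_
    have hxi : π x = i := (Finset.mem_filter.mp hx).2
    unfold blk cblk
    rw [Finset.sum_filter]
    refine Finset.sum_congr rfl fun y _ => ?_
    by_cases hy : π y = i
    · rw [if_pos hy, Finset.sum_filter]
      refine Finset.sum_congr rfl fun z _ => ?_
      simp only [G, hxi, hy, true_and]
      by_cases hz : π z = i
      · simp [hz]
      · simp [hz, Ne.symm hz]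
    · rw [if_neg hy]
      refine Finset.sum_eq_zero fun z _ => ?_
      simp only [G, hxi]
      rw [if_neg]
      rintro ⟨e, _⟩
      exact hy e.symm
  have h5 : ∑ x ∈ S, ∑ y ∈ S, ∑ z ∈ S, E x y z =
      ∑ i ∈ S.image π, t3 c (blk π S i) (blk π S i) (blk π S i) := by
    rw [sum_blocks π S]
    refine Finset.sum_congr rfl fun i _ => ?_
    unfold t3
    refine Finset.sum_congr rfl fun x hx => ?_
    have hxi : π x = i := (Finset.mem_filter.mp hx).2
    unfold blk
    rw [Finset.sum_filter]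
    refine Finset.sum_congr rfl fun y _ => ?_
    by_cases hy : π y = i
    · rw [if_pos hy, Finset.sum_filter]
      refine Finset.sum_congr rfl fun z _ => ?_
      simp only [E, hxi, hy, true_and]
      by_cases hz : π z = i
      · simp [hz]
      · simp [hz, Ne.symm hz]
    · rw [if_neg hy]
      refine Finset.sum_eq_zero fun z _ => ?_
      simp only [E, hxi]
      rw [if_neg]
      rintro ⟨e, _⟩
      exact hy e.symm
  rw [h2, h3, h4, h5] at h1
  have h6 : ∑ i ∈ S.image π, T c (blk π S i) =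
      (∑ i ∈ S.image π, t3 c (blk π S i) (blk π S i) (blk π S i)) / 6 := by
    rw [Finset.sum_div]; rfl
  rw [h6]
  have h7 : t3d c π S = ∑ x ∈ S, ∑ y ∈ S, ∑ z ∈ S,
      if π x ≠ π y ∧ π y ≠ π z ∧ π x ≠ π z then mm c x y z else 0 := rfl
  rw [h7]
  unfold T
  rw [h1]
  ring

/-- contribution of pairs in a block -/
lemma t3_block {c : V → V → ℕ} {A W : Finset V} {x0 : V} {a b : ℕ} (hab : a ≠ b)
    (hdis : Disjoint A W) (h1 : ∀ z ∈ W, c x0 z = a ∨ c x0 z = b)
    (h2 : ∀ x ∈ A, ∀ z ∈ W, c x z = c x0 z) :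
    t3 c A A W = (W.filter (fun z => c x0 z = a)).card * (2 * ee c a A) +
      (W.filter (fun z => c x0 z = b)).card * (2 * ee c b A) := by
  have hd : Disjoint (W.filter (fun z => c x0 z = a)) (W.filter (fun z => c x0 z = b)) := by
    rw [Finset.disjoint_filter]
    intro z _ e1 e2
    exact hab (e1.symm.trans e2)
  have hW : W = W.filter (fun z => c x0 z = a) ∪ W.filter (fun z => c x0 z = b) := by
    rw [← Finset.filter_or]
    rw [Finset.filter_true_of_mem]
    exact h1
  conv_lhs => rw [hW]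
  rw [t3_union_right c A A hd]
  rw [t3_join (a := a) (hdis.mono_right (Finset.filter_subset _ _)) (by
      intro x hx z hz
      rw [Finset.mem_filter] at hz
      rw [h2 x hx z hz.1]; exact hz.2),
    t3_join (a := b) (hdis.mono_right (Finset.filter_subset _ _)) (by
      intro x hx z hz
      rw [Finset.mem_filter] at hz
      rw [h2 x hx z hz.1]; exact hz.2)]

/-- sign of a colour -/
noncomputable def sg (c : V → V → ℕ) (a : ℕ) (x y : V) : ℝ := if c x y = a then 1 else -1

/-- `[π x ≠ π y]` -/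
noncomputable def qq (π : V → I) (x y : V) : ℝ := if π x ≠ π y then 1 else 0

/-- size of the block of `x` -/
noncomputable def wt (π : V → I) (S : Finset V) (x : V) : ℝ := ((blk π S (π x)).card : ℝ)

omit [DecidableEq V] in
lemma sum_qq (π : V → I) (S : Finset V) (x : V) :
    ∑ y ∈ S, qq π x y = S.card - wt π S x := by
  have h1 : ∀ y, qq π x y = 1 - (if π y = π x then (1:ℝ) else 0) := by
    intro y
    unfold qq
    by_cases h : π x = π y
    · simp [h]
    · have h' : ¬ π y = π x := fun e => h e.symm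
      simp [h, h']
  rw [Finset.sum_congr rfl fun y _ => h1 y, Finset.sum_sub_distrib]
  unfold wt blk
  rw [Finset.card_eq_sum_ones, Finset.card_eq_sum_ones]
  push_cast
  rw [Finset.sum_filter]

omit [DecidableEq V] in
/-- for a function `s` constant on blocks -/
lemma sum_sq_blocks (π : V → I) (S : Finset V) (s : V → ℝ)
    (hs : ∀ y ∈ S, ∀ z ∈ S, π y = π z → s y = s z) :
    ∑ y ∈ S, ∑ z ∈ S, s y * s z * qq π y z = (∑ y ∈ S, s y) ^ 2 - ∑ y ∈ S, s y ^ 2 * wt π S y := by
  rw [sq, Finset.sum_mul_sum, ← Finset.sum_sub_distrib]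
  refine Finset.sum_congr rfl fun y hy => ?_
  have h1 : ∑ z ∈ S, s y * s z * qq π y z = ∑ z ∈ S, (s y * s z - s y * s z * (1 - qq π y z)) := by
    refine Finset.sum_congr rfl fun z _ => ?_
    ring
  rw [h1, Finset.sum_sub_distrib]
  congr 1
  have h2 : ∀ z ∈ S, s y * s z * (1 - qq π y z) = s y ^ 2 * (if π z = π y then (1:ℝ) else 0) := by
    intro z hz
    unfold qq
    by_cases h : π z = π y
    · rw [hs y hy z hz h.symm]
      simp [h]; ring
    · have h' : ¬ π y = π z := fun e => h e.symm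
      simp [h, h']
  rw [Finset.sum_congr rfl h2, ← Finset.mul_sum]
  congr 1
  unfold wt blk
  rw [Finset.card_eq_sum_ones]
  push_cast
  rw [Finset.sum_filter]

/-- exact Goodman identity along a homogeneous partition -/
lemma goodman_exact {c : V → V → ℕ} (hc : Sym c) (π : V → I) {S : Finset V} {a b : ℕ}
    (hab : a ≠ b) (h1 : ∀ x ∈ S, ∀ y ∈ S, π x ≠ π y → c x y = a ∨ c x y = b)
    (h2 : ∀ x ∈ S, ∀ x' ∈ S, ∀ y ∈ S, π x = π x' → π x ≠ π y → c x y = c x' y) :
    4 * t3d c π S = ∑ x ∈ S, ((S.card - wt π S x) * (S.card - 5 * wt π S x) +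
      3 * (∑ y ∈ S, qq π x y * sg c a x y) ^ 2) := by
  let K : V → V → V → ℝ := fun x y z => qq π x y * qq π x z * qq π y z * (sg c a x y * sg c a x z)
  have hsg : ∀ x y, sg c a x y = sg c a y x := by
    intro x y; unfold sg; rw [hc x y]
  have hqq : ∀ x y, qq π x y = qq π y x := by
    intro x y; unfold qq; simp only [ne_comm]
  have e1 : 4 * t3d c π S = ∑ x ∈ S, ∑ y ∈ S, ∑ z ∈ S,
      (qq π x y * qq π x z * qq π y z + K x y z + K y x z + K z x y) := by
    unfold t3d
    simp only [Finset.mul_sum]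
    refine Finset.sum_congr rfl fun x hx => Finset.sum_congr rfl fun y hy => Finset.sum_congr rfl
      fun z hz => ?_
    simp only [K]
    by_cases p1 : π x = π y
    · have p1' : π y = π x := p1.symm
      simp [qq, p1]
    · by_cases p2 : π y = π z
      · have p2' : π z = π y := p2.symm
        simp [qq, p2]
      · by_cases p3 : π x = π z
        · have p3' : π z = π x := p3.symm
          simp [qq, p3]
        · have q1 : qq π x y = 1 := by simp [qq, p1]
          have q2 : qq π x z = 1 := by simp [qq, p3]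
          have q3 : qq π y z = 1 := by simp [qq, p2]
          rw [hqq y x, hqq z x, hqq z y, hsg y x, hsg z x, hsg z y, q1, q2, q3]
          rw [if_pos ⟨p1, p2, p3⟩]
          have d1 : x ≠ y := fun e => p1 (by rw [e])
          have d2 : y ≠ z := fun e => p2 (by rw [e])
          have d3 : x ≠ z := fun e => p3 (by rw [e])
          unfold mm sg
          rcases h1 x hx y hy p1 with c1 | c1 <;> rcases h1 y hy z hz p2 with c2 | c2 <;>
            rcases h1 x hx z hz p3 with c3 | c3 <;>
            simp [c1, c2, c3, d1, d2, d3, hab, hab.symm] <;> norm_num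
  have s1 : ∑ x ∈ S, ∑ y ∈ S, ∑ z ∈ S, K y x z = ∑ x ∈ S, ∑ y ∈ S, ∑ z ∈ S, K x y z := by
    rw [Finset.sum_comm]
  have s2 : ∑ x ∈ S, ∑ y ∈ S, ∑ z ∈ S, K z x y = ∑ x ∈ S, ∑ y ∈ S, ∑ z ∈ S, K x y z := by
    have : ∀ x ∈ S, ∑ y ∈ S, ∑ z ∈ S, K z x y = ∑ z ∈ S, ∑ y ∈ S, K z x y := fun x _ =>
      Finset.sum_comm
    rw [Finset.sum_congr rfl this, Finset.sum_comm]
  have e2 : 4 * t3d c π S = ∑ x ∈ S, (∑ y ∈ S, ∑ z ∈ S, qq π x y * qq π x z * qq π y z +
      3 * ∑ y ∈ S, ∑ z ∈ S, K x y z) := by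
    rw [e1]
    simp only [Finset.sum_add_distrib]
    rw [s1, s2, ← Finset.mul_sum]
    ring
  have f1 : ∀ x ∈ S, ∑ y ∈ S, ∑ z ∈ S, qq π x y * qq π x z * qq π y z =
      (S.card - wt π S x) ^ 2 - ∑ y ∈ S, qq π x y * wt π S y := by
    intro x hx
    rw [sum_sq_blocks π S (fun y => qq π x y)]
    · rw [sum_qq]
      congr 1
      refine Finset.sum_congr rfl fun y _ => ?_
      unfold qq
      split_ifs <;> norm_num
    · intro y _ z _ hyz
      simp only [qq, hyz]
  have f2 : ∀ x ∈ S, ∑ y ∈ S, ∑ z ∈ S, K x y z =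
      (∑ y ∈ S, qq π x y * sg c a x y) ^ 2 - ∑ y ∈ S, qq π x y * wt π S y := by
    intro x hx
    have g1 : ∑ y ∈ S, ∑ z ∈ S, K x y z = ∑ y ∈ S, ∑ z ∈ S,
        (qq π x y * sg c a x y) * (qq π x z * sg c a x z) * qq π y z := by
      refine Finset.sum_congr rfl fun y _ => Finset.sum_congr rfl fun z _ => ?_
      simp only [K]; ring
    rw [g1, sum_sq_blocks π S (fun y => qq π x y * sg c a x y)]
    · congr 1
      refine Finset.sum_congr rfl fun y _ => ?_
      unfold qq sg
      split_ifs <;> norm_num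
    · intro y hy z hz hyz
      simp only [qq, hyz]
      by_cases h : π x = π z
      · simp [h]
      · have h3 : c y x = c z x := h2 y hy z hz x hx hyz (by rw [hyz]; exact fun e => h e.symm)
        have h4 : c x y = c x z := by rw [hc x y, hc x z]; exact h3
        unfold sg
        rw [h4]
  have f3 : ∑ x ∈ S, ∑ y ∈ S, qq π x y * wt π S y = ∑ x ∈ S, (S.card - wt π S x) * wt π S x := by
    rw [Finset.sum_comm]
    refine Finset.sum_congr rfl fun y _ => ?_
    rw [← Finset.sum_mul]
    congr 1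
    rw [← sum_qq π S y]
    exact Finset.sum_congr rfl fun x _ => hqq x y
  rw [e2, Finset.sum_congr rfl fun x hx => by rw [f1 x hx, f2 x hx]]
  have f4 : ∑ x ∈ S, ((S.card - wt π S x) ^ 2 - ∑ y ∈ S, qq π x y * wt π S y +
      3 * ((∑ y ∈ S, qq π x y * sg c a x y) ^ 2 - ∑ y ∈ S, qq π x y * wt π S y)) =
      ∑ x ∈ S, ((S.card - wt π S x) ^ 2 + 3 * (∑ y ∈ S, qq π x y * sg c a x y) ^ 2) -
      4 * ∑ x ∈ S, ∑ y ∈ S, qq π x y * wt π S y := by
    rw [Finset.mul_sum, ← Finset.sum_sub_distrib]
    refine Finset.sum_congr rfl fun x _ => ?_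
    ring
  rw [f4, f3, Finset.mul_sum, ← Finset.sum_sub_distrib]
  refine Finset.sum_congr rfl fun x _ => ?_
  ring

end Pool.Agent.Work.MP_f94239_co
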