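import Pool.Agent.Work.MP_f94239_co.Gal3
import Pool.Agent.Work.MP_f94239_co.Gal4

/-!
# Scaled lower bounds for blocks, the avoiding case
-/

set_option autoImplicit false

namespace Pool.Agent.Work.MP_f94239_co

open Finset

variable {V : Type*} [DecidableEq V]

/-- lower bound for colourings with at most `m` colours -/
def LB (V : Type*) [DecidableEq V] (m : ℕ) (M : ℝ) (F : ℝ → ℝ → Prop) : Prop :=
  ∀ (c : V → V → ℕ) (S : Finset V) (C : Finset ℕ), Sym c → Gal c S → Uses c S C → C.card ≤ m →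
    F (S.card / M) (T c S / M)

/-- merge one colour -/
lemma low1 {m : ℕ} {M : ℝ} (hM : 0 < M) {F : ℝ → ℝ → Prop} (hF : LB V m M F) (hm : 1 ≤ m)
    {c : V → V → ℕ} (hc : Sym c) {A : Finset V} {C : Finset ℕ} (hg : Gal c A) (hu : Uses c A C)
    (hC : C.card = m + 1) {a : ℕ} (ha : a ∈ C) :
    ∃ t, F (A.card / M) t ∧ ∀ w θ μ : ℝ, ((A.card:ℝ) - 2) / M ≤ θ * m → ee c a A ≤ μ →
      t - max (θ - w) 0 * μ ≤ T c A / M + w * ee c a A := by
  have hDc : (C.erase a).card = m := by rw [Finset.card_erase_of_mem ha]; omega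
  have hD : (C.erase a).Nonempty := by rw [← Finset.card_pos]; omega
  obtain ⟨b, hb, h1⟩ := merge_one hc A hD a
  have h2 := hF (mrg c a b) A (C.erase a) (mrg_sym hc a b) (mrg_gal hg a b)
    (mrg_uses hu (Finset.Subset.refl _) hb) hDc.le
  refine ⟨_, h2, ?_⟩
  intro w θ μ hθ he
  have hm' : (0:ℝ) < m := by exact_mod_cast hm
  rw [hDc] at h1
  have he0 := ee_nonneg c a A
  have h3 : T (mrg c a b) A / M ≤ T c A / M + ee c a A * θ := by
    have h4 : ee c a A * (((A.card:ℝ) - 2) / m) / M ≤ ee c a A * θ := by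
      rw [mul_div_assoc]
      apply mul_le_mul_of_nonneg_left _ he0
      rw [div_div, div_le_iff₀ (by positivity)]
      rw [div_le_iff₀ hM] at hθ
      linarith
    have h5 := div_le_div_of_nonneg_right h1 hM.le
    rw [add_div] at h5
    linarith
  have h6 : ee c a A * (θ - w) ≤ max (θ - w) 0 * μ := by
    calc ee c a A * (θ - w) ≤ ee c a A * max (θ - w) 0 := mul_le_mul_of_nonneg_left (le_max_left _ _) he0
      _ ≤ μ * max (θ - w) 0 := mul_le_mul_of_nonneg_right he (le_max_right _ _)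
      _ = _ := by ring
  linarith

/-- merge two colours -/
lemma low2 {m : ℕ} {M : ℝ} (hM : 0 < M) {F : ℝ → ℝ → Prop} (hF : LB V m M F) (hm : 1 ≤ m)
    {c : V → V → ℕ} (hc : Sym c) {A : Finset V} {C : Finset ℕ} (hg : Gal c A) (hu : Uses c A C)
    (hC : C.card = m + 2) {a b : ℕ} (ha : a ∈ C) (hb : b ∈ C) (hab : a ≠ b) :
    ∃ t, F (A.card / M) t ∧ ∀ w w' θ : ℝ, ((A.card:ℝ) - 2) / M ≤ θ * m →
      t + (w - θ) * ee c a A + (w' - θ) * ee c b A ≤ T c A / M + w * ee c a A + w' * ee c b A := by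
  have hb' : b ∈ C.erase a := Finset.mem_erase.mpr ⟨hab.symm, hb⟩
  have hDc : ((C.erase a).erase b).card = m := by
    rw [Finset.card_erase_of_mem hb', Finset.card_erase_of_mem ha]; omega
  have hD : ((C.erase a).erase b).Nonempty := by rw [← Finset.card_pos]; omega
  obtain ⟨c', h1, h2, h3, h4⟩ := merge_two hc hg hu hab hD
  have h5 := hF c' A _ h1 h2 h3 hDc.le
  refine ⟨_, h5, ?_⟩
  intro w w' θ hθ
  rw [hDc] at h4
  have hm' : (0:ℝ) < m := by exact_mod_cast hm
  have he0 := ee_nonneg c a A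
  have he0' := ee_nonneg c b A
  have h6 : (ee c a A + ee c b A) * (((A.card:ℝ) - 2) / m) / M ≤ (ee c a A + ee c b A) * θ := by
    rw [mul_div_assoc]
    apply mul_le_mul_of_nonneg_left _ (add_nonneg he0 he0')
    rw [div_div, div_le_iff₀ (by positivity)]
    rw [div_le_iff₀ hM] at hθ
    linarith
  have h7 := div_le_div_of_nonneg_right h4 hM.le
  rw [add_div] at h7
  linarith

/-- merge two colours, with cutoff -/
lemma low2' {m : ℕ} {M : ℝ} (hM : 0 < M) {F : ℝ → ℝ → Prop} (hF : LB V m M F) (hm : 1 ≤ m)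
    {c : V → V → ℕ} (hc : Sym c) {A : Finset V} {C : Finset ℕ} (hg : Gal c A) (hu : Uses c A C)
    (hC : C.card = m + 2) {a b : ℕ} (ha : a ∈ C) (hb : b ∈ C) (hab : a ≠ b) :
    ∃ t, F (A.card / M) t ∧ ∀ w w' θ μ : ℝ, ((A.card:ℝ) - 2) / M ≤ θ * m → ee c a A ≤ μ →
      ee c b A ≤ μ → t - max (θ - w) 0 * μ - max (θ - w') 0 * μ ≤
        T c A / M + w * ee c a A + w' * ee c b A := by
  obtain ⟨t, h1, h2⟩ := low2 hM hF hm hc hg hu hC ha hb hab
  refine ⟨t, h1, ?_⟩
  intro w w' θ μ hθ hea heb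
  have h3 := h2 w w' θ hθ
  have key : ∀ e w : ℝ, 0 ≤ e → e ≤ μ → e * (θ - w) ≤ max (θ - w) 0 * μ := by
    intro e w he0 he
    calc e * (θ - w) ≤ e * max (θ - w) 0 := mul_le_mul_of_nonneg_left (le_max_left _ _) he0
      _ ≤ μ * max (θ - w) 0 := mul_le_mul_of_nonneg_right he (le_max_right _ _)
      _ = _ := by ring
  have h4 := key _ w (ee_nonneg c a A) hea
  have h5 := key _ w' (ee_nonneg c b A) heb
  linarith

/-- the avoiding case -/
lemma avoid_case {m : ℕ} {M : ℝ} (hM : 0 < M) {F : ℝ → ℝ → Prop} (hF : LB V m M F) (hm : 1 ≤ m)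
    {c : V → V → ℕ} (hc : Sym c) {S : Finset V} {C : Finset ℕ} (hg : Gal c S) (hu : Uses c S C)
    (hC : C.card = m + 2) {a b : ℕ} (ha : a ∈ C) (hb : b ∈ C) (hab : a ≠ b) (π : V → V)
    (h1 : ∀ x ∈ S, ∀ y ∈ S, π x ≠ π y → c x y = a ∨ c x y = b)
    (h2 : ∀ x ∈ S, ∀ x' ∈ S, ∀ y ∈ S, π x = π x' → π x ≠ π y → c x y = c x' y)
    (h3 : ∀ x ∈ S, ((blk π S (π x)).card : ℝ) - 2 ≤
      ((cblk π S (π x)).filter (fun z => c x z = a)).card * m)
    (h4 : ∀ x ∈ S, ((blk π S (π x)).card : ℝ) - 2 ≤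
      ((cblk π S (π x)).filter (fun z => c x z = b)).card * m) :
    ∃ s : V → ℝ, (∀ i ∈ S.image π, F ((blk π S i).card / M) (s i)) ∧
      ∑ i ∈ S.image π, s i + t3d c π S / 6 / M ≤ T c S / M := by
  have hblk : ∀ i ∈ S.image π, ∃ s : ℝ, F ((blk π S i).card / M) s ∧
      s ≤ T c (blk π S i) / M + t3 c (blk π S i) (blk π S i) (cblk π S i) / 2 / M := by
    intro i hi
    obtain ⟨x, hx, rfl⟩ := Finset.mem_image.mp hi
    have hsub : blk π S (π x) ⊆ S := Finset.filter_subset _ _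
    obtain ⟨t, g1, g2⟩ := low2 hM hF hm hc (hg.mono hsub) (hu.mono hsub) hC ha hb hab
    refine ⟨t, g1, ?_⟩
    have hdis : Disjoint (blk π S (π x)) (cblk π S (π x)) := by
      unfold blk cblk
      rw [Finset.disjoint_filter]
      intro z _ e1 e2
      exact e2 e1
    have g3 := t3_block (c := c) (x0 := x) hab hdis (by
        intro z hz
        have hz' := Finset.mem_filter.mp hz
        exact h1 x hx z hz'.1 (Ne.symm hz'.2)) (by
        intro y hy z hz
        have hy' := Finset.mem_filter.mp hy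
        have hz' := Finset.mem_filter.mp hz
        exact h2 y hy'.1 x hx z hz'.1 hy'.2 (by rw [hy'.2]; exact Ne.symm hz'.2))
    rw [g3]
    set wa : ℝ := (((cblk π S (π x)).filter (fun z => c x z = a)).card : ℝ) with hwa
    set wb : ℝ := (((cblk π S (π x)).filter (fun z => c x z = b)).card : ℝ) with hwb
    have hx3 := h3 x hx
    have hx4 := h4 x hx
    rw [← hwa] at hx3
    rw [← hwb] at hx4
    set θ : ℝ := min wa wb / M with hθ
    have hm' : (0:ℝ) ≤ m := by positivity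
    have hcond : (((blk π S (π x)).card : ℝ) - 2) / M ≤ θ * m := by
      rw [hθ, div_mul_eq_mul_div]
      apply div_le_div_of_nonneg_right _ hM.le
      rcases min_choice wa wb with h | h <;> rw [h] <;> assumption
    have g4 := g2 (wa / M) (wb / M) θ hcond
    have g5 : 0 ≤ (wa / M - θ) * ee c a (blk π S (π x)) := by
      apply mul_nonneg _ (ee_nonneg _ _ _)
      rw [hθ, sub_nonneg]
      exact div_le_div_of_nonneg_right (min_le_left _ _) hM.le
    have g6 : 0 ≤ (wb / M - θ) * ee c b (blk π S (π x)) := by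
      apply mul_nonneg _ (ee_nonneg _ _ _)
      rw [hθ, sub_nonneg]
      exact div_le_div_of_nonneg_right (min_le_right _ _) hM.le
    have g7 : (wa * (2 * ee c a (blk π S (π x))) + wb * (2 * ee c b (blk π S (π x)))) / 2 / M =
        wa / M * ee c a (blk π S (π x)) + wb / M * ee c b (blk π S (π x)) := by
      field_simp
    rw [g7]
    linarith
  choose! s hs1 hs2 using hblk
  refine ⟨s, hs1, ?_⟩
  rw [T_decomp hc π S, add_div, add_div]
  have h5 : ∑ i ∈ S.image π, s i ≤ ∑ i ∈ S.image π, (T c (blk π S i) / M +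
      t3 c (blk π S i) (blk π S i) (cblk π S i) / 2 / M) :=
    Finset.sum_le_sum fun i hi => hs2 i hi
  rw [Finset.sum_add_distrib] at h5
  simp only [Finset.sum_div] at h5 ⊢
  linarith

omit [DecidableEq V] in
lemma scale_sum (I : Finset V) (m x : V → ℝ) {M : ℝ} (hM : 0 < M) (hx : ∀ i, x i = m i / M) :
    ∑ i ∈ I, x i * ((∑ j ∈ I, x j) - x i) * ((∑ j ∈ I, x j) - 5 * x i) / 24 =
      (∑ i ∈ I, m i * (((∑ j ∈ I, m j) - m i) * ((∑ j ∈ I, m j) - 5 * m i))) / 24 / M ^ 3 := by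
  have h1 : ∑ j ∈ I, x j = (∑ j ∈ I, m j) / M := by
    rw [Finset.sum_div]; exact Finset.sum_congr rfl fun i _ => hx i
  rw [h1]
  generalize ∑ j ∈ I, m j = W
  rw [Finset.sum_div, Finset.sum_div]
  refine Finset.sum_congr rfl fun i _ => ?_
  rw [hx i]
  field_simp

lemma scale_le {Γ t M : ℝ} (hM : 1 ≤ M) (ht : 0 ≤ t) (h : Γ ≤ 4 * t) :
    Γ / 24 / M ^ 3 ≤ t / 6 / M := by
  have hM0 : (0:ℝ) < M := by linarith
  rcases le_total Γ 0 with h1 | h1
  · have h2 : Γ / 24 / M ^ 3 ≤ 0 := div_nonpos_of_nonpos_of_nonneg (by linarith) (by positivity)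
    have h3 : 0 ≤ t / 6 / M := by positivity
    linarith
  · have h7 : Γ / 24 / M ^ 3 ≤ Γ / 24 / M := by
      apply div_le_div_of_nonneg_left (by positivity) hM0
      nlinarith [mul_pos hM0 hM0]
    have h8 : Γ / 24 / M ≤ t / 6 / M := by
      apply div_le_div_of_nonneg_right _ hM0.le
      linarith
    linarith

/-- the trimmed Goodman bound -/
lemma trim {c : V → V → ℕ} (hc : Sym c) {S : Finset V} {a b : ℕ} (hab : a ≠ b) (π : V → V)
    (h1 : ∀ x ∈ S, ∀ y ∈ S, π x ≠ π y → c x y = a ∨ c x y = b)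
    (h2 : ∀ x ∈ S, ∀ x' ∈ S, ∀ y ∈ S, π x = π x' → π x ≠ π y → c x y = c x' y) (L : ℕ)
    {M : ℝ} (hM : 1 ≤ M) (x : V → ℝ) (hx : ∀ i, x i = ((min (blk π S i).card L : ℕ) : ℝ) / M) :
    ∑ i ∈ S.image π, x i * ((∑ j ∈ S.image π, x j) - x i) * ((∑ j ∈ S.image π, x j) - 5 * x i) / 24
      ≤ t3d c π S / 6 / M := by
  have hU : ∀ i ∈ S.image π, ∃ U : Finset V, U ⊆ blk π S i ∧ U.card = min (blk π S i).card L :=
    fun i _ => Finset.exists_subset_card_eq (min_le_left _ _)
  choose! U hU1 hU2 using hU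
  obtain ⟨S', hS'⟩ : ∃ S', S' = (S.image π).biUnion U := ⟨_, rfl⟩
  have hsub : S' ⊆ S := by
    intro x hx
    rw [hS'] at hx
    obtain ⟨i, hi, hxi⟩ := Finset.mem_biUnion.mp hx
    exact (Finset.mem_filter.mp (hU1 i hi hxi)).1
  have hblk' : ∀ i ∈ S.image π, blk π S' i = U i := by
    intro i hi
    ext x
    constructor
    · intro hx
      obtain ⟨hx1, hx2⟩ := Finset.mem_filter.mp hx
      rw [hS'] at hx1
      obtain ⟨j, hj, hxj⟩ := Finset.mem_biUnion.mp hx1
      have : π x = j := (Finset.mem_filter.mp (hU1 j hj hxj)).2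
      rw [← hx2, this]
      exact hxj
    · intro hx
      have : π x = i := (Finset.mem_filter.mp (hU1 i hi hx)).2
      refine Finset.mem_filter.mpr ⟨?_, this⟩
      rw [hS']
      exact Finset.mem_biUnion.mpr ⟨i, hi, hx⟩
  have hM0 : (0:ℝ) < M := by linarith
  obtain ⟨mz, hmz⟩ : ∃ mz : V → ℝ, ∀ i, mz i = ((min (blk π S i).card L : ℕ) : ℝ) := ⟨_, fun _ => rfl⟩
  have hcard : ((S'.card : ℕ) : ℝ) = ∑ i ∈ S.image π, mz i := by
    rw [hS', Finset.card_biUnion]
    · push_cast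
      refine Finset.sum_congr rfl fun i hi => ?_
      rw [hU2 i hi, hmz]
    · intro i hi j hj hij
      simp only [Function.onFun]
      rw [Finset.disjoint_left]
      intro x hx hx'
      have e1 := (Finset.mem_filter.mp (hU1 i hi hx)).2
      have e2 := (Finset.mem_filter.mp (hU1 j hj hx')).2
      exact hij (e1.symm.trans e2)
  have hg := goodman_exact hc π hab (fun x hx y hy => h1 x (hsub hx) y (hsub hy))
    (fun x hx x' hx' y hy => h2 x (hsub hx) x' (hsub hx') y (hsub hy))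
  have hg2 : ∑ x ∈ S', ((S'.card - wt π S' x) * (S'.card - 5 * wt π S' x)) ≤ 4 * t3d c π S' := by
    rw [hg]
    refine Finset.sum_le_sum fun x _ => ?_
    have := sq_nonneg (∑ y ∈ S', qq π x y * sg c a x y)
    linarith
  have hsum : ∑ x ∈ S', ((S'.card - wt π S' x) * (S'.card - 5 * wt π S' x)) =
      ∑ i ∈ S.image π, mz i * (((∑ j ∈ S.image π, mz j) - mz i) *
        ((∑ j ∈ S.image π, mz j) - 5 * mz i)) := by
    have h5 : ∑ x ∈ S', ((S'.card - wt π S' x) * (S'.card - 5 * wt π S' x)) =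
        ∑ i ∈ S.image π, ∑ x ∈ blk π S' i, ((S'.card - wt π S' x) * (S'.card - 5 * wt π S' x)) :=
      (Finset.sum_fiberwise_of_maps_to
        (fun x hx => Finset.mem_image_of_mem π (hsub hx)) _).symm
    rw [h5, ← hcard]
    refine Finset.sum_congr rfl fun i hi => ?_
    have h6 : ∀ x ∈ blk π S' i, ((S'.card - wt π S' x) * (S'.card - 5 * wt π S' x)) =
        (S'.card - mz i) * (S'.card - 5 * mz i) := by
      intro x hx
      have hxi : π x = i := (Finset.mem_filter.mp hx).2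
      unfold wt
      rw [hxi, hblk' i hi, hU2 i hi, hmz]
    rw [Finset.sum_congr rfl h6, Finset.sum_const, nsmul_eq_mul, hblk' i hi, hU2 i hi, ← hmz]
  rw [hsum] at hg2
  have hmono := t3d_mono c π hsub
  have hnn := t3d_nonneg c π S
  rw [scale_sum (S.image π) mz x hM0 (fun i => by rw [hx, hmz])]
  exact scale_le hM hnn (hg2.trans (by linarith))

end Pool.Agent.Work.MP_f94239_co
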