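import Pool.Agent.Work.MP_f94239_co.Gal5

/-!
# The skeleton of the induction step
-/

set_option autoImplicit false

namespace Pool.Agent.Work.MP_f94239_co

open Finset

variable {V : Type*} [DecidableEq V]

/-- numeric hypothesis: join -/
def HypJ (m : ℕ) (M : ℝ) (F1 : ℝ → ℝ → Prop) (μ K : ℝ) : Prop :=
  ∀ x y t t' τ : ℝ, 0 ≤ x → x ≤ y → F1 x t' → F1 y t →
    (∀ θ : ℝ, y - 2 / M ≤ θ * (m + 1) → (t - max (θ - x) 0 * μ) + t' ≤ τ) → μ * (x + y) - τ ≤ K

/-- numeric hypothesis: a block with a small side -/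
def HypN (m : ℕ) (M : ℝ) (F1 F2 : ℝ → ℝ → Prop) (μ K : ℝ) : Prop :=
  ∀ v R B s hv hR hB τ : ℝ, 1 / M ≤ v → 0 ≤ B → B ≤ R → B * m < v - 2 / M →
    F2 v s → F1 v hv → F1 R hR → F1 B hB →
    (∀ θ θ' : ℝ, v - 2 / M ≤ θ * m → R - 2 / M ≤ θ' * (m + 1) →
      s - max (θ - R) 0 * μ - max (θ - B) 0 * μ + (hR - max (θ' - v) 0 * μ) + hB ≤ τ) →
    (∀ θ θ' : ℝ, v - 2 / M ≤ θ * (m + 1) → R - 2 / M ≤ θ' * (m + 1) →
      hv - max (θ - R) 0 * μ + (hR - max (θ' - v) 0 * μ) + hB ≤ τ) →
    μ * (v + R + B) - τ ≤ K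

/-- numeric hypothesis: avoiding case -/
def HypA (V : Type*) (M : ℝ) (F2 : ℝ → ℝ → Prop) (μ K : ℝ) (L : ℕ) : Prop :=
  ∀ (I : Finset V) (n : V → ℕ) (x s : V → ℝ) (t : ℝ), (∀ i ∈ I, F2 (n i / M) (s i)) → 0 ≤ t →
    (∀ i, x i = ((min (n i) L : ℕ) : ℝ) / M) →
    ∑ i ∈ I, x i * ((∑ j ∈ I, x j) - x i) * ((∑ j ∈ I, x j) - 5 * x i) / 24 ≤ t →
    ∑ i ∈ I, (μ * (n i / M) - s i) ≤ K + t

lemma join_aux {m : ℕ} {M : ℝ} (hM : 1 ≤ M) {F1 : ℝ → ℝ → Prop}
    (hF1 : LB V (m + 1) M F1) {μ K : ℝ} (hμ : 0 ≤ μ) (HJ : HypJ m M F1 μ K)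
    {c : V → V → ℕ} (hc : Sym c) {A B : Finset V} {C : Finset ℕ}
    (hg : Gal c (A ∪ B)) (hu : Uses c (A ∪ B) C) (hC : C.card = m + 2) {a : ℕ} (ha : a ∈ C)
    (hdis : Disjoint A B) (hAB : ∀ x ∈ A, ∀ z ∈ B, c x z = a) (hA : A.Nonempty) (hB : B.Nonempty)
    (hle : B.card ≤ A.card) (hTz : ∀ z ∈ A ∪ B, Tz c (A ∪ B) z ≤ μ) :
    μ * ((A ∪ B).card / M) - T c (A ∪ B) / M ≤ K := by
  have hM0 : (0:ℝ) < M := by linarith
  have hAs : A ⊆ A ∪ B := Finset.subset_union_left
  have hBs : B ⊆ A ∪ B := Finset.subset_union_right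
  have heA : ee c a A ≤ μ := by
    obtain ⟨z, hz⟩ := hB
    refine (ee_le_Tz (c := c) (S := A ∪ B) (z := z) ?_ (fun x hx => hAB x hx z hz)).trans
      (hTz z (hBs hz))
    intro x hx
    refine Finset.mem_erase.mpr ⟨?_, hAs hx⟩
    rintro rfl
    exact Finset.disjoint_left.mp hdis hx hz
  have heB : ee c a B ≤ μ := by
    obtain ⟨z, hz⟩ := hA
    refine (ee_le_Tz (c := c) (S := A ∪ B) (z := z) ?_
      (fun x hx => by rw [hc x z]; exact hAB z hz x hx)).trans (hTz z (hAs hz))
    intro x hx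
    refine Finset.mem_erase.mpr ⟨?_, hBs hx⟩
    rintro rfl
    exact Finset.disjoint_left.mp hdis hz hx
  obtain ⟨t, ht, ht'⟩ := low1 hM0 hF1 (by omega) hc (hg.mono hAs) (hu.mono hAs) hC ha
  obtain ⟨t1, ht1, ht1'⟩ := low1 hM0 hF1 (by omega) hc (hg.mono hBs) (hu.mono hBs) hC ha
  have hcard : (((A ∪ B).card : ℕ) : ℝ) = B.card + A.card := by
    rw [Finset.card_union_of_disjoint hdis]; push_cast; ring
  have hm : (((m + 1 : ℕ) : ℕ) : ℝ) = (m:ℝ) + 1 := by push_cast; ring
  rw [hcard, add_div]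
  apply HJ (B.card / M) (A.card / M) t t1 (T c (A ∪ B) / M) (by positivity)
    (div_le_div_of_nonneg_right (by exact_mod_cast hle) hM0.le) ht1 ht
  intro θ hθ
  have h1 := ht' (B.card / M) θ μ (by rw [hm, sub_div]; exact hθ) heA
  have h2 := ht1' (A.card / M) (B.card / M) μ (by
    rw [hm, sub_div]
    have e1 : 0 ≤ (B.card : ℝ) / M * m := by positivity
    have e2 : 0 ≤ 2 / M := by positivity
    linarith) heB
  have h3 : max ((B.card : ℝ) / M - A.card / M) 0 = 0 := by
    apply max_eq_right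
    rw [sub_nonpos]
    exact div_le_div_of_nonneg_right (by exact_mod_cast hle) hM0.le
  rw [h3] at h2
  have h4 := T_join hc hdis hAB
  rw [h4]
  have h5 : (T c A + B.card * ee c a A + (T c B + A.card * ee c a B)) / M =
      (T c A / M + B.card / M * ee c a A) + (T c B / M + A.card / M * ee c a B) := by
    ring
  rw [h5]
  linarith

lemma join_case {m : ℕ} {M : ℝ} (hM : 1 ≤ M) {F1 : ℝ → ℝ → Prop}
    (hF1 : LB V (m + 1) M F1) {μ K : ℝ} (hμ : 0 ≤ μ) (HJ : HypJ m M F1 μ K)
    {c : V → V → ℕ} (hc : Sym c) {A B : Finset V} {C : Finset ℕ}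
    (hg : Gal c (A ∪ B)) (hu : Uses c (A ∪ B) C) (hC : C.card = m + 2) {a : ℕ} (ha : a ∈ C)
    (hdis : Disjoint A B) (hAB : ∀ x ∈ A, ∀ z ∈ B, c x z = a) (hA : A.Nonempty) (hB : B.Nonempty)
    (hTz : ∀ z ∈ A ∪ B, Tz c (A ∪ B) z ≤ μ) :
    μ * ((A ∪ B).card / M) - T c (A ∪ B) / M ≤ K := by
  rcases le_total B.card A.card with hle | hle
  · exact join_aux hM hF1 hμ HJ hc hg hu hC ha hdis hAB hA hB hle hTz
  · rw [Finset.union_comm] at hg hu hTz ⊢
    exact join_aux hM hF1 hμ HJ hc hg hu hC ha hdis.symm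
      (fun x hx z hz => by rw [hc x z]; exact hAB z hz x hx) hB hA hle hTz

lemma nonavoid {m : ℕ} (hm : 1 ≤ m) {M : ℝ} (hM : 1 ≤ M) {F1 F2 : ℝ → ℝ → Prop}
    (hF1 : LB V (m + 1) M F1) (hF2 : LB V m M F2) {μ K : ℝ} (hμ : 0 ≤ μ)
    (HJ : HypJ m M F1 μ K) (HN : HypN m M F1 F2 μ K)
    {c : V → V → ℕ} (hc : Sym c) {A B D : Finset V} {C : Finset ℕ}
    (hg : Gal c (A ∪ (B ∪ D))) (hu : Uses c (A ∪ (B ∪ D)) C) (hC : C.card = m + 2) {a b : ℕ}
    (ha : a ∈ C) (hb : b ∈ C) (hab : a ≠ b)
    (hdAB : Disjoint A B) (hdAD : Disjoint A D) (hdBD : Disjoint B D)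
    (hAB : ∀ x ∈ A, ∀ z ∈ B, c x z = a) (hAD : ∀ x ∈ A, ∀ z ∈ D, c x z = b)
    (hA : A.Nonempty) (hB : B.Nonempty) (hle : D.card ≤ B.card)
    (hsmall : (D.card : ℝ) * m < A.card - 2)
    (hTz : ∀ z ∈ A ∪ (B ∪ D), Tz c (A ∪ (B ∪ D)) z ≤ μ) :
    μ * ((A ∪ (B ∪ D)).card / M) - T c (A ∪ (B ∪ D)) / M ≤ K := by
  have hM0 : (0:ℝ) < M := by linarith
  rcases D.eq_empty_or_nonempty with hD | hD
  · subst hD
    rw [Finset.union_empty] at hg hu hTz ⊢
    exact join_case hM hF1 hμ HJ hc hg hu hC ha hdAB hAB hA hB hTz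
  · obtain ⟨S, hS⟩ : ∃ S, S = A ∪ (B ∪ D) := ⟨_, rfl⟩
    have hAs : A ⊆ S := by rw [hS]; exact Finset.subset_union_left
    have hBs : B ⊆ S := by
      rw [hS]; exact Finset.subset_union_left.trans Finset.subset_union_right
    have hDs : D ⊆ S := by
      rw [hS]; exact Finset.subset_union_right.trans Finset.subset_union_right
    have hcard : ((S.card : ℕ) : ℝ) = A.card + B.card + D.card := by
      rw [hS, Finset.card_union_of_disjoint (by
        rw [Finset.disjoint_union_right]; exact ⟨hdAB, hdAD⟩),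
        Finset.card_union_of_disjoint hdBD]
      push_cast; ring
    have hT3 := T_join3 hc hdAB hdAD hdBD hAB hAD
    rw [← hS] at hg hu hTz hT3 ⊢
    -- vertices outside
    have key : ∀ X : Finset V, X ⊆ S → ∀ z ∈ S, z ∉ X → ∀ e, (∀ x ∈ X, c x z = e) →
        ee c e X ≤ μ := by
      intro X hX z hz hzX e he
      refine (ee_le_Tz (c := c) (S := S) (z := z) ?_ he).trans (hTz z hz)
      intro x hx
      refine Finset.mem_erase.mpr ⟨?_, hX hx⟩
      rintro rfl
      exact hzX hx
    have heAa : ee c a A ≤ μ := by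
      obtain ⟨z, hz⟩ := hB
      exact key A hAs z (hBs hz) (fun h => Finset.disjoint_left.mp hdAB h hz) a
        (fun x hx => hAB x hx z hz)
    have heAb : ee c b A ≤ μ := by
      obtain ⟨z, hz⟩ := hD
      exact key A hAs z (hDs hz) (fun h => Finset.disjoint_left.mp hdAD h hz) b
        (fun x hx => hAD x hx z hz)
    have heB : ee c a B ≤ μ := by
      obtain ⟨z, hz⟩ := hA
      exact key B hBs z (hAs hz) (fun h => Finset.disjoint_left.mp hdAB hz h) a
        (fun x hx => by rw [hc x z]; exact hAB z hz x hx)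
    have heD : ee c b D ≤ μ := by
      obtain ⟨z, hz⟩ := hA
      exact key D hDs z (hAs hz) (fun h => Finset.disjoint_left.mp hdAD hz h) b
        (fun x hx => by rw [hc x z]; exact hAD z hz x hx)
    obtain ⟨s, hs, hs'⟩ := low2' hM0 hF2 hm hc (hg.mono hAs) (hu.mono hAs) hC ha hb hab
    obtain ⟨tA, htA, htA'⟩ := low1 hM0 hF1 (by omega) hc (hg.mono hAs) (hu.mono hAs) hC ha
    obtain ⟨tB, htB, htB'⟩ := low1 hM0 hF1 (by omega) hc (hg.mono hBs) (hu.mono hBs) hC ha
    obtain ⟨tD, htD, htD'⟩ := low1 hM0 hF1 (by omega) hc (hg.mono hDs) (hu.mono hDs) hC hb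
    have hm' : (((m + 1 : ℕ) : ℕ) : ℝ) = (m:ℝ) + 1 := by push_cast; ring
    have hm1 : (1:ℝ) ≤ m := by exact_mod_cast hm
    have hDA : (D.card : ℝ) ≤ A.card := by
      have : (D.card : ℝ) ≤ D.card * m := by
        have : 0 ≤ (D.card : ℝ) * (m - 1) := mul_nonneg (by positivity) (by linarith)
        linarith
      linarith
    have hD2 := htD' (A.card / M) (D.card / M) μ (by
      rw [hm', sub_div]
      have e1 : 0 ≤ (D.card : ℝ) / M * m := by positivity
      have e2 : 0 ≤ 2 / M := by positivity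
      linarith) heD
    have h3 : max ((D.card : ℝ) / M - A.card / M) 0 = 0 := by
      apply max_eq_right
      rw [sub_nonpos]
      exact div_le_div_of_nonneg_right hDA hM0.le
    rw [h3, zero_mul, sub_zero] at hD2
    have hT4 : (T c A / M + B.card / M * ee c a A + D.card / M * ee c b A) +
        (T c B / M + A.card / M * ee c a B) + (T c D / M + A.card / M * ee c b D) ≤ T c S / M := by
      have := div_le_div_of_nonneg_right hT3 hM0.le
      refine le_trans (le_of_eq ?_) this
      ring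
    rw [hcard, add_div, add_div]
    apply HN (A.card / M) (B.card / M) (D.card / M) s tA tB tD (T c S / M)
      (div_le_div_of_nonneg_right (by
        have := hA.card_pos
        exact_mod_cast this) hM0.le) (by positivity)
      (div_le_div_of_nonneg_right (by exact_mod_cast hle) hM0.le) _ hs htA htB htD
    · intro θ θ' hθ hθ'
      have g1 := hs' (B.card / M) (D.card / M) θ μ (by rw [sub_div]; exact hθ) heAa heAb
      have g2 := htB' (A.card / M) θ' μ (by rw [hm', sub_div]; exact hθ') heB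
      linarith
    · intro θ θ' hθ hθ'
      have g1 := htA' (B.card / M) θ μ (by rw [hm', sub_div]; exact hθ) heAa
      have g2 := htB' (A.card / M) θ' μ (by rw [hm', sub_div]; exact hθ') heB
      have g3 : 0 ≤ D.card / M * ee c b A := mul_nonneg (by positivity) (ee_nonneg _ _ _)
      linarith
    · have e1 : (D.card : ℝ) / M * m = D.card * m / M := by ring
      rw [e1, ← sub_div]
      exact div_lt_div_of_pos_right hsmall hM0

theorem skeleton {m : ℕ} (hm : 1 ≤ m) {M : ℝ} (hM : 1 ≤ M) {F1 F2 : ℝ → ℝ → Prop}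
    (hF1 : LB V (m + 1) M F1) (hF2 : LB V m M F2) {μ K : ℝ} (hμ : 0 ≤ μ) (hK : μ ≤ K) (L : ℕ)
    (HA : HypA V M F2 μ K L) (HJ : HypJ m M F1 μ K) (HN : HypN m M F1 F2 μ K)
    {c : V → V → ℕ} (hc : Sym c) {C : Finset ℕ} (hC : C.card ≤ m + 2) :
    ∀ n : ℕ, ∀ S : Finset V, S.card = n → Gal c S → Uses c S C →
      μ * (S.card / M) - T c S / M ≤ K := by
  have hM0 : (0:ℝ) < M := by linarith
  -- enlarge the colour set
  obtain ⟨C', hCC', hC'⟩ := Infinite.exists_superset_card_eq C (m + 2) hC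
  suffices H : ∀ n : ℕ, ∀ S : Finset V, S.card = n → Gal c S → Uses c S C' →
      μ * (S.card / M) - T c S / M ≤ K by
    intro n S hS hg hu
    exact H n S hS hg (fun x hx y hy hxy => hCC' (hu x hx y hy hxy))
  intro n
  induction n using Nat.strong_induction_on with
  | _ n ih =>
  intro S hS hg hu
  have hT0 := T_nonneg c S
  rcases Nat.lt_or_ge n 2 with hn | hn
  · have h1 : (S.card : ℝ) ≤ 1 := by exact_mod_cast (show S.card ≤ 1 by omega)
    have h2 : (S.card : ℝ) / M ≤ 1 := by
      rw [div_le_one hM0]; linarith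
    have h3 : μ * (S.card / M) ≤ μ * 1 := mul_le_mul_of_nonneg_left h2 hμ
    have h4 : 0 ≤ T c S / M := by positivity
    linarith
  · by_cases hz : ∃ z ∈ S, μ ≤ Tz c S z
    · obtain ⟨z, hz, hz'⟩ := hz
      have h1 : (S.erase z).card = n - 1 := by rw [Finset.card_erase_of_mem hz, hS]
      have h2 := ih (n - 1) (by omega) (S.erase z) h1 (hg.mono (Finset.erase_subset _ _))
        (hu.mono (Finset.erase_subset _ _))
      rw [T_erase hc hz]
      have h3 : (S.card : ℝ) = (S.erase z).card + 1 := by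
        have := Finset.card_erase_add_one hz
        exact_mod_cast this.symm
      rw [h3, add_div, add_div]
      have h4 : μ / M ≤ Tz c S z / M := div_le_div_of_nonneg_right hz' hM0.le
      have h5 : μ * (((S.erase z).card : ℝ) / M + 1 / M) = μ * ((S.erase z).card / M) + μ / M := by
        ring
      rw [h5]
      linarith
    · push Not at hz
      have hTz : ∀ z ∈ S, Tz c S z ≤ μ := fun z hz' => (hz z hz').le
      obtain ⟨a, ha, b, hb, hab, π, ⟨x1, hx1, x2, hx2, hx12⟩, hp1, hp2⟩ :=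
        gallai_partition hc (C := C') (by omega) n S hS hn hg hu
      by_cases hav : ∀ x ∈ S, ((blk π S (π x)).card : ℝ) - 2 ≤
          ((cblk π S (π x)).filter (fun z => c x z = a)).card * m ∧
          ((blk π S (π x)).card : ℝ) - 2 ≤
          ((cblk π S (π x)).filter (fun z => c x z = b)).card * m
      · obtain ⟨s, hs1, hs2⟩ := avoid_case hM0 hF2 hm hc hg hu hC' ha hb hab π hp1 hp2
          (fun x hx => (hav x hx).1) (fun x hx => (hav x hx).2)
        have htr := trim hc hab π hp1 hp2 L hM (fun i => ((min (blk π S i).card L : ℕ) : ℝ) / M)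
          (fun _ => rfl)
        have h3 := HA (S.image π) (fun i => (blk π S i).card) _ s (t3d c π S / 6 / M) hs1
          (by have := t3d_nonneg c π S; positivity) (fun _ => rfl) htr
        have h4 : (S.card : ℝ) = ∑ i ∈ S.image π, ((blk π S i).card : ℝ) := by
          have := Finset.card_eq_sum_card_fiberwise (f := π) (s := S) (t := S.image π)
            (fun x hx => Finset.mem_image_of_mem π hx)
          rw [this]
          push_cast
          rfl
        rw [Finset.sum_sub_distrib, ← Finset.mul_sum, ← Finset.sum_div, ← h4] at h3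
        linarith
      · push Not at hav
        obtain ⟨x, hx, hav⟩ := hav
        obtain ⟨A, hA⟩ : ∃ A, A = blk π S (π x) := ⟨_, rfl⟩
        obtain ⟨B, hB⟩ : ∃ B, B = (cblk π S (π x)).filter (fun z => c x z = a) := ⟨_, rfl⟩
        obtain ⟨D, hD⟩ : ∃ D, D = (cblk π S (π x)).filter (fun z => c x z = b) := ⟨_, rfl⟩
        rw [← hA, ← hB, ← hD] at hav
        have hBD : B ∪ D = cblk π S (π x) := by
          rw [hB, hD, ← Finset.filter_or, Finset.filter_true_of_mem]
          intro z hz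
          have hz' := Finset.mem_filter.mp hz
          exact hp1 x hx z hz'.1 (Ne.symm hz'.2)
        have hSe : S = A ∪ (B ∪ D) := by
          rw [hBD, hA]
          unfold blk cblk
          rw [Finset.filter_union_filter_not_eq]
        have hdA : Disjoint A (cblk π S (π x)) := by
          rw [hA]
          unfold blk cblk
          rw [Finset.disjoint_filter]
          intro z _ e1 e2
          exact e2 e1
        have hdAB : Disjoint A B := hdA.mono_right (by rw [hB]; exact Finset.filter_subset _ _)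
        have hdAD : Disjoint A D := hdA.mono_right (by rw [hD]; exact Finset.filter_subset _ _)
        have hdBD : Disjoint B D := by
          rw [hB, hD, Finset.disjoint_filter]
          intro z _ e1 e2
          exact hab (e1.symm.trans e2)
        have hAB : ∀ y ∈ A, ∀ z ∈ B, c y z = a := by
          intro y hy z hz
          rw [hA] at hy
          rw [hB] at hz
          obtain ⟨hy1, hy2⟩ := Finset.mem_filter.mp hy
          obtain ⟨hz1, hz2⟩ := Finset.mem_filter.mp hz
          obtain ⟨hz3, hz4⟩ := Finset.mem_filter.mp hz1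
          rw [← hz2]
          exact hp2 y hy1 x hx z hz3 hy2 (by rw [hy2]; exact Ne.symm hz4)
        have hAD : ∀ y ∈ A, ∀ z ∈ D, c y z = b := by
          intro y hy z hz
          rw [hA] at hy
          rw [hD] at hz
          obtain ⟨hy1, hy2⟩ := Finset.mem_filter.mp hy
          obtain ⟨hz1, hz2⟩ := Finset.mem_filter.mp hz
          obtain ⟨hz3, hz4⟩ := Finset.mem_filter.mp hz1
          rw [← hz2]
          exact hp2 y hy1 x hx z hz3 hy2 (by rw [hy2]; exact Ne.symm hz4)
        have hAne : A.Nonempty := ⟨x, by rw [hA]; exact Finset.mem_filter.mpr ⟨hx, rfl⟩⟩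
        have hBDne : (B ∪ D).Nonempty := by
          rw [hBD]
          by_cases h : π x1 = π x
          · exact ⟨x2, Finset.mem_filter.mpr ⟨hx2, fun e => hx12 (h.trans e.symm)⟩⟩
          · exact ⟨x1, Finset.mem_filter.mpr ⟨hx1, h⟩⟩
        have hcardBD : 0 < B.card + D.card := by
          rw [← Finset.card_union_of_disjoint hdBD]
          exact hBDne.card_pos
        have hsm : ((min B.card D.card : ℕ) : ℝ) * m < A.card - 2 := by
          by_contra hcon
          push Not at hcon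
          have h1 : ((min B.card D.card : ℕ) : ℝ) ≤ B.card := by exact_mod_cast min_le_left _ _
          have h2 : ((min B.card D.card : ℕ) : ℝ) ≤ D.card := by exact_mod_cast min_le_right _ _
          have hm0 : (0:ℝ) ≤ m := by positivity
          have h3 := mul_le_mul_of_nonneg_right h1 hm0
          have h4 := mul_le_mul_of_nonneg_right h2 hm0
          have h5 := hav (by linarith)
          linarith
        rcases le_total D.card B.card with hle | hle
        · rw [min_eq_right hle] at hsm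
          have hBne : B.Nonempty := by rw [← Finset.card_pos]; omega
          rw [hSe] at hg hu hTz ⊢
          exact nonavoid hm hM hF1 hF2 hμ HJ HN hc hg hu hC' ha hb hab hdAB hdAD hdBD hAB hAD
            hAne hBne hle hsm hTz
        · rw [min_eq_left hle] at hsm
          have hDne : D.Nonempty := by rw [← Finset.card_pos]; omega
          rw [Finset.union_comm B D] at hSe
          rw [hSe] at hg hu hTz ⊢
          exact nonavoid hm hM hF1 hF2 hμ HJ HN hc hg hu hC' hb ha hab.symm hdAD hdAB hdBD.symm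
            hAD hAB hAne hDne hle hsm hTz

end Pool.Agent.Work.MP_f94239_co
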