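import Mathlib

/-!
# Numerical lemmas, part A

`FL x s`: the real number `s` lies above all supporting lines of the piecewise linear
interpolation of `m ↦ C(m,3)` at `x`.  `HL x t`: the same for the Goodman numbers `M₂`.
-/

set_option autoImplicit false

namespace Pool.Agent.Work.MP_f94239_co

/-- slope of the line with index `P` (odd number of colours) -/
noncomputable def mu (P : ℕ) : ℝ := (P : ℝ) * (P - 1) / 2
/-- minus the intercept of the line with index `P` (odd number of colours) -/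
noncomputable def lam (P : ℕ) : ℝ := ((P : ℝ) ^ 3 - P) / 3

def FL (x s : ℝ) : Prop := ∀ P : ℕ, mu P * x - lam P ≤ s

/-- slope of the line with index `q` (even number of colours) -/
noncomputable def nu (q : ℕ) : ℝ := ((q * q / 2 : ℕ) : ℝ)
/-- minus the intercept of the line with index `q` (even number of colours) -/
noncomputable def om (q : ℕ) : ℝ :=
  if Even q then (q : ℝ) * (q + 1) * (2 * q + 1) / 3 else ((q : ℝ) ^ 2 - 1) * (2 * q + 3) / 3

def HL (x t : ℝ) : Prop := ∀ q : ℕ, nu q * x - om q ≤ t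

lemma nu_even (r : ℕ) : nu (2 * r) = 2 * (r : ℝ) ^ 2 := by
  unfold nu
  have h : 2 * r * (2 * r) / 2 = 2 * r ^ 2 := by
    rw [show 2 * r * (2 * r) = 2 * (2 * r ^ 2) by ring]
    omega
  rw [h]; push_cast; ring

lemma nu_odd (r : ℕ) : nu (2 * r + 1) = 2 * (r : ℝ) * (r + 1) := by
  unfold nu
  have h : (2 * r + 1) * (2 * r + 1) / 2 = 2 * (r * (r + 1)) := by
    rw [show (2 * r + 1) * (2 * r + 1) = 2 * (2 * (r * (r + 1))) + 1 by ring]
    omega
  rw [h]; push_cast; ring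

lemma om_even (r : ℕ) : om (2 * r) = 2 * (r : ℝ) * (2 * r + 1) * (4 * r + 1) / 3 := by
  unfold om
  rw [if_pos (even_two_mul r)]
  push_cast; ring

lemma om_odd (r : ℕ) : om (2 * r + 1) = 4 * (r : ℝ) * (r + 1) * (4 * r + 5) / 3 := by
  unfold om
  rw [if_neg (by simp)]
  push_cast; ring

lemma HL.even {x t : ℝ} (h : HL x t) (r : ℕ) :
    2 * (r : ℝ) ^ 2 * x - 2 * (r : ℝ) * (2 * r + 1) * (4 * r + 1) / 3 ≤ t := by
  have := h (2 * r)
  rwa [nu_even, om_even] at this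

lemma HL.odd {x t : ℝ} (h : HL x t) (r : ℕ) :
    2 * (r : ℝ) * (r + 1) * x - 4 * (r : ℝ) * (r + 1) * (4 * r + 5) / 3 ≤ t := by
  have := h (2 * r + 1)
  rwa [nu_odd, om_odd] at this

lemma HL.nonneg {x t : ℝ} (h : HL x t) : 0 ≤ t := by
  have := h.even 0
  simpa using this

lemma FL.nonneg {x s : ℝ} (h : FL x s) : 0 ≤ s := by
  have := h 0
  simpa [mu, lam] using this

lemma FL.cubic {x s : ℝ} (h : FL x s) (hx : 1 ≤ x) : (x ^ 3 - 3 * x ^ 2 + 2 * x) / 6 ≤ s := by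
  have h1 := h ⌊x⌋₊
  have h2 : (⌊x⌋₊ : ℝ) ≤ x := Nat.floor_le (by linarith)
  have h3 : x < ⌊x⌋₊ + 1 := Nat.lt_floor_add_one x
  have h4 : 1 ≤ ⌊x⌋₊ := by rwa [Nat.one_le_floor_iff]
  have h4' : (1:ℝ) ≤ (⌊x⌋₊ : ℝ) := by exact_mod_cast h4
  set P : ℝ := (⌊x⌋₊ : ℝ)
  unfold mu lam at h1
  refine le_trans ?_ h1
  have h5 : 0 ≤ (x - P) * (P + 1 - x) * (x + 2 * P - 2) :=
    mul_nonneg (mul_nonneg (by linarith) (by linarith)) (by linarith)
  nlinarith [h5]

lemma HL.cubic {x t : ℝ} (h : HL x t) (hx : 1 ≤ x) : (x ^ 3 - 6 * x ^ 2 + 5 * x) / 24 ≤ t := by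
  have h2 : (⌊(x - 1) / 2⌋₊ : ℝ) ≤ (x - 1) / 2 := Nat.floor_le (by linarith)
  have h3 : (x - 1) / 2 < ⌊(x - 1) / 2⌋₊ + 1 := Nat.lt_floor_add_one _
  obtain ⟨r, hr | hr⟩ := Nat.even_or_odd' ⌊(x - 1) / 2⌋₊
  · have h1 := h.even r
    rw [hr] at h2 h3
    push_cast at h2 h3
    have hr0 : (0:ℝ) ≤ r := by positivity
    refine le_trans ?_ h1
    have h6 : 0 ≤ (x - (4 * r + 1)) * ((4 * r + 3) - x) * (x + 8 * r - 2) + 6 * (x - (4 * r + 1)) := by
      have h7 : 0 ≤ (4 * r + 3) - x := by linarith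
      have h8 : 0 ≤ x - (4 * r + 1) := by linarith
      rcases le_total 2 (x + 8 * r) with h9 | h9
      · exact add_nonneg (mul_nonneg (mul_nonneg h8 h7) (by linarith)) (by linarith)
      · have h10 : 0 ≤ ((4 * r + 3) - x) * (x + 8 * r - 2) + 6 := by nlinarith
        have h11 := mul_nonneg h8 h10
        nlinarith [h11]
    nlinarith [h6]
  · have h1 := h.odd r
    rw [hr] at h2 h3
    push_cast at h2 h3
    have hr0 : (0:ℝ) ≤ r := by positivity
    refine le_trans ?_ h1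
    have h6 : 0 ≤ (x - (4 * r + 3)) * ((4 * r + 5) - x) * (x + 8 * r + 2) :=
      mul_nonneg (mul_nonneg (by linarith) (by linarith)) (by linarith)
    nlinarith [h6]

lemma mu_nonneg (P : ℕ) : 0 ≤ mu P := by
  unfold mu
  rcases Nat.eq_zero_or_pos P with rfl | h
  · simp
  · have : (1:ℝ) ≤ P := by exact_mod_cast h
    have h1 : 0 ≤ (P:ℝ) * (P - 1) := mul_nonneg (by linarith) (by linarith)
    linarith

lemma nu_nonneg (q : ℕ) : 0 ≤ nu q := by unfold nu; positivity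

/-- `D₂ ≤ λ` -/
lemma FL.d {x s : ℝ} (h : FL x s) (P : ℕ) : mu P * x - s ≤ lam P := by
  have := h P; linarith

/-- `O1` -/
lemma HL.o1 {x t : ℝ} (h : HL x t) (P : ℕ) (hP : 1 ≤ P) :
    mu P * x - t ≤ 2 * lam P + P / 2 := by
  obtain ⟨r, hr | hr⟩ := Nat.even_or_odd' P
  · obtain ⟨r', rfl⟩ : ∃ r', r = r' + 1 := ⟨r - 1, by omega⟩
    subst hr
    have hr0 : (0:ℝ) ≤ r' := by positivity
    have h1 := h.even (r' + 1)
    have h2 := h.odd r'
    unfold mu lam
    push_cast at h1 h2 ⊢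
    rcases le_total x (4 * r' + 5) with hx | hx
    · nlinarith [mul_nonneg (show (0:ℝ) ≤ r' + 1 by linarith) (sub_nonneg.mpr hx)]
    · nlinarith [mul_nonneg (show (0:ℝ) ≤ r' + 1 by linarith) (sub_nonneg.mpr hx)]
  · subst hr
    have hr0 : (0:ℝ) ≤ r := by positivity
    have h1 := h.even r
    have h2 := h.odd r
    unfold mu lam
    push_cast at h1 h2 ⊢
    rcases le_total x (4 * r + 3) with hx | hx
    · nlinarith [mul_nonneg hr0 (sub_nonneg.mpr hx)]
    · nlinarith [mul_nonneg hr0 (sub_nonneg.mpr hx)]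

/-- `E1` -/
lemma FL.e1 {y s : ℝ} (h : FL y s) (q : ℕ) : nu q * y - s ≤ om q / 2 := by
  have h1 := h q
  have h2 := h (q + 1)
  obtain ⟨r, hr | hr⟩ := Nat.even_or_odd' q
  · subst hr
    rw [nu_even, om_even]
    have hr0 : (0:ℝ) ≤ r := by positivity
    unfold mu lam at h1 h2
    push_cast at h1 h2
    rcases le_total y (2 * r + 1) with hx | hx
    · nlinarith [mul_nonneg hr0 (sub_nonneg.mpr hx)]
    · nlinarith [mul_nonneg hr0 (sub_nonneg.mpr hx)]
  · subst hr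
    rw [nu_odd, om_odd]
    have hr0 : (0:ℝ) ≤ r := by positivity
    unfold mu lam at h1 h2
    push_cast at h1 h2
    rcases le_total y (2 * r + 2) with hx | hx
    · nlinarith [mul_nonneg hr0 (sub_nonneg.mpr hx)]
    · nlinarith [mul_nonneg (show (0:ℝ) ≤ r + 1 by linarith) (sub_nonneg.mpr hx)]

end Pool.Agent.Work.MP_f94239_co
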