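import Pool.Agent.Work.MP_f94239_co.NumA

/-!
# Numerical lemmas, part B: one-variable inequalities
-/

set_option autoImplicit false

namespace Pool.Agent.Work.MP_f94239_co

lemma cast_ge {P n : ℕ} (h : n ≤ P) : (n:ℝ) ≤ P := by exact_mod_cast h

/-- `O2` -/
lemma HL.o2 {x t : ℝ} (h : HL x t) (hx : 0 ≤ x) (P : ℕ) (hP : 2 ≤ P) :
    3 / 2 * mu P * x - t ≤ 4 * lam P := by
  have hP' : (2:ℝ) ≤ P := by exact_mod_cast hP
  rcases le_total x 1 with h1 | h1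
  · have h0 := h.nonneg
    have h2 := mu_nonneg P
    have h3 : 3 / 2 * mu P * x ≤ 3 / 2 * mu P * 1 := mul_le_mul_of_nonneg_left h1 (by linarith)
    have h4 : 3 / 2 * mu P ≤ 4 * lam P := by
      unfold mu lam
      nlinarith [mul_nonneg (show (0:ℝ) ≤ P by linarith) (show (0:ℝ) ≤ P - 1 by linarith)]
    linarith
  · have hc := h.cubic h1
    suffices H : 0 ≤ x ^ 3 - 6 * x ^ 2 + (5 - 18 * (P:ℝ) ^ 2 + 18 * P) * x + 32 * (P:ℝ) ^ 3 - 32 * P by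
      unfold mu lam
      nlinarith [H]
    rcases Nat.lt_or_ge P 5 with h5 | h5
    · have hcases : P = 2 ∨ P = 3 ∨ P = 4 := by omega
      rcases hcases with rfl | rfl | rfl
      · norm_num
        nlinarith [mul_nonneg (sq_nonneg (x - 29 / 5)) (show 0 ≤ x + 28 / 5 by linarith)]
      · norm_num
        nlinarith [mul_nonneg (sq_nonneg (x - 41 / 5)) (show 0 ≤ x + 52 / 5 by linarith)]
      · norm_num
        nlinarith [mul_nonneg (sq_nonneg (x - 107 / 10)) (show 0 ≤ x + 77 / 5 by linarith)]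
    · have h5' : (5:ℝ) ≤ P := by exact_mod_cast h5
      have e1 : 0 ≤ (x - (5 * P / 2 + 1)) ^ 2 * (x + 5 * P - 4) :=
        mul_nonneg (sq_nonneg _) (by linarith)
      have e2 : 0 ≤ (3 / 4 * (P:ℝ) ^ 2 + 3 * P - 4) * x :=
        mul_nonneg (by nlinarith) hx
      have e3 : 0 ≤ 3 / 4 * (P:ℝ) ^ 3 - 17 * P + 4 := by
        have : 0 ≤ (P:ℝ) * (P ^ 2 - 25) := mul_nonneg (by linarith) (by nlinarith)
        nlinarith
      nlinarith [e1, e2, e3]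

/-- `O3` -/
lemma FL.o3 {x s : ℝ} (h : FL x s) (hx : 0 ≤ x) (P : ℕ) (hP : 2 ≤ P) :
    2 * mu P * (x - 1) - s ≤ 3 * lam P - P / 2 := by
  have hP' : (2:ℝ) ≤ P := by exact_mod_cast hP
  rcases le_total x 1 with h1 | h1
  · have h0 := h.nonneg
    have h2 := mu_nonneg P
    have h3 : 2 * mu P * (x - 1) ≤ 0 := mul_nonpos_of_nonneg_of_nonpos (by linarith) (by linarith)
    have h4 : 0 ≤ 3 * lam P - P / 2 := by
      unfold lam
      have : 0 ≤ (P:ℝ) * (P ^ 2 - 4) := mul_nonneg (by linarith) (by nlinarith)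
      nlinarith
    linarith
  · have hc := h.cubic h1
    have e1 : 0 ≤ (x - (10 * P / 7 + 1 / 2)) ^ 2 * (x + 20 * P / 7 - 2) :=
      mul_nonneg (sq_nonneg _) (by linarith)
    have e2 : 0 ≤ (6 / 49 * (P:ℝ) ^ 2 + 12 / 7 * P - 1 / 4) * x :=
      mul_nonneg (by nlinarith) hx
    have e3 : 0 ≤ (58 / 343) * (P:ℝ) ^ 3 + 6 * P ^ 2 - 90 / 7 * P + 1 / 2 := by
      have : 0 ≤ (P:ℝ) * (P - 2) := mul_nonneg (by linarith) (by linarith)
      have : 0 ≤ (P:ℝ) ^ 2 * (P - 2) := mul_nonneg (by positivity) (by linarith)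
      nlinarith
    unfold mu lam
    nlinarith [e1, e2, e3]

/-- `O4` -/
lemma FL.o4 {x s : ℝ} (h : FL x s) (hx : 0 ≤ x) (P : ℕ) (hP : 2 ≤ P) :
    4 / 3 * mu P * x - s ≤ 3 * lam P - P / 2 := by
  have hP' : (2:ℝ) ≤ P := by exact_mod_cast hP
  have hm := mu_nonneg P
  rcases le_total 3 x with h1 | h1
  · have := h.o3 hx P hP
    have h2 : 4 / 3 * mu P * x ≤ 2 * mu P * (x - 1) := by nlinarith
    linarith
  · have h0 := h.nonneg
    have h2 : 4 / 3 * mu P * x ≤ 4 / 3 * mu P * 3 := mul_le_mul_of_nonneg_left h1 (by linarith)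
    have h3 : 4 / 3 * mu P * 3 ≤ 3 * lam P - P / 2 := by
      unfold mu lam
      have : 0 ≤ (P:ℝ) * (P - 2) := mul_nonneg (by linarith) (by linarith)
      have : 0 ≤ (P:ℝ) ^ 2 * (P - 2) := mul_nonneg (by positivity) (by linarith)
      nlinarith
    linarith

/-- `Φ_x` -/
lemma HL.phix {x t : ℝ} (h : HL x t) (hx : 0 ≤ x) (P : ℕ) (hP : 2 ≤ P) :
    mu P * x / 3 - t ≤ ((52 * (P:ℝ) / 45 + 2) ^ 3 - 3 * (52 * (P:ℝ) / 45 + 2) ^ 2) / 12 := by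
  have hP' : (2:ℝ) ≤ P := by exact_mod_cast hP
  set T : ℝ := 52 * (P:ℝ) / 45 + 2 with hT
  have hTP : 3 * T ^ 2 - 12 * T + 5 - 4 * (P:ℝ) ^ 2 + 4 * P ≥ 0 := by
    rw [hT]; nlinarith
  rcases le_total x 1 with h1 | h1
  · have h0 := h.nonneg
    have h2 := mu_nonneg P
    have h3 : mu P * x / 3 ≤ mu P * 1 / 3 := by
      have := mul_le_mul_of_nonneg_left h1 h2
      linarith
    have h4 : mu P * 1 / 3 ≤ (T ^ 3 - 3 * T ^ 2) / 12 := by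
      rw [hT]
      unfold mu
      nlinarith [mul_nonneg (show (0:ℝ) ≤ P by linarith) (show (0:ℝ) ≤ P - 2 by linarith),
        mul_nonneg (sq_nonneg (P:ℝ)) (show (0:ℝ) ≤ P - 2 by linarith)]
    linarith
  · have hc := h.cubic h1
    have hT4 : 4 ≤ T := by rw [hT]; linarith
    have e1 : 0 ≤ (x - T) ^ 2 * (x + 2 * T - 6) := mul_nonneg (sq_nonneg _) (by linarith)
    have e2 : 0 ≤ (3 * T ^ 2 - 12 * T + 5 - 4 * (P:ℝ) ^ 2 + 4 * P) * x := mul_nonneg hTP hx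
    unfold mu
    nlinarith [e1, e2]

/-- `Φ_a` for `R ≥ a/2` -/
lemma phia {a s t : ℝ} (hs : FL a s) (ht : HL a t) (ha : 1 ≤ a) (P : ℕ) (hP : 2 ≤ P) :
    7 / 3 * mu P * a - 8 / 3 * mu P - 2 / 3 * s - 1 / 3 * t ≤
      (2 * (30 * (P:ℝ) / 17 + 1 / 4) ^ 3 - 10 / 3 * (30 * (P:ℝ) / 17 + 1 / 4) ^ 2
        - 32 / 3 * P * (P - 1)) / 8 := by
  have hP' : (2:ℝ) ≤ P := by exact_mod_cast hP
  have h1 := hs.cubic ha
  have h2 := ht.cubic ha
  set T : ℝ := 30 * (P:ℝ) / 17 + 1 / 4 with hT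
  have hTP : 3 * T ^ 2 - 20 / 3 * T + 7 / 3 - 28 / 3 * ((P:ℝ) * (P - 1)) ≥ 0 := by
    rw [hT]; nlinarith
  have e1 : 0 ≤ (a - T) ^ 2 * (a + 2 * T - 10 / 3) :=
    mul_nonneg (sq_nonneg _) (by rw [hT]; linarith)
  have e2 : 0 ≤ (3 * T ^ 2 - 20 / 3 * T + 7 / 3 - 28 / 3 * ((P:ℝ) * (P - 1))) * a :=
    mul_nonneg hTP (by linarith)
  unfold mu
  nlinarith [e1, e2]

/-- `Φ_a` for `R ≤ a/2` -/
lemma phia' {a s t : ℝ} (hs : FL a s) (ht : HL a t) (ha : 1 ≤ a) (P : ℕ) (hP : 2 ≤ P) :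
    5 / 2 * mu P * a - 8 / 3 * mu P - 2 / 3 * s - 1 / 3 * t ≤
      (2 * (42 * (P:ℝ) / 23 + 1 / 4) ^ 3 - 10 / 3 * (42 * (P:ℝ) / 23 + 1 / 4) ^ 2
        - 32 / 3 * P * (P - 1)) / 8 := by
  have hP' : (2:ℝ) ≤ P := by exact_mod_cast hP
  have h1 := hs.cubic ha
  have h2 := ht.cubic ha
  set T : ℝ := 42 * (P:ℝ) / 23 + 1 / 4 with hT
  have hTP : 3 * T ^ 2 - 20 / 3 * T + 7 / 3 - 10 * ((P:ℝ) * (P - 1)) ≥ 0 := by
    rw [hT]; nlinarith
  have e1 : 0 ≤ (a - T) ^ 2 * (a + 2 * T - 10 / 3) :=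
    mul_nonneg (sq_nonneg _) (by rw [hT]; linarith)
  have e2 : 0 ≤ (3 * T ^ 2 - 20 / 3 * T + 7 / 3 - 10 * ((P:ℝ) * (P - 1))) * a :=
    mul_nonneg hTP (by linarith)
  unfold mu
  nlinarith [e1, e2]

lemma phi_sum (P : ℕ) (hP : 2 ≤ P) :
    (2 * (30 * (P:ℝ) / 17 + 1 / 4) ^ 3 - 10 / 3 * (30 * (P:ℝ) / 17 + 1 / 4) ^ 2
        - 32 / 3 * P * (P - 1)) / 8 +
      2 * (((52 * (P:ℝ) / 45 + 2) ^ 3 - 3 * (52 * (P:ℝ) / 45 + 2) ^ 2) / 12) ≤ 5 * lam P := by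
  have hP' : (2:ℝ) ≤ P := by exact_mod_cast hP
  unfold lam
  nlinarith [mul_nonneg (show (0:ℝ) ≤ P by linarith) (show (0:ℝ) ≤ P - 2 by linarith),
        mul_nonneg (sq_nonneg (P:ℝ)) (show (0:ℝ) ≤ P - 2 by linarith)]

lemma phi_sum' (P : ℕ) (hP : 2 ≤ P) :
    (2 * (42 * (P:ℝ) / 23 + 1 / 4) ^ 3 - 10 / 3 * (42 * (P:ℝ) / 23 + 1 / 4) ^ 2
        - 32 / 3 * P * (P - 1)) / 8 +
      (((52 * (P:ℝ) / 45 + 2) ^ 3 - 3 * (52 * (P:ℝ) / 45 + 2) ^ 2) / 12) ≤ 5 * lam P := by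
  have hP' : (2:ℝ) ≤ P := by exact_mod_cast hP
  unfold lam
  nlinarith [mul_nonneg (show (0:ℝ) ≤ P by linarith) (show (0:ℝ) ≤ P - 2 by linarith),
        mul_nonneg (sq_nonneg (P:ℝ)) (show (0:ℝ) ≤ P - 2 by linarith)]

lemma nu_om (q : ℕ) (hq : 2 ≤ q) : 2 ≤ nu q ∧ 5 * nu q ≤ om q := by
  obtain ⟨r, hr | hr⟩ := Nat.even_or_odd' q
  · subst hr
    have hr1 : (1:ℝ) ≤ r := by exact_mod_cast (show 1 ≤ r by omega)
    rw [nu_even, om_even]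
    constructor <;> nlinarith [mul_nonneg (show (0:ℝ) ≤ r by linarith) (show (0:ℝ) ≤ r - 1 by linarith),
      mul_nonneg (sq_nonneg (r:ℝ)) (show (0:ℝ) ≤ r - 1 by linarith)]
  · subst hr
    have hr1 : (1:ℝ) ≤ r := by exact_mod_cast (show 1 ≤ r by omega)
    rw [nu_odd, om_odd]
    constructor <;> nlinarith [mul_nonneg (show (0:ℝ) ≤ r by linarith) (show (0:ℝ) ≤ r - 1 by linarith),
      mul_nonneg (sq_nonneg (r:ℝ)) (show (0:ℝ) ≤ r - 1 by linarith)]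

/-- `E2'` -/
lemma FL.e2 {y s : ℝ} (h : FL y s) (hy : 0 ≤ y) (q : ℕ) (hq : 2 ≤ q) :
    4 / 3 * nu q * y - s ≤ 4 / 5 * om q := by
  obtain ⟨hn2, hno⟩ := nu_om q hq
  rcases le_total y 1 with h1 | h1
  · have h0 := h.nonneg
    have h3 : 4 / 3 * nu q * y ≤ 4 / 3 * nu q * 1 := mul_le_mul_of_nonneg_left h1 (by linarith)
    linarith
  · have hc := h.cubic h1
    suffices H : 0 ≤ y ^ 3 - 3 * y ^ 2 + 2 * y - 8 * nu q * y + 24 / 5 * om q by linarith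
    obtain ⟨r, hr | hr⟩ := Nat.even_or_odd' q
    · subst hr
      have hr1 : (1:ℝ) ≤ r := by exact_mod_cast (show 1 ≤ r by omega)
      rw [nu_even, om_even]
      have e1 : 0 ≤ (y - (7 * (2 * r) / 6 + 21 / 20)) ^ 2 * (y + 2 * (7 * (2 * r) / 6 + 21 / 20) - 3) :=
        mul_nonneg (sq_nonneg _) (by linarith)
      have e2 : 0 ≤ (1 / 3 * (r:ℝ) ^ 2 + 7 / 10 * r - 397 / 400) * y :=
        mul_nonneg (by nlinarith) (by linarith)
      have e3 : 0 ≤ (r:ℝ) ^ 2 * r := by positivity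
      nlinarith [e1, e2, e3]
    · subst hr
      have hr1 : (1:ℝ) ≤ r := by exact_mod_cast (show 1 ≤ r by omega)
      rw [nu_odd, om_odd]
      have e1 : 0 ≤ (y - (7 * (2 * r + 1) / 6 + 9 / 10)) ^ 2 * (y + 2 * (7 * (2 * r + 1) / 6 + 9 / 10) - 3) :=
        mul_nonneg (sq_nonneg _) (by linarith)
      have e2 : 0 ≤ (1 / 12 * (2 * (r:ℝ) + 1) ^ 2 - 7 / 10 * (2 * r + 1) + 303 / 100) * y :=
        mul_nonneg (by nlinarith [sq_nonneg (2 * (r:ℝ) + 1 - 21 / 5)]) (by linarith)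
      nlinarith [e1, e2, mul_nonneg (sq_nonneg (r:ℝ)) (show (0:ℝ) ≤ r - 1 by linarith),
        mul_nonneg (show (0:ℝ) ≤ r by linarith) (show (0:ℝ) ≤ r - 1 by linarith)]

/-- `E3` -/
lemma HL.e3 {a t : ℝ} (h : HL a t) (ha : 0 ≤ a) (q : ℕ) (hq : 2 ≤ q) :
    3 / 2 * nu q * a - t ≤ 5 / 2 * om q := by
  obtain ⟨hn2, hno⟩ := nu_om q hq
  rcases le_total a 1 with h1 | h1
  · have h0 := h.nonneg
    have h3 : 3 / 2 * nu q * a ≤ 3 / 2 * nu q * 1 := mul_le_mul_of_nonneg_left h1 (by linarith)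
    linarith
  · have hc := h.cubic h1
    suffices H : 0 ≤ a ^ 3 - 6 * a ^ 2 + 5 * a - 36 * nu q * a + 60 * om q by linarith
    obtain ⟨r, hr | hr⟩ := Nat.even_or_odd' q
    · subst hr
      have hr1 : (1:ℝ) ≤ r := by exact_mod_cast (show 1 ≤ r by omega)
      rw [nu_even, om_even]
      have e1 : 0 ≤ (a - (5 * r + 5 / 2)) ^ 2 * (a + 2 * (5 * r + 5 / 2) - 6) :=
        mul_nonneg (sq_nonneg _) (by linarith)
      have e2 : 0 ≤ (3 * (r:ℝ) ^ 2 + 15 * r - 25 / 4) * a :=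
        mul_nonneg (by nlinarith) (by linarith)
      have e3 : 0 ≤ (r:ℝ) ^ 2 * r := by positivity
      nlinarith [e1, e2, e3]
    · subst hr
      have hr1 : (1:ℝ) ≤ r := by exact_mod_cast (show 1 ≤ r by omega)
      rw [nu_odd, om_odd]
      have e1 : 0 ≤ (a - (5 * (2 * r + 1) / 2 + 2)) ^ 2 * (a + 2 * (5 * (2 * r + 1) / 2 + 2) - 6) :=
        mul_nonneg (sq_nonneg _) (by linarith)
      have e2 : 0 ≤ (3 / 4 * (2 * (r:ℝ) + 1) ^ 2 + 11) * a :=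
        mul_nonneg (by positivity) (by linarith)
      nlinarith [e1, e2, mul_nonneg (sq_nonneg (r:ℝ)) (show (0:ℝ) ≤ r - 1 by linarith),
        mul_nonneg (show (0:ℝ) ≤ r by linarith) (show (0:ℝ) ≤ r - 1 by linarith)]

/-- `E4` -/
lemma HL.e4 {a t : ℝ} (h : HL a t) (ha : 0 ≤ a) (q : ℕ) (hq : 2 ≤ q) :
    2 * nu q * a - t ≤ 5 * om q := by
  obtain ⟨hn2, hno⟩ := nu_om q hq
  rcases le_total a 1 with h1 | h1
  · have h0 := h.nonneg
    have h3 : 2 * nu q * a ≤ 2 * nu q * 1 := mul_le_mul_of_nonneg_left h1 (by linarith)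
    linarith
  · have hc := h.cubic h1
    suffices H : 0 ≤ a ^ 3 - 6 * a ^ 2 + 5 * a - 48 * nu q * a + 120 * om q by linarith
    obtain ⟨r, hr | hr⟩ := Nat.even_or_odd' q
    · subst hr
      have hr1 : (1:ℝ) ≤ r := by exact_mod_cast (show 1 ≤ r by omega)
      rw [nu_even, om_even]
      have e1 : 0 ≤ (a - (6 * r + 2)) ^ 2 * (a + 2 * (6 * r + 2) - 6) :=
        mul_nonneg (sq_nonneg _) (by linarith)
      have e2 : 0 ≤ (12 * (r:ℝ) ^ 2 - 7) * a :=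
        mul_nonneg (by nlinarith) (by linarith)
      have e3 : 0 ≤ (r:ℝ) ^ 2 * r := by positivity
      nlinarith [e1, e2, e3]
    · subst hr
      have hr1 : (1:ℝ) ≤ r := by exact_mod_cast (show 1 ≤ r by omega)
      rw [nu_odd, om_odd]
      have e1 : 0 ≤ (a - (3 * (2 * r + 1) + 2)) ^ 2 * (a + 2 * (3 * (2 * r + 1) + 2) - 6) :=
        mul_nonneg (sq_nonneg _) (by linarith)
      have e2 : 0 ≤ (3 * (2 * (r:ℝ) + 1) ^ 2 + 17) * a :=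
        mul_nonneg (by positivity) (by linarith)
      nlinarith [e1, e2, mul_nonneg (sq_nonneg (r:ℝ)) (show (0:ℝ) ≤ r - 1 by linarith),
        mul_nonneg (show (0:ℝ) ≤ r by linarith) (show (0:ℝ) ≤ r - 1 by linarith)]

end Pool.Agent.Work.MP_f94239_co
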