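import Pool.Agent.Work.MP_f94239_co.NumB

/-!
# Numerical lemmas, part C: the per-block inequality
-/

set_option autoImplicit false

namespace Pool.Agent.Work.MP_f94239_co

/-- odd case, `z ≤ P` -/
lemma blockA {x s z : ℝ} (h : FL x s) (hx : 0 ≤ x) (P : ℕ) (hP : 2 ≤ P)
    (hz : 3 / 2 ≤ z) (hzP : z ≤ P) :
    mu P * x - s ≤ x / z * lam P +
      (2 / 5 - 3 / (5 * z)) * (x * (5 * z - x) * (5 * z - 5 * x) / 24) := by
  have hP' : (2:ℝ) ≤ P := by exact_mod_cast hP
  have hz0 : 0 < z := by linarith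
  -- `D̃(z) ≤ λ`
  have hD : 12 * mu P * z - 2 * z * (z ^ 2 - 3 * z + 2) ≤ 12 * lam P := by
    unfold mu lam
    have e : 0 ≤ (P - z) * (2 * (P:ℝ) ^ 2 - 2 - (P - 3) * z - z ^ 2) :=
      mul_nonneg (by linarith) (by nlinarith [mul_nonneg hz0.le (sub_nonneg.mpr hzP)])
    nlinarith [e]
  have key : 12 * z * (mu P * x - s) ≤ 12 * x * lam P + x * ((z - 3 / 2) * (5 * z - x) * (z - x)) := by
    rcases le_total x 1 with h1 | h1
    · have h0 := h.nonneg
      have e1 : 2 * z * ((1 - x) * (2 - x)) ≤ (z - x) ^ 2 * (3 * z - 3 / 2) := by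
        have e2 : (1 - x) * (2 - x) ≤ (z - x) ^ 2 := by nlinarith
        have e3 : 0 ≤ (1 - x) * (2 - x) := mul_nonneg (by linarith) (by linarith)
        nlinarith [mul_nonneg (sub_nonneg.mpr e2) (show 0 ≤ 3 * z - 3 / 2 by linarith),
          mul_nonneg e3 (show 0 ≤ z - 3 / 2 by linarith)]
      have e4 : 12 * z * mu P ≤ 12 * lam P + (z - 3 / 2) * (5 * z - x) * (z - x) := by
        nlinarith [e1, hD]
      have e5 := mul_le_mul_of_nonneg_left e4 hx
      have e6 : 0 ≤ 12 * z * s := by positivity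
      nlinarith [e5, e6]
    · have hc := h.cubic h1
      have e4 : 12 * z * mu P - 2 * z * (x ^ 2 - 3 * x + 2) ≤
          12 * lam P + (z - 3 / 2) * (5 * z - x) * (z - x) := by
        have e1 : 0 ≤ (z - x) ^ 2 * (3 * z - 3 / 2) := mul_nonneg (sq_nonneg _) (by linarith)
        nlinarith [e1, hD]
      have e5 := mul_le_mul_of_nonneg_left e4 hx
      have e6 := mul_le_mul_of_nonneg_left hc (show 0 ≤ 12 * z by linarith)
      nlinarith [e5, e6]
  have e : x / z * lam P + (2 / 5 - 3 / (5 * z)) * (x * (5 * z - x) * (5 * z - 5 * x) / 24) =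
      (12 * x * lam P + x * ((z - 3 / 2) * (5 * z - x) * (z - x))) / (12 * z) := by
    field_simp
    ring
  rw [e, le_div_iff₀ (by positivity)]
  linarith

/-- odd case, `z ≥ P` -/
lemma blockB {x s z : ℝ} (h : FL x s) (hx : 0 ≤ x) (P : ℕ) (hP : 2 ≤ P)
    (hxP : x ≤ P) (hzP : (P:ℝ) ≤ z) :
    mu P * x - s ≤ x / z * lam P + 2 / 5 * (x * (5 * z - x) * (5 * z - 5 * x) / 24) := by
  have hP' : (2:ℝ) ≤ P := by exact_mod_cast hP
  have hz0 : 0 < z := by linarith
  have h1 := blockA h hx P hP (z := P) (by linarith) le_rfl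
  have h2 : (2 / 5 - 3 / (5 * (P:ℝ))) * (x * (5 * P - x) * (5 * P - 5 * x) / 24) ≤
      2 / 5 * (x * (5 * P - x) * (5 * P - 5 * x) / 24) := by
    apply mul_le_mul_of_nonneg_right
    · have : 0 < 3 / (5 * (P:ℝ)) := by positivity
      linarith
    · have : 0 ≤ x * (5 * P - x) * (5 * P - 5 * x) :=
        mul_nonneg (mul_nonneg hx (by linarith)) (by linarith)
      linarith
  have hlam : lam P ≤ (P:ℝ) ^ 3 / 3 := by unfold lam; linarith
  have hlam0 : 0 ≤ lam P := by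
    unfold lam
    have : 0 ≤ (P:ℝ) * (P ^ 2 - 4) := mul_nonneg (by linarith) (by nlinarith)
    nlinarith
  have h3 : x / P * lam P + 2 / 5 * (x * (5 * P - x) * (5 * P - 5 * x) / 24) ≤
      x / z * lam P + 2 / 5 * (x * (5 * z - x) * (5 * z - 5 * x) / 24) := by
    have e : x / z * lam P + 2 / 5 * (x * (5 * z - x) * (5 * z - 5 * x) / 24) -
        (x / P * lam P + 2 / 5 * (x * (5 * P - x) * (5 * P - 5 * x) / 24)) =
        x * (z - P) * ((5 * z + 5 * P - 6 * x) / 12 - lam P / (z * P)) := by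
      have hPn : (P:ℝ) ≠ 0 := by linarith
      field_simp
      ring
    have h4 : lam P / (z * P) ≤ (5 * z + 5 * P - 6 * x) / 12 := by
      rw [div_le_iff₀ (by positivity)]
      have h5 : 4 * (P:ℝ) / 12 ≤ (5 * z + 5 * P - 6 * x) / 12 := by linarith
      have h6 : 4 * (P:ℝ) / 12 * (z * P) ≤ (5 * z + 5 * P - 6 * x) / 12 * (z * P) :=
        mul_le_mul_of_nonneg_right h5 (by positivity)
      have h7 : (P:ℝ) ^ 3 / 3 ≤ 4 * (P:ℝ) / 12 * (z * P) := by
        have : (P:ℝ) ^ 2 * P ≤ (P:ℝ) ^ 2 * z := mul_le_mul_of_nonneg_left hzP (by positivity)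
        nlinarith
      linarith
    have h5 : 0 ≤ x * (z - P) * ((5 * z + 5 * P - 6 * x) / 12 - lam P / (z * P)) :=
      mul_nonneg (mul_nonneg hx (by linarith)) (by linarith)
    linarith
  linarith

/-- assembling the per-block inequalities -/
lemma assemble {ι : Type*} (I : Finset ι) (x d : ι → ℝ) (z L δ : ℝ)
    (hz : ∑ i ∈ I, x i = 5 * z) (hz0 : 0 < z)
    (h : ∀ i ∈ I, d i ≤ x i / z * L + δ * (x i * (5 * z - x i) * (5 * z - 5 * x i) / 24)) :
    ∑ i ∈ I, d i ≤ 5 * L + δ * ∑ i ∈ I, x i * (5 * z - x i) * (5 * z - 5 * x i) / 24 := by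
  calc ∑ i ∈ I, d i ≤ ∑ i ∈ I, (x i / z * L + δ * (x i * (5 * z - x i) * (5 * z - 5 * x i) / 24)) :=
        Finset.sum_le_sum h
    _ = (∑ i ∈ I, x i) / z * L + δ * ∑ i ∈ I, x i * (5 * z - x i) * (5 * z - 5 * x i) / 24 := by
        rw [Finset.sum_add_distrib, Finset.mul_sum, Finset.sum_div, Finset.sum_mul]
    _ = _ := by
        rw [hz]
        congr 1
        field_simp

/-- `N3`, odd case -/
lemma n3_odd {ι : Type*} (I : Finset ι) (x s : ι → ℝ) (P : ℕ) (hP : 2 ≤ P)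
    (hx : ∀ i ∈ I, 0 ≤ x i) (hxP : ∀ i ∈ I, x i ≤ P) (hs : ∀ i ∈ I, FL (x i) (s i)) (T : ℝ)
    (hT0 : 0 ≤ T) (hT : ∑ i ∈ I, x i * ((∑ j ∈ I, x j) - x i) * ((∑ j ∈ I, x j) - 5 * x i) / 24 ≤ T) :
    ∑ i ∈ I, (mu P * x i - s i) ≤ 5 * lam P + T := by
  have hP' : (2:ℝ) ≤ P := by exact_mod_cast hP
  set z : ℝ := (∑ j ∈ I, x j) / 5 with hz
  have hz5 : ∑ j ∈ I, x j = 5 * z := by rw [hz]; ring
  rw [hz5] at hT
  have hlam0 : 0 ≤ lam P := by
    unfold lam
    have : 0 ≤ (P:ℝ) * (P ^ 2 - 4) := mul_nonneg (by linarith) (by nlinarith)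
    nlinarith
  rcases lt_or_ge z (3 / 2) with h1 | h1
  · have h2 : ∑ i ∈ I, (mu P * x i - s i) ≤ ∑ i ∈ I, mu P * x i :=
      Finset.sum_le_sum (fun i hi => by have := (hs i hi).nonneg; linarith)
    rw [← Finset.mul_sum, hz5] at h2
    have h3 : mu P * (5 * z) ≤ mu P * (15 / 2) :=
      mul_le_mul_of_nonneg_left (by linarith) (mu_nonneg P)
    have h4 : mu P * (15 / 2) ≤ 5 * lam P := by
      unfold mu lam
      nlinarith [mul_nonneg (show (0:ℝ) ≤ P by linarith) (show (0:ℝ) ≤ P - 2 by linarith),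
        mul_nonneg (sq_nonneg (P:ℝ)) (show (0:ℝ) ≤ P - 2 by linarith)]
    linarith
  · rcases le_total z P with h2 | h2
    · have h3 := assemble I x (fun i => mu P * x i - s i) z (lam P) (2 / 5 - 3 / (5 * z)) hz5
        (by linarith) (fun i hi => blockA (hs i hi) (hx i hi) P hP h1 h2)
      set G : ℝ := ∑ i ∈ I, x i * (5 * z - x i) * (5 * z - 5 * x i) / 24
      have hd0 : 0 ≤ 2 / 5 - 3 / (5 * z) := by
        rw [sub_nonneg, div_le_iff₀ (by linarith)]; linarith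
      have hd1 : 2 / 5 - 3 / (5 * z) ≤ 1 := by
        have : 0 < 3 / (5 * z) := div_pos (by norm_num) (by linarith)
        linarith
      have h4 : (2 / 5 - 3 / (5 * z)) * G ≤ T := by
        calc (2 / 5 - 3 / (5 * z)) * G ≤ (2 / 5 - 3 / (5 * z)) * T := mul_le_mul_of_nonneg_left hT hd0
          _ ≤ 1 * T := mul_le_mul_of_nonneg_right hd1 hT0
          _ = T := one_mul T
      linarith
    · have h3 := assemble I x (fun i => mu P * x i - s i) z (lam P) (2 / 5) hz5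
        (by linarith) (fun i hi => blockB (hs i hi) (hx i hi) P hP (hxP i hi) h2)
      linarith

/-- `D̃(z) ≤ ω` up to the parity term -/
lemma even_Dz {z : ℝ} (q : ℕ) (hq : 2 ≤ q) (hz : 3 ≤ z) (hzQ : z ≤ 2 * q + 1) :
    24 * nu q * z - z * (z ^ 2 - 6 * z + 5) ≤ 24 * om q +
      (if Even q then 0 else max 0 (12 - (2 * q + 1 - z) * (12 * q - 8))) := by
  obtain ⟨r, hr | hr⟩ := Nat.even_or_odd' q
  · subst hr
    have hr1 : (1:ℝ) ≤ r := by exact_mod_cast (show 1 ≤ r by omega)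
    rw [nu_even, om_even, if_pos (even_two_mul r)]
    push_cast at hzQ
    have e : 0 ≤ ((4 * r + 1) - z) * (2 * (4 * (r:ℝ) + 1) ^ 2 - 2 - ((4 * r + 1) - 6) * z - z ^ 2) := by
      apply mul_nonneg (by linarith)
      nlinarith [mul_nonneg (show 0 ≤ z by linarith) (show 0 ≤ 4 * r + 1 - z by linarith)]
    nlinarith [e]
  · subst hr
    have hr1 : (1:ℝ) ≤ r := by exact_mod_cast (show 1 ≤ r by omega)
    rw [nu_odd, om_odd, if_neg (by simp)]
    push_cast at hzQ ⊢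
    refine le_trans ?_ (add_le_add_right (le_max_right _ _) _)
    have e : 0 ≤ ((4 * r + 3) - z) * (2 * (4 * (r:ℝ) + 3) ^ 2 - 14 - ((4 * r + 3) - 6) * z - z ^ 2
        - (24 * r + 4)) := by
      apply mul_nonneg (by linarith)
      nlinarith [mul_nonneg (show 0 ≤ z by linarith) (show 0 ≤ 4 * r + 3 - z by linarith)]
    nlinarith [e]

end Pool.Agent.Work.MP_f94239_co
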