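import Pool.Agent.Work.MP_f94239_co.NumC

/-!
# Numerical lemmas, part D: the per-block inequality, even case
-/

set_option autoImplicit false

namespace Pool.Agent.Work.MP_f94239_co

/-- the delicate case `x` close to `z` close to `Q = 4r+3` -/
lemma delicate {r e d : ℝ} (hr : r = 1 ∨ 2 ≤ r) (he : 0 ≤ e) (he2 : e * (6 * r + 1) ≤ 3) (hd : 0 ≤ d)
    (hd2 : d ≤ 2 - e) :
    0 ≤ 48 * (4 * r + 3 - e) * r * e + d * (48 * (4 * r + 3 - e) * r +
      1 / 2 * (4 * r + 3 - e - d) * (4 * r - e) * (4 * (4 * r + 3 - e) + d) - 32 * r * (r + 1) * (4 * r + 5)) := by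
  have hr1 : 1 ≤ r := by rcases hr with h | h <;> linarith
  have he3 : e ≤ 3 / 7 := by nlinarith
  -- bracket is decreasing in `d`
  have h1 : (4 * r + 3 - e - (2 - e)) * (4 * (4 * r + 3 - e) + (2 - e)) ≤
      (4 * r + 3 - e - d) * (4 * (4 * r + 3 - e) + d) := by
    nlinarith [mul_nonneg (show 0 ≤ 2 - e - d by linarith) (show 0 ≤ 3 * (4 * r + 3 - e) + (2 - e) + d by linarith)]
  have h2 : 12 * r * (4 * r + 1) - e * (72 * r ^ 2 + 94 * r + 7) ≤ 48 * (4 * r + 3 - e) * r +
      1 / 2 * (4 * r - e) * ((4 * r + 1) * (4 * (4 * r + 3 - e) + (2 - e))) - 32 * r * (r + 1) * (4 * r + 5) := by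
    nlinarith [mul_nonneg (sq_nonneg e) (show 0 ≤ 4 * r + 1 by linarith)]
  have h3 : 12 * r * (4 * r + 1) - e * (72 * r ^ 2 + 94 * r + 7) ≤ 48 * (4 * r + 3 - e) * r +
      1 / 2 * (4 * r + 3 - e - d) * (4 * r - e) * (4 * (4 * r + 3 - e) + d) - 32 * r * (r + 1) * (4 * r + 5) := by
    have h4 : (4 * r - e) * ((4 * r + 1) * (4 * (4 * r + 3 - e) + (2 - e))) ≤
        (4 * r - e) * ((4 * r + 3 - e - d) * (4 * (4 * r + 3 - e) + d)) := by
      apply mul_le_mul_of_nonneg_left _ (by linarith)
      have : (4 * r + 3 - e - (2 - e)) = 4 * r + 1 := by ring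
      rwa [this] at h1
    nlinarith [h4, h2]
  have h5 := mul_le_mul_of_nonneg_left h3 hd
  have h6 : 0 ≤ 48 * (4 * r + 3 - e) * r * e :=
    mul_nonneg (mul_nonneg (by linarith) (by linarith)) he
  rcases hr with rfl | hr2
  · rcases le_total (60 - 173 * e) 0 with h7 | h7
    · have h8 : (2 - e) * (60 - 173 * e) ≤ d * (60 - 173 * e) := mul_le_mul_of_nonpos_right hd2 h7
      nlinarith
    · have h8 : 0 ≤ d * (60 - 173 * e) := mul_nonneg hd h7
      nlinarith
  · have h7 : 0 ≤ 12 * r * (4 * r + 1) - e * (72 * r ^ 2 + 94 * r + 7) := by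
      have h8 : e * (72 * r ^ 2 + 94 * r + 7) ≤ 48 * r ^ 2 + 12 * r := by
        have h9 : e * (6 * r + 1) * (72 * r ^ 2 + 94 * r + 7) ≤ 3 * (72 * r ^ 2 + 94 * r + 7) :=
          mul_le_mul_of_nonneg_right he2 (by positivity)
        have h10 : 3 * (72 * r ^ 2 + 94 * r + 7) ≤ (6 * r + 1) * (48 * r ^ 2 + 12 * r) := by
          nlinarith [mul_nonneg (show 0 ≤ r by linarith) (show 0 ≤ r - 2 by linarith),
            mul_nonneg (sq_nonneg r) (show 0 ≤ r - 2 by linarith)]
        have h11 : (6 * r + 1) * (e * (72 * r ^ 2 + 94 * r + 7)) ≤ (6 * r + 1) * (48 * r ^ 2 + 12 * r) := by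
          linarith
        exact le_of_mul_le_mul_left h11 (by linarith)
      linarith
    have h8 := mul_nonneg hd h7
    linarith

/-- even case, `z ≤ Q` -/
lemma blockC {x t z : ℝ} (h : HL x t) (hx : 0 ≤ x) (q : ℕ) (hq : 2 ≤ q) (hxQ : x ≤ 2 * q + 1)
    (hz : 3 ≤ z) (hzQ : z ≤ 2 * q + 1) :
    nu q * x - t ≤ x / z * om q +
      (1 / 10 - 3 / (10 * z)) * (x * (5 * z - x) * (5 * z - 5 * x) / 24) := by
  have hz0 : 0 < z := by linarith
  have hD := even_Dz q hq hz hzQ
  have hq' : (2:ℝ) ≤ q := by exact_mod_cast hq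
  suffices key : 24 * z * (nu q * x - t) ≤ 24 * x * om q + x * (1 / 2 * (z - 3) * (5 * z - x) * (z - x)) by
    have e : x / z * om q + (1 / 10 - 3 / (10 * z)) * (x * (5 * z - x) * (5 * z - 5 * x) / 24) =
        (24 * x * om q + x * (1 / 2 * (z - 3) * (5 * z - x) * (z - x))) / (24 * z) := by
      field_simp
      ring
    rw [e, le_div_iff₀ (by positivity)]
    linarith
  -- the easy case: if the parity term is dominated
  have easy : ∀ E : ℝ, 24 * nu q * z - z * (z ^ 2 - 6 * z + 5) ≤ 24 * om q + E →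
      (x ≤ 1 → z * ((1 - x) * (5 - x)) + E ≤ 3 / 2 * (z - x) ^ 2 * (z - 1)) →
      (1 ≤ x → E ≤ 3 / 2 * (z - x) ^ 2 * (z - 1)) →
      24 * z * (nu q * x - t) ≤ 24 * x * om q + x * (1 / 2 * (z - 3) * (5 * z - x) * (z - x)) := by
    intro E hE hE1 hE2
    rcases le_total x 1 with h1 | h1
    · have h0 := h.nonneg
      have h2 := hE1 h1
      have e4 : 24 * z * nu q ≤ 24 * om q + 1 / 2 * (z - 3) * (5 * z - x) * (z - x) := by
        nlinarith [h2, hE]
      have e5 := mul_le_mul_of_nonneg_left e4 hx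
      have e6 : 0 ≤ 24 * z * t := by positivity
      nlinarith [e5, e6]
    · have hc := h.cubic h1
      have h2 := hE2 h1
      have e4 : 24 * z * nu q - z * (x ^ 2 - 6 * x + 5) ≤
          24 * om q + 1 / 2 * (z - 3) * (5 * z - x) * (z - x) := by
        nlinarith [h2, hE]
      have e5 := mul_le_mul_of_nonneg_left e4 hx
      have e6 := mul_le_mul_of_nonneg_left hc (show 0 ≤ 24 * z by linarith)
      nlinarith [e5, e6]
  have base1 : x ≤ 1 → z * ((1 - x) * (5 - x)) ≤ 3 / 2 * (z - x) ^ 2 * (z - 1) := by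
    intro h1
    have e2 : (1 - x) * (5 - x) ≤ (z - x) ^ 2 := by nlinarith
    have e3 : 0 ≤ (1 - x) * (5 - x) := mul_nonneg (by linarith) (by linarith)
    nlinarith [mul_nonneg (sub_nonneg.mpr e2) (show 0 ≤ z by linarith),
      mul_nonneg (sq_nonneg (z - x)) (show 0 ≤ z - 3 by linarith)]
  by_cases hE0 : 24 * nu q * z - z * (z ^ 2 - 6 * z + 5) ≤ 24 * om q
  · apply easy 0 (by linarith)
    · intro h1
      have := base1 h1
      linarith
    · intro _
      have : 0 ≤ (z - x) ^ 2 * (z - 1) := mul_nonneg (sq_nonneg _) (by linarith)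
      linarith
  · push Not at hE0
    obtain ⟨r, hr | hr⟩ := Nat.even_or_odd' q
    · exfalso
      rw [if_pos (by rw [hr]; exact even_two_mul r)] at hD
      linarith
    · have hodd : ¬ Even q := by rw [hr]; simp
      rw [if_neg hodd] at hD
      have hpos : 0 < 12 - (2 * (q:ℝ) + 1 - z) * (12 * q - 8) := by
        by_contra hcon
        push Not at hcon
        rw [max_eq_left hcon] at hD
        linarith
      rw [max_eq_right hpos.le] at hD
      have hr1n : 1 ≤ r := by omega
      have hr1 : (1:ℝ) ≤ r := by exact_mod_cast hr1n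
      have hqr : (q:ℝ) = 2 * r + 1 := by rw [hr]; push_cast; ring
      rw [hqr] at hD hpos hxQ hzQ
      -- e = Q - z
      have he0 : 0 ≤ 4 * r + 3 - z := by linarith
      have he2 : (4 * r + 3 - z) * (6 * r + 1) ≤ 3 := by nlinarith
      have he3 : 4 * r + 3 - z ≤ 3 / 7 := by nlinarith
      by_cases hx2 : x ≤ 4 * r + 1
      · apply easy 12
        · refine hD.trans ?_
          have : 0 ≤ (2 * (2 * (r:ℝ) + 1) + 1 - z) * (12 * (2 * r + 1) - 8) :=
            mul_nonneg (by linarith) (by linarith)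
          linarith
        · intro h1
          have h2 := base1 h1
          have h3 : z * ((1 - x) * (5 - x)) ≤ z * 5 := by
            apply mul_le_mul_of_nonneg_left _ hz0.le
            nlinarith
          have h4 : 5 * 5 * 5 ≤ (z - x) ^ 2 * (z - 1) := by
            have h5 : 5 ≤ z - x := by linarith
            have h6 : 5 ≤ z - 1 := by linarith
            have h7 : 5 * 5 ≤ (z - x) ^ 2 := by nlinarith
            nlinarith
          have h5 : 25 * (z - 1) ≤ (z - x) ^ 2 * (z - 1) := by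
            apply mul_le_mul_of_nonneg_right _ (by linarith)
            nlinarith
          linarith
        · intro h1
          have h2 : 11 / 7 ≤ z - x := by linarith
          have h3 : (11 / 7) ^ 2 ≤ (z - x) ^ 2 := by nlinarith
          have h4 : (11 / 7) ^ 2 * (z - 1) ≤ (z - x) ^ 2 * (z - 1) :=
            mul_le_mul_of_nonneg_right h3 (by linarith)
          have h5 : 6 ≤ z := by linarith
          nlinarith
      · push Not at hx2
        have hl := h.even r
        rw [hr, nu_odd, om_odd]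
        -- νx - t ≤ ω - 2 r (Q - x)
        have hDx : 2 * (r:ℝ) * (r + 1) * x - t ≤ 4 * (r:ℝ) * (r + 1) * (4 * r + 5) / 3 - 2 * r * (4 * r + 3 - x) := by
          nlinarith [hl]
        have hDx2 := mul_le_mul_of_nonneg_left hDx (show 0 ≤ 24 * z by linarith)
        refine hDx2.trans ?_
        rcases le_total x z with hxz | hxz
        · have hdel := delicate (r := r) (e := 4 * r + 3 - z) (d := z - x)
            (by
              rcases Nat.lt_or_ge r 2 with h7 | h7
              · left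
                have : r = 1 := by omega
                rw [this]; norm_num
              · right
                exact_mod_cast h7) he0 he2 (by linarith) (by linarith)
          nlinarith [hdel]
        · -- x > z
          have h7 : 1 / 2 * x * (z - 3) * (5 * z - x) ≤ 32 * r * (r + 1) * (4 * r + 5) := by
            have h8 : (z - 3) * (5 * z - x) ≤ (x - 3) * (4 * x) :=
              mul_le_mul (by linarith) (by linarith) (by linarith) (by linarith)
            have h9 : x * ((z - 3) * (5 * z - x)) ≤ x * ((x - 3) * (4 * x)) :=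
              mul_le_mul_of_nonneg_left h8 hx
            have h10 : x * ((x - 3) * (4 * x)) ≤ (4 * r + 3) * ((4 * r + 3 - 3) * (4 * (4 * r + 3))) := by
              apply mul_le_mul (by linarith) _ _ (by linarith)
              · apply mul_le_mul (by linarith) (by linarith) (by linarith) (by linarith)
              · exact mul_nonneg (by linarith) (by linarith)
            nlinarith
          have h8 : 0 ≤ (x - z) * (32 * r * (r + 1) * (4 * r + 5) - 1 / 2 * x * (z - 3) * (5 * z - x)) :=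
            mul_nonneg (by linarith) (by linarith)
          have h9 : 0 ≤ 48 * z * r * (4 * r + 3 - x) :=
            mul_nonneg (mul_nonneg (by linarith) (by linarith)) (by linarith)
          nlinarith [h8, h9]

/-- even case, `z ≥ Q` -/
lemma blockD {x t z : ℝ} (h : HL x t) (hx : 0 ≤ x) (q : ℕ) (hq : 2 ≤ q) (hxQ : x ≤ 2 * q + 1)
    (hzQ : 2 * (q:ℝ) + 1 ≤ z) :
    nu q * x - t ≤ x / z * om q +
      (6 * om q / (5 * (2 * (q:ℝ) + 1) ^ 3)) * (x * (5 * z - x) * (5 * z - 5 * x) / 24) := by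
  have hq' : (2:ℝ) ≤ q := by exact_mod_cast hq
  set Q : ℝ := 2 * (q:ℝ) + 1 with hQ
  have hQ5 : 5 ≤ Q := by rw [hQ]; linarith
  have hz0 : 0 < z := by linarith
  have hom : 0 ≤ om q := by
    have := nu_om q hq
    linarith [this.1, this.2]
  have h1 := blockC h hx q hq hxQ (z := Q) (by linarith) le_rfl
  set δ : ℝ := 6 * om q / (5 * Q ^ 3) with hδ
  have hδ1 : 1 / 10 - 3 / (10 * Q) ≤ δ := by
    have e : (1:ℝ) / 10 - 3 / (10 * Q) = (Q ^ 3 - 3 * Q ^ 2) / (10 * Q ^ 3) := by
      field_simp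
    rw [e, hδ, div_le_div_iff₀ (by positivity) (by positivity)]
    have h12 : Q ^ 3 - 3 * Q ^ 2 ≤ 12 * om q := by
      obtain ⟨r, hr | hr⟩ := Nat.even_or_odd' q
      · have hqr : (q:ℝ) = 2 * r := by rw [hr]; push_cast; ring
        rw [hQ, hqr, hr, om_even]
        have : (0:ℝ) ≤ r := by positivity
        nlinarith [sq_nonneg (r:ℝ)]
      · have hqr : (q:ℝ) = 2 * r + 1 := by rw [hr]; push_cast; ring
        rw [hQ, hqr, hr, om_odd]
        have : (0:ℝ) ≤ r := by positivity
        nlinarith [sq_nonneg (r:ℝ)]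
    have hQ3 : 0 < Q ^ 3 := by positivity
    nlinarith [mul_le_mul_of_nonneg_right h12 hQ3.le]
  have h2 : (1 / 10 - 3 / (10 * Q)) * (x * (5 * Q - x) * (5 * Q - 5 * x) / 24) ≤
      δ * (x * (5 * Q - x) * (5 * Q - 5 * x) / 24) := by
    apply mul_le_mul_of_nonneg_right hδ1
    have : 0 ≤ x * (5 * Q - x) * (5 * Q - 5 * x) :=
      mul_nonneg (mul_nonneg hx (by linarith)) (by linarith)
    linarith
  have h3 : x / Q * om q + δ * (x * (5 * Q - x) * (5 * Q - 5 * x) / 24) ≤
      x / z * om q + δ * (x * (5 * z - x) * (5 * z - 5 * x) / 24) := by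
    have e : x / z * om q + δ * (x * (5 * z - x) * (5 * z - 5 * x) / 24) -
        (x / Q * om q + δ * (x * (5 * Q - x) * (5 * Q - 5 * x) / 24)) =
        x * (z - Q) * (δ * 5 * (5 * z + 5 * Q - 6 * x) / 24 - om q / (z * Q)) := by
      have hQn : Q ≠ 0 := by linarith
      field_simp
      ring
    have h4 : om q / (z * Q) ≤ δ * 5 * (5 * z + 5 * Q - 6 * x) / 24 := by
      have hδ0 : 0 ≤ δ := by rw [hδ]; positivity
      have h5 : δ * 5 * (4 * Q) / 24 ≤ δ * 5 * (5 * z + 5 * Q - 6 * x) / 24 := by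
        apply div_le_div_of_nonneg_right _ (by norm_num)
        exact mul_le_mul_of_nonneg_left (by linarith) (by positivity)
      refine le_trans ?_ h5
      have e : δ * 5 * (4 * Q) / 24 = om q / (Q * Q) := by
        rw [hδ]
        field_simp
        ring
      rw [e]
      apply div_le_div_of_nonneg_left hom (by positivity)
      exact mul_le_mul_of_nonneg_right hzQ (by linarith)
    have h5 : 0 ≤ x * (z - Q) * (δ * 5 * (5 * z + 5 * Q - 6 * x) / 24 - om q / (z * Q)) :=
      mul_nonneg (mul_nonneg hx (by linarith)) (by linarith)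
    linarith
  linarith

/-- `N3`, even case -/
lemma n3_even {ι : Type*} (I : Finset ι) (x s : ι → ℝ) (q : ℕ) (hq : 2 ≤ q)
    (hx : ∀ i ∈ I, 0 ≤ x i) (hxP : ∀ i ∈ I, x i ≤ 2 * q + 1) (hs : ∀ i ∈ I, HL (x i) (s i)) (T : ℝ)
    (hT0 : 0 ≤ T) (hT : ∑ i ∈ I, x i * ((∑ j ∈ I, x j) - x i) * ((∑ j ∈ I, x j) - 5 * x i) / 24 ≤ T) :
    ∑ i ∈ I, (nu q * x i - s i) ≤ 5 * om q + T := by
  have hq' : (2:ℝ) ≤ q := by exact_mod_cast hq
  obtain ⟨hn2, hno⟩ := nu_om q hq
  set z : ℝ := (∑ j ∈ I, x j) / 5 with hz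
  have hz5 : ∑ j ∈ I, x j = 5 * z := by rw [hz]; ring
  rw [hz5] at hT
  rcases lt_or_ge z 3 with h1 | h1
  · have h2 : ∑ i ∈ I, (nu q * x i - s i) ≤ ∑ i ∈ I, nu q * x i :=
      Finset.sum_le_sum (fun i hi => by have := (hs i hi).nonneg; linarith)
    rw [← Finset.mul_sum, hz5] at h2
    have h3 : nu q * (5 * z) ≤ nu q * 15 :=
      mul_le_mul_of_nonneg_left (by linarith) (nu_nonneg q)
    linarith
  · rcases le_total z (2 * q + 1) with h2 | h2
    · have h3 := assemble I x (fun i => nu q * x i - s i) z (om q) (1 / 10 - 3 / (10 * z)) hz5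
        (by linarith) (fun i hi => blockC (hs i hi) (hx i hi) q hq (hxP i hi) h1 h2)
      set G : ℝ := ∑ i ∈ I, x i * (5 * z - x i) * (5 * z - 5 * x i) / 24
      have hd0 : 0 ≤ 1 / 10 - 3 / (10 * z) := by
        rw [sub_nonneg, div_le_iff₀ (by linarith)]; linarith
      have hd1 : 1 / 10 - 3 / (10 * z) ≤ 1 := by
        have : 0 < 3 / (10 * z) := div_pos (by norm_num) (by linarith)
        linarith
      have h4 : (1 / 10 - 3 / (10 * z)) * G ≤ T := by
        calc (1 / 10 - 3 / (10 * z)) * G ≤ (1 / 10 - 3 / (10 * z)) * T := mul_le_mul_of_nonneg_left hT hd0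
          _ ≤ 1 * T := mul_le_mul_of_nonneg_right hd1 hT0
          _ = T := one_mul T
      linarith
    · set δ : ℝ := 6 * om q / (5 * (2 * (q:ℝ) + 1) ^ 3) with hδ
      have h3 := assemble I x (fun i => nu q * x i - s i) z (om q) δ hz5
        (by linarith) (fun i hi => blockD (hs i hi) (hx i hi) q hq (hxP i hi) h2)
      set G : ℝ := ∑ i ∈ I, x i * (5 * z - x i) * (5 * z - 5 * x i) / 24
      have hd0 : 0 ≤ δ := by
        rw [hδ]
        have : 0 ≤ om q := by linarith
        positivity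
      have hd1 : δ ≤ 1 := by
        rw [hδ, div_le_one (by positivity)]
        obtain ⟨r, hr | hr⟩ := Nat.even_or_odd' q
        · have hqr : (q:ℝ) = 2 * r := by rw [hr]; push_cast; ring
          rw [hqr, hr, om_even]
          have : (0:ℝ) ≤ r := by positivity
          nlinarith [sq_nonneg (r:ℝ), mul_nonneg (sq_nonneg (r:ℝ)) this]
        · have hqr : (q:ℝ) = 2 * r + 1 := by rw [hr]; push_cast; ring
          rw [hqr, hr, om_odd]
          have : (0:ℝ) ≤ r := by positivity
          nlinarith [sq_nonneg (r:ℝ), mul_nonneg (sq_nonneg (r:ℝ)) this]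
      have h4 : δ * G ≤ T := by
        calc δ * G ≤ δ * T := mul_le_mul_of_nonneg_left hT hd0
          _ ≤ 1 * T := mul_le_mul_of_nonneg_right hd1 hT0
          _ = T := one_mul T
      linarith

end Pool.Agent.Work.MP_f94239_co
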