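import Pool.Agent.Work.MP_f94239_co.NumD

/-!
# Numerical lemmas, part E: the values at integers
-/

set_option autoImplicit false

namespace Pool.Agent.Work.MP_f94239_co

open Finset

lemma FL_nat (n : ℕ) : FL n ((n:ℝ) * (n - 1) * (n - 2) / 6) := by
  intro P
  unfold mu lam
  have h : 0 ≤ ((n:ℝ) - P) * (n - P - 1) * (n + 2 * P - 2) := by
    have h1 : 0 ≤ ((n:ℝ) - P) * (n - P - 1) := by
      rcases Nat.lt_or_ge P n with h | h
      · have : (P:ℝ) + 1 ≤ n := by exact_mod_cast h
        exact mul_nonneg (by linarith) (by linarith)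
      · have : (n:ℝ) ≤ P := by exact_mod_cast h
        nlinarith
    rcases Nat.lt_or_ge (n + 2 * P) 2 with h2 | h2
    · have hP : P = 0 := by omega
      have hn : n = 0 ∨ n = 1 := by omega
      rcases hn with rfl | rfl <;> subst hP <;> norm_num
    · have h3 : (2:ℝ) ≤ n + 2 * P := by exact_mod_cast h2
      exact mul_nonneg h1 (by linarith)
  nlinarith [h]

lemma FL_at (P : ℕ) : FL P (mu P * P - lam P) := by
  have h : mu P * P - lam P = (P:ℝ) * (P - 1) * (P - 2) / 6 := by
    unfold mu lam; ring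
  rw [h]
  exact FL_nat P

/-- Goodman's number -/
def gd (n : ℕ) : ℕ := ∑ i ∈ range n, ((i - 1) / 2) * ((i - 1) / 2) / 2

lemma gd_succ (n : ℕ) : gd (n + 1) = gd n + ((n - 1) / 2) * ((n - 1) / 2) / 2 := by
  unfold gd; rw [Finset.sum_range_succ]

lemma gd_succ' (n : ℕ) : (gd (n + 1) : ℝ) = gd n + nu ((n - 1) / 2) := by
  rw [gd_succ]; push_cast; unfold nu; push_cast; rfl

lemma gd_touch (q : ℕ) : (gd (2 * q + 1) : ℝ) = nu q * (2 * q + 1) - om q := by
  induction q with
  | zero =>
    have : gd (2 * 0 + 1) = 0 := by decide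
    rw [this]
    simp [nu, om]
  | succ q ih =>
    have h1 : (gd (2 * (q + 1) + 1) : ℝ) = gd (2 * q + 1) + nu q + nu q := by
      rw [show 2 * (q + 1) + 1 = (2 * q + 1 + 1) + 1 by ring, gd_succ', gd_succ']
      have e1 : (2 * q + 1 - 1) / 2 = q := by omega
      have e2 : (2 * q + 1 + 1 - 1) / 2 = q := by omega
      rw [e1, e2]
    rw [h1, ih]
    obtain ⟨r, hr | hr⟩ := Nat.even_or_odd' q
    · subst hr
      rw [nu_even, om_even, nu_odd, om_odd]
      push_cast; ring
    · subst hr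
      rw [nu_odd, om_odd, show 2 * r + 1 + 1 = 2 * (r + 1) by ring, nu_even, om_even]
      push_cast; ring

lemma gd_touch' (q : ℕ) : (gd (2 * q + 2) : ℝ) = nu q * (2 * q + 2) - om q := by
  rw [show 2 * q + 2 = (2 * q + 1) + 1 by ring, gd_succ', gd_touch]
  have e1 : (2 * q + 1 - 1) / 2 = q := by omega
  rw [e1]; ring

lemma nu_mono {q q' : ℕ} (h : q ≤ q') : nu q ≤ nu q' := by
  unfold nu
  exact_mod_cast Nat.div_le_div_right (Nat.mul_le_mul h h)

lemma HL_nat (n : ℕ) : HL n (gd n) := by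
  intro q
  rcases Nat.lt_or_ge n (2 * q + 1) with h | h
  · -- downward induction
    have key : ∀ d : ℕ, d ≤ 2 * q + 1 → nu q * ((2 * q + 1 - d : ℕ) : ℝ) - om q ≤
        (gd (2 * q + 1 - d) : ℝ) := by
      intro d
      induction d with
      | zero => intro _; simp only [Nat.sub_zero]; rw [gd_touch]; push_cast; linarith
      | succ d ih =>
        intro hd
        have h1 := ih (by omega)
        obtain ⟨e, he⟩ : ∃ e, 2 * q + 1 - (d + 1) = e := ⟨_, rfl⟩
        have h2 : 2 * q + 1 - d = e + 1 := by omega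
        rw [h2, gd_succ'] at h1
        rw [he]
        have h3 : nu ((e - 1) / 2) ≤ nu q := nu_mono (by omega)
        push_cast at h1
        linarith
    have h1 := key (2 * q + 1 - n) (by omega)
    rwa [show 2 * q + 1 - (2 * q + 1 - n) = n by omega] at h1
  · obtain ⟨d, rfl⟩ := Nat.exists_eq_add_of_le h
    clear h
    induction d with
    | zero => rw [add_zero, gd_touch]; push_cast; linarith
    | succ d ih =>
      rw [← add_assoc, gd_succ']
      have h3 : nu q ≤ nu ((2 * q + 1 + d - 1) / 2) := nu_mono (by omega)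
      push_cast at ih ⊢
      linarith

lemma HL_at (q : ℕ) : HL (2 * (q:ℝ) + 1) (nu q * (2 * q + 1) - om q) := by
  have h := HL_nat (2 * q + 1)
  rw [gd_touch] at h
  push_cast at h
  exact h

lemma gd_even (m : ℕ) : (gd (2 * m) : ℝ) = (m:ℝ) * (m - 1) * (m - 2) / 3 := by
  rcases Nat.eq_zero_or_pos m with rfl | hm
  · have : gd (2 * 0) = 0 := by decide
    rw [this]; simp
  · obtain ⟨q, rfl⟩ : ∃ q, m = q + 1 := ⟨m - 1, by omega⟩
    rw [show 2 * (q + 1) = 2 * q + 2 by ring, gd_touch']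
    obtain ⟨r, hr | hr⟩ := Nat.even_or_odd' q
    · subst hr
      rw [nu_even, om_even]
      push_cast; ring
    · subst hr
      rw [nu_odd, om_odd]
      push_cast; ring

lemma gd_one_mod (r : ℕ) : (gd (4 * r + 1) : ℝ) = 2 * (r:ℝ) * (r - 1) * (4 * r + 1) / 3 := by
  rw [show 4 * r + 1 = 2 * (2 * r) + 1 by ring, gd_touch, nu_even, om_even]
  push_cast; ring

lemma gd_three_mod (r : ℕ) : (gd (4 * r + 3) : ℝ) = 2 * (r:ℝ) * (r + 1) * (4 * r - 1) / 3 := by
  rw [show 4 * r + 3 = 2 * (2 * r + 1) + 1 by ring, gd_touch, nu_odd, om_odd]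
  push_cast; ring

end Pool.Agent.Work.MP_f94239_co
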