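import Pool.Agent.Work.MP_f94239_co.Gal6
import Pool.Agent.Work.MP_f94239_co.NumE

/-!
# The numerical hypotheses of the induction step
-/

set_option autoImplicit false

namespace Pool.Agent.Work.MP_f94239_co

open Finset

lemma P_le_lam (P : ℕ) (hP : 2 ≤ P) : (P:ℝ) ≤ lam P := by
  have hP' : (2:ℝ) ≤ P := by exact_mod_cast hP
  unfold lam
  have : 0 ≤ (P:ℝ) * (P ^ 2 - 4) := mul_nonneg (by linarith) (by nlinarith)
  nlinarith

lemma mu_le_lam (P : ℕ) (hP : 2 ≤ P) : 2 * mu P ≤ lam P := by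
  have hP' : (2:ℝ) ≤ P := by exact_mod_cast hP
  unfold lam mu
  have : 0 ≤ (P:ℝ) * (P - 1) * (P - 2) := mul_nonneg (mul_nonneg (by linarith) (by linarith)) (by linarith)
  nlinarith

lemma hypJ_odd {m : ℕ} (hm : 1 ≤ m) {M : ℝ} (hM : 1 ≤ M) (P : ℕ) (hP : 2 ≤ P) :
    HypJ m M HL (mu P) (5 * lam P) := by
  intro x y t t' τ hx hxy ht' ht h
  have hm1 : (1:ℝ) ≤ m := by exact_mod_cast hm
  have hM2 : 0 ≤ 2 / M := by positivity
  have hy : 0 ≤ y := by linarith
  have h1 := h (y / 2) (by nlinarith [mul_nonneg hy (show (0:ℝ) ≤ m - 1 by linarith)])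
  have hPl := P_le_lam P hP
  have hl0 : 0 ≤ lam P := by
    have : (0:ℝ) ≤ P := by positivity
    linarith
  rcases le_total (y / 2) x with h2 | h2
  · rw [max_eq_right (by linarith)] at h1
    have h3 := ht.o1 P (by omega)
    have h4 := ht'.o1 P (by omega)
    linarith
  · rw [max_eq_left (by linarith)] at h1
    have h3 := ht.o2 hy P hP
    have h4 := ht'.nonneg
    linarith

lemma hypN_odd1 (P : ℕ) (hP : 2 ≤ P) : HypN 1 1 HL FL (mu P) (5 * lam P) := by
  intro v R B s hv hR hB τ hv1 hB0 hBR hBv hs hhv hhR hhB h1 h2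
  have hmu := mu_nonneg P
  simp only [Nat.cast_one, mul_one, div_one] at hv1 hBv h1 h2
  have hR0 : 0 ≤ R := by linarith
  have k1 := h1 (v - 2) (R / 2) (by linarith) (by linarith)
  have k2 := h2 (v / 2) (R / 2) (by linarith) (by linarith)
  have hs0 := hs.nonneg
  have hB0' := hhB.nonneg
  have hR0' := hhR.nonneg
  rw [max_eq_left (show 0 ≤ v - 2 - B by linarith)] at k1
  rcases le_total (v - 2) R with c1 | c1
  · rw [max_eq_right (show v - 2 - R ≤ 0 by linarith)] at k1
    rcases le_total R (2 * v) with c2 | c2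
    · rw [max_eq_right (show R / 2 - v ≤ 0 by linarith)] at k1
      have g1 := hs.o3 (by linarith) P hP
      have g2 := hhR.o1 P (by omega)
      linarith
    · rw [max_eq_left (show 0 ≤ R / 2 - v by linarith)] at k1
      have g1 := hs.d P
      have g2 := hhR.o2 hR0 P hP
      linarith
  · rw [max_eq_left (show 0 ≤ v - 2 - R by linarith),
      max_eq_right (show R / 2 - v ≤ 0 by linarith)] at k1
    rw [max_eq_right (show R / 2 - v ≤ 0 by linarith)] at k2
    rcases le_total (v / 2) R with c2 | c2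
    · rw [max_eq_right (show v / 2 - R ≤ 0 by linarith)] at k2
      have g1 := phia hs hhv hv1 P hP
      have g2 := hhR.phix hR0 P hP
      have g3 := hhB.phix hB0 P hP
      have g4 := phi_sum P hP
      linarith
    · rw [max_eq_left (show 0 ≤ v / 2 - R by linarith)] at k2
      have g1 := phia' hs hhv hv1 P hP
      have g3 := hhB.phix hB0 P hP
      have g4 := phi_sum' P hP
      linarith

lemma hypN_odd3 {m : ℕ} (hm : 3 ≤ m) {M : ℝ} (hM : 1 ≤ M) (P : ℕ) (hP : 2 ≤ P) :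
    HypN m M HL FL (mu P) (5 * lam P) := by
  intro v R B s hv hR hB τ hv1 hB0 hBR hBv hs hhv hhR hhB h1 h2
  have hmu := mu_nonneg P
  have hm3 : (3:ℝ) ≤ m := by exact_mod_cast hm
  have hM2 : 0 ≤ 2 / M := by positivity
  have hM1 : 0 ≤ 1 / M := by positivity
  have hR0 : 0 ≤ R := by linarith
  have hv0 : 0 ≤ v := by linarith
  have k1 := h1 (v / 3) (R / 2) (by nlinarith [mul_nonneg hv0 (show (0:ℝ) ≤ m - 3 by linarith)])
    (by nlinarith [mul_nonneg hR0 (show (0:ℝ) ≤ m - 3 by linarith)])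
  have hs0 := hs.nonneg
  have hB0' := hhB.nonneg
  have hR0' := hhR.nonneg
  have hBv3 : B ≤ v / 3 := by
    nlinarith [mul_nonneg hB0 (show (0:ℝ) ≤ m - 3 by linarith)]
  rw [max_eq_left (show 0 ≤ v / 3 - B by linarith)] at k1
  have hmuv : 0 ≤ mu P * v := mul_nonneg hmu hv0
  rcases le_total (v / 3) R with c1 | c1
  · rw [max_eq_right (show v / 3 - R ≤ 0 by linarith)] at k1
    rcases le_total R (2 * v) with c2 | c2
    · rw [max_eq_right (show R / 2 - v ≤ 0 by linarith)] at k1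
      have g1 := hs.o4 hv0 P hP
      have g2 := hhR.o1 P (by omega)
      linarith
    · rw [max_eq_left (show 0 ≤ R / 2 - v by linarith)] at k1
      have g1 := hs.d P
      have g2 := hhR.o2 hR0 P hP
      linarith
  · rw [max_eq_left (show 0 ≤ v / 3 - R by linarith),
      max_eq_right (show R / 2 - v ≤ 0 by linarith)] at k1
    have hl := mu_le_lam P hP
    have hl0 : 0 ≤ lam P := by linarith
    have hP0 : (0:ℝ) ≤ P := by positivity
    rcases le_total v 6 with c2 | c2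
    · have g1 : mu P * v ≤ mu P * 6 := mul_le_mul_of_nonneg_left c2 hmu
      linarith
    · have g1 := hs.o3 hv0 P hP
      have g2 : mu P * 6 ≤ mu P * v := mul_le_mul_of_nonneg_left c2 hmu
      linarith

lemma hypA_odd (V : Type*) {M : ℕ} (hM : 1 ≤ M) (P : ℕ) (hP : 2 ≤ P) :
    HypA V (M:ℝ) FL (mu P) (5 * lam P) (M * P) := by
  intro I n x s t hs ht hx hG
  have hM0 : (0:ℝ) < M := by exact_mod_cast hM
  have key : ∀ i ∈ I, ∃ s' : ℝ, FL (x i) s' ∧ mu P * (n i / M) - s i ≤ mu P * x i - s' := by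
    intro i hi
    rcases le_total (n i) (M * P) with h | h
    · refine ⟨s i, ?_, ?_⟩
      · rw [hx i, min_eq_left h]; exact hs i hi
      · rw [hx i, min_eq_left h]
    · have hxi : x i = P := by
        rw [hx i, min_eq_right h]
        push_cast
        field_simp
      refine ⟨mu P * P - lam P, ?_, ?_⟩
      · rw [hxi]; exact FL_at P
      · rw [hxi]
        have := (hs i hi).d P
        linarith
  choose! s' hs1 hs2 using key
  have hx0 : ∀ i ∈ I, 0 ≤ x i := fun i _ => by rw [hx i]; positivity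
  have hxP : ∀ i ∈ I, x i ≤ P := by
    intro i _
    rw [hx i, div_le_iff₀ hM0]
    have : min (n i) (M * P) ≤ M * P := min_le_right _ _
    calc ((min (n i) (M * P) : ℕ) : ℝ) ≤ ((M * P : ℕ) : ℝ) := by exact_mod_cast this
      _ = P * M := by push_cast; ring
  have h1 := n3_odd I x s' P hP hx0 hxP hs1 t ht hG
  exact (Finset.sum_le_sum hs2).trans h1

lemma hypJ_even {m : ℕ} (hm : 2 ≤ m) {M : ℝ} (hM : 1 ≤ M) (q : ℕ) (hq : 2 ≤ q) :
    HypJ m M (fun x t => FL (x / 5) (t / 5)) (nu q) (5 * om q) := by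
  intro x y t t' τ hx hxy ht' ht h
  have hm1 : (2:ℝ) ≤ m := by exact_mod_cast hm
  have hM2 : 0 ≤ 2 / M := by positivity
  have hy : 0 ≤ y := by linarith
  have h1 := h (y / 3) (by nlinarith [mul_nonneg hy (show (0:ℝ) ≤ m - 2 by linarith)])
  obtain ⟨hn2, hno⟩ := nu_om q hq
  rcases le_total (y / 3) x with h2 | h2
  · rw [max_eq_right (by linarith)] at h1
    have h3 := ht.e1 q
    have h4 := ht'.e1 q
    linarith
  · rw [max_eq_left (by linarith)] at h1
    have h3 := ht.e2 (by linarith) q hq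
    have h4 := ht'.nonneg
    linarith

lemma hypN_even {m : ℕ} (hm : 2 ≤ m) {M : ℝ} (hM : 1 ≤ M) (q : ℕ) (hq : 2 ≤ q) :
    HypN m M (fun x t => FL (x / 5) (t / 5)) HL (nu q) (5 * om q) := by
  intro v R B s hv hR hB τ hv1 hB0 hBR hBv hs hhv hhR hhB h1 h2
  have hmu := nu_nonneg q
  obtain ⟨hn2, hno⟩ := nu_om q hq
  have hm3 : (2:ℝ) ≤ m := by exact_mod_cast hm
  have hM2 : 0 ≤ 2 / M := by positivity
  have hM1 : 0 ≤ 1 / M := by positivity
  have hR0 : 0 ≤ R := by linarith
  have hv0 : 0 ≤ v := by linarith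
  have k1 := h1 (v / 2) (R / 3) (by nlinarith [mul_nonneg hv0 (show (0:ℝ) ≤ m - 2 by linarith)])
    (by nlinarith [mul_nonneg hR0 (show (0:ℝ) ≤ m - 2 by linarith)])
  have hs0 := hs.nonneg
  have hB0' := hhB.nonneg
  have hR0' := hhR.nonneg
  have hBv3 : B ≤ v / 2 := by
    nlinarith [mul_nonneg hB0 (show (0:ℝ) ≤ m - 2 by linarith)]
  rw [max_eq_left (show 0 ≤ v / 2 - B by linarith)] at k1
  have hmuv : 0 ≤ nu q * v := mul_nonneg hmu hv0
  rcases le_total (v / 2) R with c1 | c1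
  · rw [max_eq_right (show v / 2 - R ≤ 0 by linarith)] at k1
    rcases le_total R (3 * v) with c2 | c2
    · rw [max_eq_right (show R / 3 - v ≤ 0 by linarith)] at k1
      have g1 := hs.e3 hv0 q hq
      have g2 := hhR.e1 q
      linarith
    · rw [max_eq_left (show 0 ≤ R / 3 - v by linarith)] at k1
      have g1 := hs q
      have g2 := hhR.e2 (by linarith) q hq
      linarith
  · rw [max_eq_left (show 0 ≤ v / 2 - R by linarith),
      max_eq_right (show R / 3 - v ≤ 0 by linarith)] at k1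
    have g1 := hs.e4 hv0 q hq
    linarith

lemma hypA_even (V : Type*) {M : ℕ} (hM : 1 ≤ M) (q : ℕ) (hq : 2 ≤ q) :
    HypA V (M:ℝ) HL (nu q) (5 * om q) (M * (2 * q + 1)) := by
  intro I n x s t hs ht hx hG
  have hM0 : (0:ℝ) < M := by exact_mod_cast hM
  have key : ∀ i ∈ I, ∃ s' : ℝ, HL (x i) s' ∧ nu q * (n i / M) - s i ≤ nu q * x i - s' := by
    intro i hi
    rcases le_total (n i) (M * (2 * q + 1)) with h | h
    · refine ⟨s i, ?_, ?_⟩
      · rw [hx i, min_eq_left h]; exact hs i hi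
      · rw [hx i, min_eq_left h]
    · have hxi : x i = 2 * (q:ℝ) + 1 := by
        rw [hx i, min_eq_right h]
        push_cast
        field_simp
      refine ⟨nu q * (2 * q + 1) - om q, ?_, ?_⟩
      · rw [hxi]; exact HL_at q
      · rw [hxi]
        have := hs i hi q
        linarith
  choose! s' hs1 hs2 using key
  have hx0 : ∀ i ∈ I, 0 ≤ x i := fun i _ => by rw [hx i]; positivity
  have hxP : ∀ i ∈ I, x i ≤ 2 * q + 1 := by
    intro i _
    rw [hx i, div_le_iff₀ hM0]
    have : min (n i) (M * (2 * q + 1)) ≤ M * (2 * q + 1) := min_le_right _ _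
    calc ((min (n i) (M * (2 * q + 1)) : ℕ) : ℝ) ≤ ((M * (2 * q + 1) : ℕ) : ℝ) := by
          exact_mod_cast this
      _ = (2 * q + 1) * M := by push_cast; ring
  have h1 := n3_even I x s' q hq hx0 hxP hs1 t ht hG
  exact (Finset.sum_le_sum hs2).trans h1

variable {V : Type*} [DecidableEq V]

theorem step_odd {j : ℕ} (h1 : LB V (2 * j + 1) ((5 ^ j : ℕ) : ℝ) FL)
    (h2 : LB V (2 * j + 2) ((5 ^ j : ℕ) : ℝ) HL) : LB V (2 * (j + 1) + 1) ((5 ^ (j + 1) : ℕ) : ℝ) FL := by
  intro c S C hc hg hu hC P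
  have hM : 1 ≤ 5 ^ j := Nat.one_le_pow _ _ (by norm_num)
  have hM' : (1:ℝ) ≤ ((5 ^ j : ℕ) : ℝ) := by exact_mod_cast hM
  have hM0 : (0:ℝ) < ((5 ^ j : ℕ) : ℝ) := by linarith
  have hT0 := T_nonneg c S
  rcases Nat.lt_or_ge P 2 with hP | hP
  · have : mu P = 0 ∧ lam P = 0 := by
      have : P = 0 ∨ P = 1 := by omega
      rcases this with rfl | rfl <;> simp [mu, lam]
    rw [this.1, this.2]
    have : 0 ≤ T c S / ((5 ^ (j + 1) : ℕ) : ℝ) := by positivity
    linarith
  · have HN : HypN (2 * j + 1) ((5 ^ j : ℕ) : ℝ) HL FL (mu P) (5 * lam P) := by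
      rcases Nat.eq_zero_or_pos j with rfl | hj
      · simpa using hypN_odd1 P hP
      · exact hypN_odd3 (by omega) hM' P hP
    have h3 := skeleton (V := V) (m := 2 * j + 1) (by omega) hM' (F1 := HL) (F2 := FL) h2 h1
      (mu_nonneg P) (K := 5 * lam P) (by
        have := mu_le_lam P hP
        have := mu_nonneg P
        linarith) (5 ^ j * P) (hypA_odd V hM P hP) (hypJ_odd (by omega) hM' P hP) HN hc
      (C := C) (by omega) S.card S rfl hg hu
    have e : ((5 ^ (j + 1) : ℕ) : ℝ) = ((5 ^ j : ℕ) : ℝ) * 5 := by push_cast; ring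
    rw [e, ← div_div, ← div_div]
    linarith

theorem step_even {j : ℕ} (h1 : LB V (2 * (j + 1) + 1) ((5 ^ (j + 1) : ℕ) : ℝ) FL)
    (h2 : LB V (2 * j + 2) ((5 ^ j : ℕ) : ℝ) HL) :
    LB V (2 * (j + 1) + 2) ((5 ^ (j + 1) : ℕ) : ℝ) HL := by
  intro c S C hc hg hu hC q
  have hM : 1 ≤ 5 ^ j := Nat.one_le_pow _ _ (by norm_num)
  have hM' : (1:ℝ) ≤ ((5 ^ j : ℕ) : ℝ) := by exact_mod_cast hM
  have hM0 : (0:ℝ) < ((5 ^ j : ℕ) : ℝ) := by linarith
  have hT0 := T_nonneg c S
  have e : ((5 ^ (j + 1) : ℕ) : ℝ) = ((5 ^ j : ℕ) : ℝ) * 5 := by push_cast; ring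
  rcases Nat.lt_or_ge q 2 with hP | hP
  · have : nu q = 0 ∧ om q = 0 := by
      have : q = 0 ∨ q = 1 := by omega
      rcases this with rfl | rfl <;> simp [nu, om]
    rw [this.1, this.2]
    have : 0 ≤ T c S / ((5 ^ (j + 1) : ℕ) : ℝ) := by positivity
    linarith
  · have h1' : LB V ((2 * j + 2) + 1) ((5 ^ j : ℕ) : ℝ) (fun x t => FL (x / 5) (t / 5)) := by
      intro c S C hc hg hu hC
      have := h1 c S C hc hg hu (by omega)
      rw [e, ← div_div, ← div_div] at this
      exact this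
    have h3 := skeleton (V := V) (m := 2 * j + 2) (by omega) hM' (F2 := HL) h1' h2
      (nu_nonneg q) (K := 5 * om q) (by
        obtain ⟨hn2, hno⟩ := nu_om q hP
        linarith) (5 ^ j * (2 * q + 1)) (hypA_even V hM q hP) (hypJ_even (by omega) hM' q hP)
      (hypN_even (by omega) hM' q hP) hc (C := C) (by omega) S.card S rfl hg hu
    rw [e, ← div_div, ← div_div]
    linarith

end Pool.Agent.Work.MP_f94239_co
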