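import Pool.Agent.Work.MP_f94239_co.Base

/-!
# The upper bound: optimal colourings
-/

set_option autoImplicit false

namespace Pool.Agent.Work.MP_f94239_co

open Finset

section
variable {V W : Type*} [DecidableEq V] [DecidableEq W]

lemma T_congr {c c' : V → V → ℕ} {S : Finset V} (h : ∀ x ∈ S, ∀ y ∈ S, x ≠ y → c x y = c' x y) :
    T c S = T c' S := by
  unfold T t3
  congr 1
  refine Finset.sum_congr rfl fun x hx => Finset.sum_congr rfl fun y hy => Finset.sum_congr rfl
    fun z hz => ?_
  unfold mm
  by_cases hd : x ≠ y ∧ y ≠ z ∧ x ≠ z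
  · rw [h x hx y hy hd.1, h y hy z hz hd.2.1, h x hx z hz hd.2.2]
  · rw [if_neg (fun e => hd e.1), if_neg (fun e => hd e.1)]

lemma T_image (c : V → V → ℕ) {S : Finset W} {f : W → V} (hf : Set.InjOn f S) :
    T (fun x y => c (f x) (f y)) S = T c (S.image f) := by
  unfold T t3
  congr 1
  rw [Finset.sum_image hf]
  refine Finset.sum_congr rfl fun x hx => ?_
  rw [Finset.sum_image hf]
  refine Finset.sum_congr rfl fun y hy => ?_
  rw [Finset.sum_image hf]
  refine Finset.sum_congr rfl fun z hz => ?_
  unfold mm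
  have h1 : x ≠ y ↔ f x ≠ f y := ⟨fun h e => h (hf hx hy e), fun h e => h (by rw [e])⟩
  have h2 : y ≠ z ↔ f y ≠ f z := ⟨fun h e => h (hf hy hz e), fun h e => h (by rw [e])⟩
  have h3 : x ≠ z ↔ f x ≠ f z := ⟨fun h e => h (hf hx hz e), fun h e => h (by rw [e])⟩
  simp only [h1, h2, h3]

end

/-- existence of colourings of `K_n` with `k` colours and exactly `f n` monochromatic triangles -/
def Att (k : ℕ) (f : ℕ → ℕ) : Prop :=
  ∀ n : ℕ, ∃ c : ℕ → ℕ → ℕ, Sym c ∧ Gal c (range n) ∧ Uses c (range n) (range k) ∧
    T c (range n) = f n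

/-- adjacency in the pentagon -/
def pent (i j : ℕ) : Prop := (i + 1) % 5 = j ∨ (j + 1) % 5 = i

instance (i j : ℕ) : Decidable (pent i j) := by unfold pent; infer_instance

lemma pent_comm (i j : ℕ) : pent i j ↔ pent j i := by unfold pent; tauto

lemma pent_no_mono : ∀ i < 5, ∀ j < 5, ∀ l < 5, i ≠ j → j ≠ l → i ≠ l →
    ¬ ((pent i j ↔ pent j l) ∧ (pent i l ↔ pent j l)) := by
  intro i hi j hj l hl h1 h2 h3
  unfold pent
  interval_cases i <;> interval_cases j <;> interval_cases l <;> simp_all

/-- blow-up of the pentagon -/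
lemma att_step {k : ℕ} {f : ℕ → ℕ} (h : Att k f) :
    Att (k + 2) (fun n => ∑ i ∈ range 5, f ((n + i) / 5)) := by
  intro n
  choose d hd1 hd2 hd3 hd4 using h
  let sz : ℕ → ℕ := fun i => (n + (4 - i)) / 5
  let c : ℕ → ℕ → ℕ := fun x y =>
    if x % 5 = y % 5 then d (sz (x % 5)) (x / 5) (y / 5) else if pent (x % 5) (y % 5) then k else k + 1
  have hc : Sym c := by
    intro x y
    simp only [c]
    by_cases h1 : x % 5 = y % 5
    · rw [if_pos h1, if_pos h1.symm, h1]
      exact hd1 _ _ _
    · rw [if_neg h1, if_neg (Ne.symm h1)]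
      simp only [pent_comm (x % 5) (y % 5)]
  -- membership of quotients
  have hq : ∀ x ∈ range n, x / 5 ∈ range (sz (x % 5)) := by
    intro x hx
    rw [mem_range] at hx ⊢
    simp only [sz]
    omega
  have hlow : ∀ x ∈ range n, ∀ y ∈ range n, x ≠ y → x % 5 = y % 5 → c x y < k := by
    intro x hx y hy hxy h1
    simp only [c, if_pos h1]
    have h2 : y / 5 ∈ range (sz (x % 5)) := by rw [h1]; exact hq y hy
    exact mem_range.mp (hd3 _ _ (hq x hx) _ h2 (by omega))
  have hhigh : ∀ x y, x % 5 ≠ y % 5 → c x y = if pent (x % 5) (y % 5) then k else k + 1 := by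
    intro x y h1
    simp only [c, if_neg h1]
  have hhigh' : ∀ x y, x % 5 ≠ y % 5 → c x y = k ∨ c x y = k + 1 := by
    intro x y h1
    rw [hhigh x y h1]
    split_ifs <;> simp
  refine ⟨c, hc, ?_, ?_, ?_⟩
  · intro x hx y hy z hz hxy hyz hxz
    by_cases h1 : x % 5 = y % 5 <;> by_cases h2 : y % 5 = z % 5
    · have h3 : x % 5 = z % 5 := h1.trans h2
      simp only [c, if_pos h1, if_pos h2, if_pos h3]
      have e1 : y / 5 ∈ range (sz (x % 5)) := by rw [h1]; exact hq y hy
      have e2 : z / 5 ∈ range (sz (x % 5)) := by rw [h3]; exact hq z hz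
      rw [← h1]
      exact hd2 _ _ (hq x hx) _ e1 _ e2 (by omega) (by omega) (by omega)
    · right; left
      have h3 : x % 5 ≠ z % 5 := by rw [h1]; exact h2
      rw [hhigh y z h2, hhigh x z h3, h1]
    · right; right
      have h3 : x % 5 ≠ z % 5 := by rw [← h2]; exact h1
      rw [hhigh x y h1, hhigh x z h3, h2]
    · by_cases h3 : x % 5 = z % 5
      · left
        have h4 : y % 5 ≠ x % 5 := Ne.symm h1
        rw [hc x y, hhigh y x h4, hhigh y z h2, h3]
      · rcases hhigh' x y h1 with p1 | p1 <;> rcases hhigh' y z h2 with p2 | p2 <;>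
          rcases hhigh' x z h3 with p3 | p3 <;> rw [p1, p2, p3] <;> simp
  · intro x hx y hy hxy
    by_cases h1 : x % 5 = y % 5
    · have := hlow x hx y hy hxy h1
      rw [mem_range]; omega
    · rcases hhigh' x y h1 with p1 | p1 <;> rw [p1, mem_range] <;> omega
  · rw [T_decomp hc (fun x => x % 5) (range n)]
    have z1 : ∀ i ∈ (range n).image (fun x => x % 5), t3 c (blk (fun x => x % 5) (range n) i)
        (blk (fun x => x % 5) (range n) i) (cblk (fun x => x % 5) (range n) i) = 0 := by
      intro i _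
      unfold t3
      refine Finset.sum_eq_zero fun x hx => Finset.sum_eq_zero fun y hy =>
        Finset.sum_eq_zero fun z hz => ?_
      obtain ⟨hx1, hx2⟩ := mem_filter.mp hx
      obtain ⟨hy1, hy2⟩ := mem_filter.mp hy
      obtain ⟨hz1, hz2⟩ := mem_filter.mp hz
      simp only at hx2 hy2 hz2
      unfold mm
      rw [if_neg]
      rintro ⟨⟨hxy, _, _⟩, h2, _⟩
      have e1 := hlow x hx1 y hy1 hxy (by rw [hx2, hy2])
      rcases hhigh' y z (by rw [hy2]; exact Ne.symm hz2) with p | p <;> omega
    have z2 : t3d c (fun x => x % 5) (range n) = 0 := by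
      unfold t3d
      refine Finset.sum_eq_zero fun x _ => Finset.sum_eq_zero fun y _ =>
        Finset.sum_eq_zero fun z _ => ?_
      split_ifs with hd
      · obtain ⟨h1, h2, h3⟩ := hd
        unfold mm
        rw [if_neg]
        rintro ⟨_, g1, g2⟩
        rw [hhigh x y h1, hhigh y z h2] at g1
        rw [hhigh x z h3, hhigh y z h2] at g2
        apply pent_no_mono (x % 5) (Nat.mod_lt _ (by norm_num)) (y % 5) (Nat.mod_lt _ (by norm_num))
          (z % 5) (Nat.mod_lt _ (by norm_num)) h1 h2 h3
        constructor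
        · by_cases p : pent (x % 5) (y % 5) <;> by_cases q : pent (y % 5) (z % 5) <;>
            simp [p, q] at g1 ⊢
        · by_cases p : pent (x % 5) (z % 5) <;> by_cases q : pent (y % 5) (z % 5) <;>
            simp [p, q] at g2 ⊢
      · rfl
    rw [Finset.sum_congr rfl z1, z2]
    simp only [Finset.sum_const_zero, zero_div, add_zero]
    have e1 : ∑ i ∈ (range n).image (fun x => x % 5), T c (blk (fun x => x % 5) (range n) i) =
        ∑ i ∈ range 5, T c (blk (fun x => x % 5) (range n) i) := by
      apply Finset.sum_subset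
      · intro i hi
        obtain ⟨x, _, rfl⟩ := mem_image.mp hi
        exact mem_range.mpr (Nat.mod_lt _ (by norm_num))
      · intro i _ hi
        have : blk (fun x => x % 5) (range n) i = ∅ := by
          rw [Finset.eq_empty_iff_forall_notMem]
          intro x hx
          obtain ⟨hx1, hx2⟩ := mem_filter.mp hx
          exact hi (mem_image.mpr ⟨x, hx1, hx2⟩)
        rw [this]
        simp [T, t3]
    have e2 : ∀ i ∈ range 5, T c (blk (fun x => x % 5) (range n) i) = (f ((n + (4 - i)) / 5) : ℝ) := by
      intro i hi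
      rw [mem_range] at hi
      have g1 : T c (blk (fun x => x % 5) (range n) i) =
          T (fun x y => d (sz i) (x / 5) (y / 5)) (blk (fun x => x % 5) (range n) i) := by
        apply T_congr
        intro x hx y hy _
        obtain ⟨hx1, hx2⟩ := mem_filter.mp hx
        obtain ⟨hy1, hy2⟩ := mem_filter.mp hy
        simp only at hx2 hy2
        simp only [c]
        rw [if_pos (by rw [hx2, hy2]), hx2]
      have g2 : T (fun x y => d (sz i) (x / 5) (y / 5)) (blk (fun x => x % 5) (range n) i) =
          T (d (sz i)) ((blk (fun x => x % 5) (range n) i).image (fun x => x / 5)) := by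
        apply T_image (d (sz i)) (f := fun x : ℕ => x / 5)
        intro x hx y hy hxy
        have hx2 := (mem_filter.mp (Finset.mem_coe.mp hx)).2
        have hy2 := (mem_filter.mp (Finset.mem_coe.mp hy)).2
        simp only at hx2 hy2 hxy
        omega
      have g3 : (blk (fun x => x % 5) (range n) i).image (fun x => x / 5) = range (sz i) := by
        ext q
        simp only [mem_image, mem_range, blk, mem_filter, sz]
        constructor
        · rintro ⟨x, ⟨hx1, hx2⟩, rfl⟩
          omega
        · intro hq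
          exact ⟨5 * q + i, ⟨by omega, by omega⟩, by omega⟩
      rw [g1, g2, g3, hd4]
    rw [e1, Finset.sum_congr rfl e2]
    push_cast
    have := Finset.sum_range_reflect (fun i => (f ((n + i) / 5) : ℝ)) 5
    rw [← this]

lemma choose_three (n : ℕ) : ((n.choose 3 : ℕ) : ℝ) = (n:ℝ) * (n - 1) * (n - 2) / 6 := by
  induction n with
  | zero => simp
  | succ n ih =>
    rw [Nat.choose_succ_succ' n 2]
    push_cast
    rw [ih, Nat.cast_choose_two]
    ring

lemma att_one : Att 1 (fun n => n.choose 3) := by
  intro n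
  refine ⟨fun _ _ => 0, fun _ _ => rfl, fun _ _ _ _ _ _ _ _ _ => Or.inl rfl, fun _ _ _ _ _ => by simp, ?_⟩
  rw [T_one (C := range 1) (fun _ _ _ _ _ => by simp) (by simp)]
  rw [card_range, choose_three]

/-- the two-colouring: for `x < y` -/
def rd0 (x y : ℕ) : Bool :=
  if y % 2 = 1 then x % 2 = 0 else if x + 1 = y then false else if x + 2 = y then y % 4 = 0
    else x % 2 = 1

/-- red edges -/
def rd (x y : ℕ) : Bool := if x < y then rd0 x y else rd0 y x

/-- the two-colouring -/
def c2 (x y : ℕ) : ℕ := if rd x y then 1 else 0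

lemma c2_sym : Sym c2 := by
  intro x y
  unfold c2 rd
  rcases lt_trichotomy x y with h | h | h
  · have h' : ¬ y < x := by omega
    simp [h, h']
  · rw [h]
  · have h' : ¬ x < y := by omega
    simp [h, h']

lemma c2_val (x y : ℕ) : c2 x y = 0 ∨ c2 x y = 1 := by
  unfold c2; split_ifs <;> simp

lemma deg_eq_sum (n x : ℕ) : deg c2 1 (range n) x =
    ∑ y ∈ range n, if x ≠ y ∧ c2 x y = 1 then 1 else 0 := by
  unfold deg; rw [Finset.card_filter]

lemma count_even (m : ℕ) : ∑ y ∈ range (2 * m + 1), (if y % 2 = 0 then 1 else 0) = m + 1 := by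
  induction m with
  | zero => rfl
  | succ m ih =>
    rw [show 2 * (m + 1) + 1 = (2 * m + 1 + 1) + 1 by ring, Finset.sum_range_succ,
      Finset.sum_range_succ, ih]
    have h1 : (2 * m + 1) % 2 = 1 := by omega
    have h2 : (2 * m + 1 + 1) % 2 = 0 := by omega
    simp [h1, h2]

lemma count_odd (m : ℕ) : ∑ y ∈ range (2 * m), (if y % 2 = 1 then 1 else 0) = m := by
  induction m with
  | zero => simp
  | succ m ih =>
    rw [show 2 * (m + 1) = (2 * m + 1) + 1 by ring, Finset.sum_range_succ,
      Finset.sum_range_succ, ih]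
    have h1 : (2 * m) % 2 = 0 := by omega
    have h2 : (2 * m + 1) % 2 = 1 := by omega
    simp [h1, h2]

lemma c2_lt {x y : ℕ} (h : x < y) : c2 x y = if rd0 x y then 1 else 0 := by
  unfold c2 rd; simp [h]

lemma c2_gt {x y : ℕ} (h : y < x) : c2 x y = if rd0 y x then 1 else 0 := by
  have h' : ¬ x < y := by omega
  unfold c2 rd; simp [h']

lemma deg_c2 (m : ℕ) : ∀ x < 2 * m + 1, deg c2 1 (range (2 * m + 1)) x =
    if x = 2 * m ∧ m % 2 = 1 then m - 1 else m := by
  induction m with
  | zero =>
    intro x hx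
    have : x = 0 := by omega
    subst this
    simp [deg]
  | succ m ih =>
    intro x hx
    rw [deg_eq_sum, show 2 * (m + 1) + 1 = (2 * m + 1 + 1) + 1 by ring, Finset.sum_range_succ]
    rcases Nat.lt_or_ge x (2 * m + 1) with h1 | h1
    · rw [Finset.sum_range_succ, ← deg_eq_sum, ih x h1]
      have e1 : (x ≠ 2 * m + 1 ∧ c2 x (2 * m + 1) = 1) ↔ x % 2 = 0 := by
        rw [c2_lt h1]
        unfold rd0
        have : (2 * m + 1) % 2 = 1 := by omega
        simp only [this, if_true]
        by_cases h : x % 2 = 0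
        · simp [h]; omega
        · simp [h]
      have e2 : (x ≠ 2 * m + 1 + 1 ∧ c2 x (2 * m + 1 + 1) = 1) ↔
          (x % 2 = 1 ∨ (x = 2 * m ∧ m % 2 = 1)) := by
        rw [c2_lt (show x < 2 * m + 1 + 1 by omega)]
        unfold rd0
        have q1 : ¬ (2 * m + 1 + 1) % 2 = 1 := by omega
        have q2 : ¬ x + 1 = 2 * m + 1 + 1 := by omega
        simp only [q1, q2, if_false]
        by_cases h : x + 2 = 2 * m + 1 + 1
        · simp only [h, if_true]
          have : x = 2 * m := by omega
          subst this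
          by_cases h' : (2 * m + 1 + 1) % 4 = 0
          · simp [h']; omega
          · simp [h']; omega
        · simp only [h, if_false]
          by_cases h' : x % 2 = 1
          · simp [h']; omega
          · simp [h']; omega
      have e3 : ¬ (x = 2 * (m + 1) ∧ (m + 1) % 2 = 1) := by omega
      rw [if_neg e3]
      simp only [e1, e2]
      by_cases h : x % 2 = 0
      · by_cases h' : x = 2 * m ∧ m % 2 = 1
        · rw [if_pos h', if_pos h, if_pos (Or.inr h')]; omega
        · rw [if_neg h', if_pos h, if_neg (by omega)]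
      · rw [if_neg (by omega), if_neg h, if_pos (by omega)]
    · rcases Nat.lt_or_ge x (2 * m + 1 + 1) with h2 | h2
      · have hx' : x = 2 * m + 1 := by omega
        subst hx'
        rw [Finset.sum_range_succ]
        have e0 : ∀ y ∈ range (2 * m + 1), (if (2 * m + 1 ≠ y ∧ c2 (2 * m + 1) y = 1) then 1 else 0) =
            (if y % 2 = 0 then 1 else 0) := by
          intro y hy
          rw [mem_range] at hy
          have e1 : (2 * m + 1 ≠ y ∧ c2 (2 * m + 1) y = 1) ↔ y % 2 = 0 := by
            rw [c2_gt hy]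
            unfold rd0
            have : (2 * m + 1) % 2 = 1 := by omega
            simp only [this, if_true]
            by_cases h : y % 2 = 0
            · simp [h]; omega
            · simp [h]
          simp only [e1]
        rw [Finset.sum_congr rfl e0, count_even]
        have e2 : ¬ (2 * m + 1 ≠ 2 * m + 1 + 1 ∧ c2 (2 * m + 1) (2 * m + 1 + 1) = 1) := by
          rw [c2_lt (by omega)]
          unfold rd0
          have q1 : ¬ (2 * m + 1 + 1) % 2 = 1 := by omega
          simp only [q1, if_true, if_false]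
          simp
        rw [if_neg e2, if_neg (by simp), if_neg (by omega)]
      · have hx' : x = 2 * m + 1 + 1 := by omega
        subst hx'
        rw [if_neg (by simp)]
        rw [Finset.sum_range_succ, Finset.sum_range_succ]
        have e0 : ∀ y ∈ range (2 * m), (if (2 * m + 1 + 1 ≠ y ∧ c2 (2 * m + 1 + 1) y = 1) then 1 else 0) =
            (if y % 2 = 1 then 1 else 0) := by
          intro y hy
          rw [mem_range] at hy
          have e1 : (2 * m + 1 + 1 ≠ y ∧ c2 (2 * m + 1 + 1) y = 1) ↔ y % 2 = 1 := by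
            rw [c2_gt (by omega)]
            unfold rd0
            have q1 : ¬ (2 * m + 1 + 1) % 2 = 1 := by omega
            have q2 : ¬ y + 1 = 2 * m + 1 + 1 := by omega
            have q3 : ¬ y + 2 = 2 * m + 1 + 1 := by omega
            simp only [q1, q2, q3, if_false]
            by_cases h : y % 2 = 1
            · simp [h]; omega
            · simp [h]
          simp only [e1]
        rw [Finset.sum_congr rfl e0, count_odd]
        have e2 : (2 * m + 1 + 1 ≠ 2 * m ∧ c2 (2 * m + 1 + 1) (2 * m) = 1) ↔ m % 2 = 1 := by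
          rw [c2_gt (by omega)]
          unfold rd0
          have q1 : ¬ (2 * m + 1 + 1) % 2 = 1 := by omega
          have q2 : ¬ 2 * m + 1 = 2 * m + 1 + 1 := by omega
          have q3 : 2 * m + 2 = 2 * m + 1 + 1 := by omega
          simp only [q1, q2, q3, if_false, if_true]
          by_cases h' : (2 * m + 1 + 1) % 4 = 0
          · simp [h']; omega
          · simp [h']; omega
        have e3 : ¬ (2 * m + 1 + 1 ≠ 2 * m + 1 ∧ c2 (2 * m + 1 + 1) (2 * m + 1) = 1) := by
          rw [c2_gt (by omega)]
          unfold rd0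
          have q1 : ¬ (2 * m + 1 + 1) % 2 = 1 := by omega
          simp only [q1, if_true, if_false]
          simp
        rw [if_neg e3]
        simp only [e2]
        by_cases h : m % 2 = 1
        · rw [if_pos h, if_neg (by omega)]
        · rw [if_neg h, if_pos (by omega)]; omega

lemma count_even' (m : ℕ) : ∑ y ∈ range (2 * m), (if y % 2 = 0 then 1 else 0) = m := by
  induction m with
  | zero => rfl
  | succ m ih =>
    rw [show 2 * (m + 1) = (2 * m + 1) + 1 by ring, Finset.sum_range_succ,
      Finset.sum_range_succ, ih]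
    have h1 : (2 * m) % 2 = 0 := by omega
    have h2 : (2 * m + 1) % 2 = 1 := by omega
    simp [h1, h2]

/-- the balanced bipartite colouring -/
def c3 (x y : ℕ) : ℕ := if x % 2 = y % 2 then 0 else 1

lemma c3_sym : Sym c3 := by
  intro x y; unfold c3; simp only [eq_comm]

lemma c3_val (x y : ℕ) : c3 x y = 0 ∨ c3 x y = 1 := by
  unfold c3; split_ifs <;> simp

lemma deg_c3 (m x : ℕ) : deg c3 1 (range (2 * m)) x = m := by
  unfold deg
  rw [Finset.card_filter]
  rcases Nat.mod_two_eq_zero_or_one x with h | h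
  · refine (Finset.sum_congr rfl fun y _ => ?_).trans (count_odd m)
    have e1 : (x ≠ y ∧ c3 x y = 1) ↔ y % 2 = 1 := by
      unfold c3
      rcases Nat.mod_two_eq_zero_or_one y with h' | h'
      · simp [h, h']
      · simp [h, h']; omega
    simp only [e1]
  · refine (Finset.sum_congr rfl fun y _ => ?_).trans (count_even' m)
    have e1 : (x ≠ y ∧ c3 x y = 1) ↔ y % 2 = 0 := by
      unfold c3
      rcases Nat.mod_two_eq_zero_or_one y with h' | h'
      · simp [h, h']; omega
      · simp [h, h']
    simp only [e1]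

lemma two_gal {c : ℕ → ℕ → ℕ} (h : ∀ x y, c x y = 0 ∨ c x y = 1) (S : Finset ℕ) : Gal c S := by
  intro x _ y _ z _ _ _ _
  rcases h x y with p1 | p1 <;> rcases h y z with p2 | p2 <;> rcases h x z with p3 | p3 <;>
    rw [p1, p2, p3] <;> simp

lemma two_uses {c : ℕ → ℕ → ℕ} (h : ∀ x y, c x y = 0 ∨ c x y = 1) (S : Finset ℕ) :
    Uses c S (range 2) := by
  intro x _ y _ _
  rcases h x y with p | p <;> rw [p] <;> simp

lemma att_two : Att 2 gd := by
  intro n
  obtain ⟨m, hm | hm⟩ := Nat.even_or_odd' n
  · refine ⟨c3, c3_sym, two_gal c3_val _, two_uses c3_val _, ?_⟩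
    have h1 := goodman2 c3_sym (S := range n) (a := 1) (b := 0) (by norm_num)
      (fun x _ y _ _ => (c3_val x y).symm)
    rw [card_range] at h1
    have h2 : ∀ x ∈ range n, (2 * (deg c3 1 (range n) x : ℝ) - ((n:ℝ) - 1)) ^ 2 = 1 := by
      intro x _
      rw [hm, deg_c3]
      push_cast
      ring
    rw [Finset.sum_congr rfl h2, Finset.sum_const, card_range, nsmul_eq_mul] at h1
    have h3 := gd_even m
    rw [← hm] at h3
    rw [h3]
    have h4 : (n:ℝ) = 2 * m := by rw [hm]; push_cast; ring
    rw [h4] at h1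
    linarith
  · refine ⟨c2, c2_sym, two_gal c2_val _, two_uses c2_val _, ?_⟩
    have h1 := goodman2 c2_sym (S := range n) (a := 1) (b := 0) (by norm_num)
      (fun x _ y _ _ => (c2_val x y).symm)
    rw [card_range] at h1
    have h2 : ∀ x ∈ range n, (2 * (deg c2 1 (range n) x : ℝ) - ((n:ℝ) - 1)) ^ 2 =
        if x = 2 * m ∧ m % 2 = 1 then 4 else 0 := by
      intro x hx
      rw [mem_range, hm] at hx
      rw [hm, deg_c2 m x hx]
      by_cases h : x = 2 * m ∧ m % 2 = 1
      · rw [if_pos h, if_pos h]
        have : 1 ≤ m := by omega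
        push_cast [Nat.cast_sub this]
        ring
      · rw [if_neg h, if_neg h]
        push_cast
        ring
    rw [Finset.sum_congr rfl h2] at h1
    have h4 : (n:ℝ) = 2 * m + 1 := by rw [hm]; push_cast; ring
    rcases Nat.mod_two_eq_zero_or_one m with hm2 | hm2
    · have h5 : ∀ x ∈ range n, (if x = 2 * m ∧ m % 2 = 1 then (4:ℝ) else 0) = 0 := by
        intro x _; rw [if_neg (by omega)]
      rw [Finset.sum_congr rfl h5] at h1
      obtain ⟨r, hr⟩ : ∃ r, m = 2 * r := ⟨m / 2, by omega⟩
      have h3 := gd_one_mod r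
      rw [show 4 * r + 1 = n by omega] at h3
      rw [h3]
      have h6 : (m:ℝ) = 2 * r := by rw [hr]; push_cast; ring
      rw [h4, h6] at h1
      simp only [Finset.sum_const_zero, mul_zero, add_zero] at h1
      linarith
    · have h5 : ∀ x ∈ range n, (if x = 2 * m ∧ m % 2 = 1 then (4:ℝ) else 0) =
          if x = 2 * m then 4 else 0 := by
        intro x _; simp [hm2]
      rw [Finset.sum_congr rfl h5, Finset.sum_ite_eq' (range n) (2 * m)] at h1
      rw [if_pos (by rw [mem_range]; omega)] at h1
      obtain ⟨r, hr⟩ : ∃ r, m = 2 * r + 1 := ⟨m / 2, by omega⟩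
      have h3 := gd_three_mod r
      rw [show 4 * r + 3 = n by omega] at h3
      rw [h3]
      have h6 : (m:ℝ) = 2 * r + 1 := by rw [hr]; push_cast; ring
      rw [h4, h6] at h1
      linarith

/-- reindexing -/
lemma sum_five (g : ℕ → ℕ) (N : ℕ) :
    ∑ i ∈ range 5, ∑ s ∈ range N, g (i + 5 * s) = ∑ t ∈ range (5 * N), g t := by
  induction N with
  | zero => simp
  | succ N ih =>
    simp only [Finset.sum_range_succ _ N, Finset.sum_add_distrib]
    rw [ih, show 5 * (N + 1) = 5 * N + 5 by ring, Finset.sum_range_add]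
    congr 1
    refine Finset.sum_congr rfl fun i _ => ?_
    rw [add_comm]

lemma att_iter {k : ℕ} {f : ℕ → ℕ} (h : Att k f) (j : ℕ) :
    Att (2 * j + k) (fun n => ∑ s ∈ range (5 ^ j), f ((n + s) / 5 ^ j)) := by
  induction j with
  | zero => simpa using h
  | succ j ih =>
    have h1 := att_step ih
    rw [show 2 * (j + 1) + k = 2 * j + k + 2 by ring]
    have h2 : (fun n => ∑ s ∈ range (5 ^ (j + 1)), f ((n + s) / 5 ^ (j + 1))) =
        (fun n => ∑ i ∈ range 5, ∑ s ∈ range (5 ^ j), f (((n + i) / 5 + s) / 5 ^ j)) := by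
      funext n
      rw [pow_succ', ← sum_five]
      refine Finset.sum_congr rfl fun i _ => Finset.sum_congr rfl fun s _ => ?_
      congr 1
      rw [← Nat.div_div_eq_div_mul]
      congr 1
      omega
    rw [h2]
    exact h1

/-- evaluation of the balanced sum -/
lemma sum_balanced (f : ℕ → ℕ) {N : ℕ} (hN : 0 < N) (n : ℕ) :
    ∑ s ∈ range N, f ((n + s) / N) = (n % N) * f (n / N + 1) + (N - n % N) * f (n / N) := by
  have hr : n % N < N := Nat.mod_lt _ hN
  have h0 : N = (N - n % N) + n % N := by omega
  obtain ⟨r, hr'⟩ : ∃ r, r = n % N := ⟨_, rfl⟩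
  obtain ⟨m, hm⟩ : ∃ m, m = n / N := ⟨_, rfl⟩
  have hn : n = N * m + r := by rw [hr', hm]; exact (Nat.div_add_mod n N).symm
  rw [← hr', ← hm]
  rw [← hr'] at hr h0
  have h1 : ∑ s ∈ range N, f ((n + s) / N) = ∑ s ∈ range ((N - r) + r), f ((n + s) / N) := by
    rw [← h0]
  rw [h1, Finset.sum_range_add]
  have h2 : ∀ s ∈ range (N - r), f ((n + s) / N) = f m := by
    intro s hs
    rw [mem_range] at hs
    congr 1
    rw [hn, add_assoc, Nat.mul_add_div hN, Nat.div_eq_of_lt (by omega), add_zero]
  have h3 : ∀ s ∈ range r, f ((n + (N - r + s)) / N) = f (m + 1) := by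
    intro s hs
    rw [mem_range] at hs
    congr 1
    have : n + (N - r + s) = N * (m + 1) + s := by
      rw [hn]; ring_nf; omega
    rw [this, Nat.mul_add_div hN, Nat.div_eq_of_lt (by omega), add_zero]
  rw [Finset.sum_congr rfl h2, Finset.sum_congr rfl h3, Finset.sum_const, Finset.sum_const,
    card_range, card_range, smul_eq_mul, smul_eq_mul, add_comm]

end Pool.Agent.Work.MP_f94239_co
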